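import Mathlib

/-!
Row M2: from the free parameters to the final form.
-/

set_option autoImplicit false

namespace Pool.Agent.Lib.SDF

/-- For `n < k` and for `r + 1 > n ^ d` a small `c` suffices.  Otherwise take `N = n / k` and
`s = ⌈C log n⌉` with `(1 + δ) ^ (2 s) > K1 n ^ d`; `N ≥ n / (2 k)` and `s ≤ C' log n` as
`log n ≥ log 2`. -/
theorem asym (k d : ℕ) (hk : 1 ≤ k) (hd : 1 ≤ d) (c0 K1 δ : ℝ) (hc0 : 0 < c0) (hK1 : 0 < K1)
    (hδ : 0 < δ) :
    ∃ c : ℝ, 0 < c ∧ ∀ n r : ℕ, 2 ≤ n →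
      (∀ N s : ℕ, 0 < N → k * N ≤ n → K1 * (r + 1) < (1 + δ) ^ (2 * s) →
        c0 < (r + 1) * ((k * s : ℝ) / N) ^ d) →
      c * (n / Real.log n) ^ d ≤ r + 1 := by
  have hkR : (1 : ℝ) ≤ k := by exact_mod_cast hk
  have hkpos : (0 : ℝ) < k := by linarith
  have hl2 : 0 < Real.log 2 := Real.log_pos (by norm_num)
  have hlδ : 0 < Real.log (1 + δ) := Real.log_pos (by linarith)
  obtain ⟨C, hC⟩ : ∃ C : ℝ, C = (|Real.log K1| / Real.log 2 + d + 1) / (2 * Real.log (1 + δ)) :=
    ⟨_, rfl⟩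
  have hCpos : 0 < C := by rw [hC]; positivity
  obtain ⟨C', hC'⟩ : ∃ C' : ℝ, C' = C + 1 / Real.log 2 := ⟨_, rfl⟩
  have hC'pos : 0 < C' := by rw [hC']; positivity
  obtain ⟨c1, hc1⟩ : ∃ c1 : ℝ, c1 = (Real.log 2 / k) ^ d := ⟨_, rfl⟩
  obtain ⟨c2, hc2⟩ : ∃ c2 : ℝ, c2 = (Real.log 2) ^ d := ⟨_, rfl⟩
  obtain ⟨c3, hc3⟩ : ∃ c3 : ℝ, c3 = c0 / (2 * k ^ 2 * C') ^ d := ⟨_, rfl⟩
  have hc1p : 0 < c1 := by rw [hc1]; positivity
  have hc2p : 0 < c2 := by rw [hc2]; positivity
  have hc3p : 0 < c3 := by rw [hc3]; positivity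
  refine ⟨min c1 (min c2 c3), lt_min hc1p (lt_min hc2p hc3p), ?_⟩
  intro n r hn hyp
  have hnR : (2 : ℝ) ≤ n := by exact_mod_cast hn
  have hnpos : (0 : ℝ) < n := by linarith
  have hlogn : Real.log 2 ≤ Real.log n := Real.log_le_log (by norm_num) hnR
  have hL : 0 < Real.log n := by linarith
  have hX0 : 0 ≤ (n : ℝ) / Real.log n := by positivity
  have hXd : 0 ≤ ((n : ℝ) / Real.log n) ^ d := by positivity
  have hr1 : (1 : ℝ) ≤ r + 1 := by
    have : (0 : ℝ) ≤ r := Nat.cast_nonneg _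
    linarith
  have hXn : (n : ℝ) / Real.log n ≤ n / Real.log 2 :=
    div_le_div_of_nonneg_left hnpos.le hl2 hlogn
  by_cases hnk : n < k
  · -- small `n`
    have h1 : min c1 (min c2 c3) * (n / Real.log n) ^ d ≤ c1 * (n / Real.log n) ^ d :=
      mul_le_mul_of_nonneg_right (min_le_left _ _) hXd
    have h2 : (n : ℝ) ≤ k := by exact_mod_cast hnk.le
    have h3 : c1 * (n / Real.log n) ^ d ≤ 1 := by
      rw [hc1, ← mul_pow]
      refine pow_le_one₀ (by positivity) ?_
      calc Real.log 2 / k * (n / Real.log n) ≤ Real.log 2 / k * (n / Real.log 2) :=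
            mul_le_mul_of_nonneg_left hXn (by positivity)
        _ = n / k := by field_simp
        _ ≤ 1 := by rw [div_le_one hkpos]; exact h2
    linarith
  push Not at hnk
  by_cases hrn : (n : ℝ) ^ d < r + 1
  · have h1 : min c1 (min c2 c3) * (n / Real.log n) ^ d ≤ c2 * (n / Real.log n) ^ d :=
      mul_le_mul_of_nonneg_right ((min_le_right _ _).trans (min_le_left _ _)) hXd
    have h3 : c2 * (n / Real.log n) ^ d ≤ (n : ℝ) ^ d := by
      rw [hc2, ← mul_pow]
      refine pow_le_pow_left₀ (by positivity) ?_ d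
      calc Real.log 2 * (n / Real.log n) ≤ Real.log 2 * (n / Real.log 2) :=
            mul_le_mul_of_nonneg_left hXn hl2.le
        _ = n := by field_simp
    linarith
  push Not at hrn
  have hkpos' : 0 < k := by omega
  obtain ⟨N, hN⟩ : ∃ N : ℕ, N = n / k := ⟨_, rfl⟩
  have hkN : k * N ≤ n := by rw [hN]; exact Nat.mul_div_le n k
  have hNpos : 0 < N := by rw [hN]; exact Nat.div_pos hnk hkpos'
  have hnlt : n < k * (N + 1) := by
    rw [hN]; exact Nat.lt_mul_div_succ n hkpos'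
  have hn2 : (n : ℝ) ≤ 2 * k * N := by
    have h1 : n ≤ 2 * k * N := by nlinarith
    exact_mod_cast h1
  have hNR : (0 : ℝ) < N := by exact_mod_cast hNpos
  obtain ⟨s, hs⟩ : ∃ s : ℕ, s = ⌈C * Real.log n⌉₊ := ⟨_, rfl⟩
  have hs1 : C * Real.log n ≤ s := by rw [hs]; exact Nat.le_ceil _
  have hs2 : (s : ℝ) ≤ C' * Real.log n := by
    have h1 : (s : ℝ) < C * Real.log n + 1 := by
      rw [hs]; exact Nat.ceil_lt_add_one (by positivity)
    have h2 : 1 ≤ 1 / Real.log 2 * Real.log n := by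
      rw [one_div, ← div_eq_inv_mul, one_le_div hl2]; exact hlogn
    rw [hC', add_mul]
    linarith
  have hpow : K1 * (r + 1) < (1 + δ) ^ (2 * s) := by
    have h1 : K1 * (r + 1) ≤ K1 * (n : ℝ) ^ d := mul_le_mul_of_nonneg_left hrn hK1.le
    refine lt_of_le_of_lt h1 ?_
    rw [← Real.log_lt_log_iff (by positivity) (by positivity),
      Real.log_mul (by positivity) (by positivity), Real.log_pow, Real.log_pow]
    have h2 : Real.log K1 ≤ |Real.log K1| / Real.log 2 * Real.log n := by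
      calc Real.log K1 ≤ |Real.log K1| := le_abs_self _
        _ = |Real.log K1| / Real.log 2 * Real.log 2 := by field_simp
        _ ≤ |Real.log K1| / Real.log 2 * Real.log n :=
            mul_le_mul_of_nonneg_left hlogn (by positivity)
    have h3 : (|Real.log K1| / Real.log 2 + d + 1) * Real.log n
        = 2 * Real.log (1 + δ) * (C * Real.log n) := by
      rw [hC]; field_simp
    have h4 : 2 * Real.log (1 + δ) * (C * Real.log n) ≤ 2 * Real.log (1 + δ) * s :=
      mul_le_mul_of_nonneg_left hs1 (by positivity)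
    have h5 : ((2 * s : ℕ) : ℝ) * Real.log (1 + δ) = 2 * Real.log (1 + δ) * s := by
      push_cast; ring
    rw [h5]
    have h6 : (|Real.log K1| / Real.log 2 + d + 1) * Real.log n
        = |Real.log K1| / Real.log 2 * Real.log n + d * Real.log n + Real.log n := by ring
    linarith
  have hmain := hyp N s hNpos hkN hpow
  have h1 : min c1 (min c2 c3) * (n / Real.log n) ^ d ≤ c3 * (n / Real.log n) ^ d :=
    mul_le_mul_of_nonneg_right ((min_le_right _ _).trans (min_le_right _ _)) hXd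
  refine h1.trans ?_
  have hr0 : (0 : ℝ) < r + 1 := by linarith
  have h2 : (k * s : ℝ) / N ≤ 2 * k ^ 2 * C' * (Real.log n / n) := by
    rw [div_le_iff₀ hNR]
    have h3 : (k : ℝ) * s ≤ k * (C' * Real.log n) := mul_le_mul_of_nonneg_left hs2 hkpos.le
    have h4 : k * (C' * Real.log n) = k * C' * Real.log n * (n / n) := by
      field_simp
    have h5 : k * C' * Real.log n * (n / n) ≤ k * C' * Real.log n * ((2 * k * N) / n) :=
      mul_le_mul_of_nonneg_left (div_le_div_of_nonneg_right hn2 hnpos.le) (by positivity)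
    have h6 : k * C' * Real.log n * ((2 * k * N) / n)
        = 2 * k ^ 2 * C' * (Real.log n / n) * N := by field_simp
    linarith
  have h3 : (((k * s : ℝ)) / N) ^ d ≤ (2 * k ^ 2 * C' * (Real.log n / n)) ^ d :=
    pow_le_pow_left₀ (by positivity) h2 d
  have h4 : c0 ≤ (r + 1) * (2 * k ^ 2 * C' * (Real.log n / n)) ^ d :=
    hmain.le.trans (mul_le_mul_of_nonneg_left h3 hr0.le)
  have h5 : (Real.log n / n) ^ d * ((n : ℝ) / Real.log n) ^ d = 1 := by
    rw [← mul_pow]
    have : Real.log n / n * (n / Real.log n) = 1 := by field_simp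
    rw [this, one_pow]
  have h6 : c0 * ((n : ℝ) / Real.log n) ^ d ≤ (r + 1) * (2 * k ^ 2 * C') ^ d := by
    calc c0 * ((n : ℝ) / Real.log n) ^ d
        ≤ (r + 1) * (2 * k ^ 2 * C' * (Real.log n / n)) ^ d * ((n : ℝ) / Real.log n) ^ d :=
          mul_le_mul_of_nonneg_right h4 hXd
      _ = (r + 1) * (2 * k ^ 2 * C') ^ d
          * ((Real.log n / n) ^ d * ((n : ℝ) / Real.log n) ^ d) := by rw [mul_pow]; ring
      _ = (r + 1) * (2 * k ^ 2 * C') ^ d := by rw [h5, mul_one]
  rw [hc3, div_mul_eq_mul_div, div_le_iff₀ (by positivity)]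
  exact h6

end Pool.Agent.Lib.SDF
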