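import Mathlib

/-!
Averages, the product basis of the functions on a finite product, the degree filtration, and the
low part for a pointer `y`.
-/

set_option autoImplicit false

namespace Pool.Agent.Lib.SDF

open Finset

/-- The average of a function on a finite type. -/
noncomputable def av {X : Type*} [Fintype X] (f : X → ℝ) : ℝ :=
  (∑ x, f x) / Fintype.card X

section av
variable {X Y : Type*} [Fintype X] [Fintype Y]

theorem av_add (f g : X → ℝ) : av (fun x => f x + g x) = av f + av g := by
  simp only [av, Finset.sum_add_distrib, add_div]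

theorem av_sub (f g : X → ℝ) : av (fun x => f x - g x) = av f - av g := by
  simp only [av, Finset.sum_sub_distrib, sub_div]

theorem av_neg (f : X → ℝ) : av (fun x => - f x) = - av f := by
  simp only [av, Finset.sum_neg_distrib, neg_div]

theorem av_mul_left (c : ℝ) (f : X → ℝ) : av (fun x => c * f x) = c * av f := by
  simp only [av, ← Finset.mul_sum, mul_div_assoc]

theorem av_mul_right (c : ℝ) (f : X → ℝ) : av (fun x => f x * c) = av f * c := by
  simp only [av, ← Finset.sum_mul]; ring

theorem av_zero : av (fun _ : X => (0 : ℝ)) = 0 := by simp [av]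

theorem av_const [Nonempty X] (c : ℝ) : av (fun _ : X => c) = c := by
  have h : (Fintype.card X : ℝ) ≠ 0 := by exact_mod_cast Fintype.card_ne_zero
  simp only [av, Finset.sum_const, Finset.card_univ, nsmul_eq_mul]
  field_simp

theorem av_mono {f g : X → ℝ} (h : ∀ x, f x ≤ g x) : av f ≤ av g := by
  unfold av
  exact div_le_div_of_nonneg_right (Finset.sum_le_sum fun x _ => h x) (Nat.cast_nonneg _)

theorem av_nonneg {f : X → ℝ} (h : ∀ x, 0 ≤ f x) : 0 ≤ av f := by
  unfold av
  exact div_nonneg (Finset.sum_nonneg fun x _ => h x) (Nat.cast_nonneg _)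

theorem av_finset_sum {J : Type*} (s : Finset J) (f : J → X → ℝ) :
    av (fun x => ∑ j ∈ s, f j x) = ∑ j ∈ s, av (f j) := by
  simp only [av]
  rw [Finset.sum_comm, Finset.sum_div]

theorem av_comm (f : X → Y → ℝ) :
    av (fun x => av (fun y => f x y)) = av (fun y => av (fun x => f x y)) := by
  simp only [av, ← Finset.sum_div]
  rw [Finset.sum_comm, div_right_comm]

theorem abs_av_le (f : X → ℝ) : |av f| ≤ av (fun x => |f x|) := by
  unfold av
  rw [abs_div, Nat.abs_cast]
  exact div_le_div_of_nonneg_right (Finset.abs_sum_le_sum_abs _ _) (Nat.cast_nonneg _)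

theorem av_congr {f g : X → ℝ} (h : ∀ x, f x = g x) : av f = av g := by
  unfold av; rw [Finset.sum_congr rfl fun x _ => h x]

theorem sum_eq_card_mul_av [Nonempty X] (f : X → ℝ) : ∑ x, f x = Fintype.card X * av f := by
  have h : (Fintype.card X : ℝ) ≠ 0 := by exact_mod_cast Fintype.card_ne_zero
  unfold av; field_simp

end av

/-- `e` is an orthonormal basis of the functions on `S` (uniform distribution) whose vector with
index `o` is the constant `1`. -/
structure IsBasis {S : Type*} [Fintype S] [DecidableEq S] (o : S) (e : S → S → ℝ) : Prop where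
  one : ∀ s, e o s = 1
  orth : ∀ a b, ∑ s, e a s * e b s = if a = b then (Fintype.card S : ℝ) else 0
  compl : ∀ s t, ∑ a, e a s * e a t = if s = t then (Fintype.card S : ℝ) else 0

/-- The product basis. -/
def E {I S : Type*} [Fintype I] (e : S → S → ℝ) (a x : I → S) : ℝ := ∏ i, e (a i) (x i)

/-- The coefficients of a function in the product basis. -/
noncomputable def coef {I S : Type*} [Fintype I] [DecidableEq I] [Fintype S] (e : S → S → ℝ)
    (g : (I → S) → ℝ) (a : I → S) : ℝ :=
  av (fun x => g x * E e a x)

/-- The support of an index of the product basis. -/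
def supp {I S : Type*} [Fintype I] [DecidableEq S] (o : S) (a : I → S) : Finset I :=
  Finset.univ.filter fun i => a i ≠ o

/-- A function of at most `D` coordinates. -/
def Junta {I S : Type*} (D : ℕ) (g : (I → S) → ℝ) : Prop :=
  ∃ Q : Finset I, Q.card ≤ D ∧ ∀ x x' : I → S, (∀ i ∈ Q, x i = x' i) → g x = g x'

/-- The functions of degree at most `D`: the span of the functions of at most `D` coordinates. -/
def degLE (I S : Type*) (D : ℕ) : Submodule ℝ ((I → S) → ℝ) :=
  Submodule.span ℝ {g | Junta D g}

/-- The indices of the product basis whose support contains at most `t` of the points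
`(v, y v)`. -/
def lowSet {κ α S : Type*} [Fintype κ] [DecidableEq κ] [Fintype α] [DecidableEq α] [Fintype S]
    [DecidableEq S] (o : S) (t : ℕ) (y : κ → α) : Finset (κ × α → S) :=
  Finset.univ.filter fun a => (Finset.univ.filter fun v => a (v, y v) ≠ o).card ≤ t

/-- The mass of the entries of `H` outside the low part for the pointer `y`. -/
noncomputable def highMass {κ α S ι : Type*} [Fintype κ] [DecidableEq κ] [Fintype α]
    [DecidableEq α] [Fintype S] [DecidableEq S] [Fintype ι] (o : S) (e : S → S → ℝ) (t : ℕ)
    (H : (κ × α → S) → Matrix ι ι ℝ) (y : κ → α) : ℝ :=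
  ∑ i, ∑ j, ∑ a ∈ (lowSet o t y)ᶜ, coef e (fun x => H x i j) a ^ 2

open Classical in
/-- The test matrix of a row. -/
noncomputable def Tmat {κ α S ι : Type*} [Fintype κ] [DecidableEq κ] [Fintype α] [Fintype ι]
    (W : (κ → S) → ℝ) (B : (κ → α) → Matrix ι ι ℝ) (x : κ × α → S) : Matrix ι ι ℝ :=
  ∑ y : κ → α, (-((Fintype.card ι : ℝ) / Fintype.card (κ → α))
    * (if (B y).trace ≤ 4 then W (fun v => x (v, y v)) else 0)) • B y

end Pool.Agent.Lib.SDF
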