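import Pool.Agent.Lib.SDF.Base

/-!
Row B1: a real orthonormal basis of the functions on `S` with first vector `1`
(Householder reflection).
-/

set_option autoImplicit false

namespace Pool.Agent.Lib.SDF

open Finset

private theorem B1_hh {S : Type*} [Fintype S] [DecidableEq S] (w : S → ℝ) (c : ℝ) (hc : c ≠ 0)
    (hw : ∑ s, w s * w s = 2 * c) (a b : S) :
    ∑ s, ((if a = s then (1 : ℝ) else 0) - w a * w s / c) *
      ((if b = s then (1 : ℝ) else 0) - w b * w s / c) = if a = b then 1 else 0 := by
  have h1 : ∀ s, ((if a = s then (1 : ℝ) else 0) - w a * w s / c) *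
      ((if b = s then (1 : ℝ) else 0) - w b * w s / c) =
      (if a = s then (if b = s then (1 : ℝ) else 0) else 0) - (if a = s then w b * w s / c else 0)
        - (if b = s then w a * w s / c else 0) + w a * w b / (c * c) * (w s * w s) := by
    intro s
    split_ifs <;> field_simp <;> ring
  rw [Finset.sum_congr rfl fun s _ => h1 s, Finset.sum_add_distrib, Finset.sum_sub_distrib,
    Finset.sum_sub_distrib, ← Finset.mul_sum, hw]
  simp only [Finset.sum_ite_eq, Finset.mem_univ, if_true]
  have h2 : w a * w b / (c * c) * (2 * c) = w b * w a / c + w a * w b / c := by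
    field_simp
    ring
  rw [h2]
  have h3 : (if b = a then (1 : ℝ) else 0) = if a = b then 1 else 0 := by
    simp only [eq_comm]
  rw [h3]
  ring

/-- With `β = 1 / √q`, `q = card S`, and `U a s = δ a s - (δ a o - β) * (δ s o - β) / (1 - β)`
(for `q = 1` everything is `1`), the matrix `U` is symmetric and orthogonal, its row `o` is
constant `β`, and `e a s = √q * U a s` works. -/
theorem exists_basis {S : Type*} [Fintype S] [DecidableEq S] (o : S) :
    ∃ e : S → S → ℝ, IsBasis o e := by
  have hq1 : 1 ≤ Fintype.card S := Fintype.card_pos_iff.2 ⟨o⟩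
  rcases hq1.eq_or_lt with h1 | h2
  · have hsub : Subsingleton S := Fintype.card_le_one_iff_subsingleton.1 h1.symm.le
    refine ⟨fun _ _ => 1, fun _ => rfl, fun a b => ?_, fun s t => ?_⟩
    · rw [if_pos (Subsingleton.elim a b)]
      simp
    · rw [if_pos (Subsingleton.elim s t)]
      simp
  · set q : ℝ := (Fintype.card S : ℝ) with hq
    have hq0 : (1 : ℝ) < q := by
      rw [hq]
      exact_mod_cast h2
    have hqpos : 0 < q := by linarith
    have hs : √q * √q = q := Real.mul_self_sqrt hqpos.le
    have hs1 : 1 < √q := by
      rw [Real.lt_sqrt (by norm_num)]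
      simpa using hq0
    have hspos : 0 < √q := by linarith
    set β : ℝ := 1 / √q with hβ
    have hβ1 : β < 1 := by
      rw [hβ, div_lt_one hspos]
      exact hs1
    have hβs : √q * β = 1 := by
      rw [hβ]
      field_simp
    have hββ : q * (β * β) = 1 := by
      calc q * (β * β) = (√q * √q) * (β * β) := by rw [hs]
        _ = (√q * β) * (√q * β) := by ring
        _ = 1 := by rw [hβs]; norm_num
    have hc : (1 - β) ≠ 0 := by
      have : 0 < 1 - β := by linarith
      exact ne_of_gt this
    let w : S → ℝ := fun s => (if s = o then 1 else 0) - β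
    have hw : ∑ s, w s * w s = 2 * (1 - β) := by
      have h3 : ∀ s, w s * w s = (if s = o then 1 - 2 * β else 0) + β * β := by
        intro s
        show ((if s = o then (1 : ℝ) else 0) - β) * ((if s = o then (1 : ℝ) else 0) - β) = _
        split_ifs <;> ring
      rw [Finset.sum_congr rfl fun s _ => h3 s, Finset.sum_add_distrib]
      simp only [Finset.sum_ite_eq', Finset.mem_univ, if_true, Finset.sum_const,
        Finset.card_univ, nsmul_eq_mul]
      rw [← hq, hββ]
      ring
    let U : S → S → ℝ := fun a s => (if a = s then (1 : ℝ) else 0) - w a * w s / (1 - β)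
    have hU : ∀ a s, U a s = U s a := by
      intro a s
      show (if a = s then (1 : ℝ) else 0) - w a * w s / (1 - β) =
        (if s = a then (1 : ℝ) else 0) - w s * w a / (1 - β)
      rw [mul_comm (w a) (w s)]
      simp only [eq_comm]
    have hUU : ∀ a b, ∑ s, U a s * U b s = if a = b then 1 else 0 := fun a b =>
      B1_hh w (1 - β) hc hw a b
    refine ⟨fun a s => √q * U a s, fun s => ?_, fun a b => ?_, fun s t => ?_⟩
    · have h4 : U o s = β := by
        show (if o = s then (1 : ℝ) else 0) -
          ((if o = o then 1 else 0) - β) * ((if s = o then 1 else 0) - β) / (1 - β) = β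
        by_cases hso : s = o
        · subst hso
          simp only [if_true]
          field_simp
          ring
        · have hos : ¬ o = s := fun h => hso h.symm
          rw [if_neg hos, if_neg hso, if_pos rfl]
          field_simp
          ring
      show √q * U o s = 1
      rw [h4, hβs]
    · have h5 : ∀ s, √q * U a s * (√q * U b s) = q * (U a s * U b s) := by
        intro s
        calc √q * U a s * (√q * U b s) = (√q * √q) * (U a s * U b s) := by ring
          _ = q * (U a s * U b s) := by rw [hs]
      rw [Finset.sum_congr rfl fun s _ => h5 s, ← Finset.mul_sum, hUU]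
      split_ifs <;> simp [hq]
    · have h5 : ∀ a, √q * U a s * (√q * U a t) = q * (U s a * U t a) := by
        intro a
        rw [hU a s, hU a t]
        calc √q * U s a * (√q * U t a) = (√q * √q) * (U s a * U t a) := by ring
          _ = q * (U s a * U t a) := by rw [hs]
      rw [Finset.sum_congr rfl fun a _ => h5 a, ← Finset.mul_sum, hUU]
      split_ifs <;> simp [hq]

end Pool.Agent.Lib.SDF
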