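import Pool.Agent.Lib.SDF.BasisProdA

/-!
Row B2: the product basis.
-/

set_option autoImplicit false

namespace Pool.Agent.Lib.SDF

open Finset

variable {I S : Type*} [Fintype I] [DecidableEq I] [Fintype S] [DecidableEq S]

/-- Expansion of a function in the product basis. -/
theorem expand {o : S} {e : S → S → ℝ} (h : IsBasis o e) (g : (I → S) → ℝ) (x : I → S) :
    g x = ∑ a, coef e g a * E e a x := by
  have hN : (Fintype.card (I → S) : ℝ) ≠ 0 := by
    have : Nonempty (I → S) := ⟨x⟩
    exact_mod_cast Fintype.card_ne_zero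
  have h1 : ∀ a : I → S, coef e g a * E e a x =
      ∑ x' : I → S, g x' * (E e a x' * E e a x) / Fintype.card (I → S) := by
    intro a
    unfold coef av
    rw [div_mul_eq_mul_div, Finset.sum_mul, Finset.sum_div]
    exact Finset.sum_congr rfl fun x' _ => by ring
  rw [Finset.sum_congr rfl fun a _ => h1 a, Finset.sum_comm]
  have h2 : ∀ x' : I → S, ∑ a : I → S, g x' * (E e a x' * E e a x) / Fintype.card (I → S) =
      if x' = x then g x' else 0 := by
    intro x'
    rw [← Finset.sum_div, ← Finset.mul_sum, E_compl h]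
    split_ifs with hx
    · field_simp
    · simp
  rw [Finset.sum_congr rfl fun x' _ => h2 x', Finset.sum_ite_eq' Finset.univ x]
  simp

/-- Parseval for partial sums with arbitrary coefficients. -/
theorem parseval_part {o : S} {e : S → S → ℝ} (h : IsBasis o e) (b : (I → S) → ℝ)
    (𝒜 : Finset (I → S)) :
    av (fun x => (∑ a ∈ 𝒜, b a * E e a x) ^ 2) = ∑ a ∈ 𝒜, b a ^ 2 := by
  have h1 : ∀ x : I → S, (∑ a ∈ 𝒜, b a * E e a x) ^ 2 =
      ∑ a ∈ 𝒜, ∑ a' ∈ 𝒜, (b a * b a') * (E e a x * E e a' x) := by
    intro x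
    rw [pow_two, Finset.sum_mul_sum]
    exact Finset.sum_congr rfl fun a _ => Finset.sum_congr rfl fun a' _ => by ring
  rw [av_congr h1, av_finset_sum]
  refine Finset.sum_congr rfl fun a ha => ?_
  rw [av_finset_sum]
  have h2 : ∀ a' ∈ 𝒜, av (fun x : I → S => (b a * b a') * (E e a x * E e a' x)) =
      if a = a' then b a ^ 2 else 0 := by
    intro a' _
    rw [av_mul_left, E_orth h]
    split_ifs with hx
    · rw [hx]; ring
    · ring
  rw [Finset.sum_congr rfl h2, Finset.sum_ite_eq 𝒜 a, if_pos ha]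

theorem parseval {o : S} {e : S → S → ℝ} (h : IsBasis o e) (g : (I → S) → ℝ) :
    av (fun x => g x ^ 2) = ∑ a, coef e g a ^ 2 := by
  rw [← parseval_part h (coef e g) Finset.univ]
  exact av_congr fun x => by rw [← expand h g x]

end Pool.Agent.Lib.SDF
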