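import Pool.Agent.Lib.SDF.Base

/-!
Row B2a: the product basis: orthonormality, completeness, linearity of the coefficients.
-/

set_option autoImplicit false

namespace Pool.Agent.Lib.SDF

open Finset

variable {I S : Type*} [Fintype I] [DecidableEq I] [Fintype S] [DecidableEq S]

private theorem b2a_prod (f : I → S → ℝ) :
    ∑ x : I → S, ∏ i, f i (x i) = ∏ i, ∑ s, f i s := by
  rw [Finset.prod_univ_sum, Fintype.piFinset_univ]

private theorem b2a_ite (a b : I → S) :
    (∏ i, if a i = b i then (Fintype.card S : ℝ) else 0) =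
      if a = b then (Fintype.card (I → S) : ℝ) else 0 := by
  split_ifs with h
  · subst h
    simp
  · obtain ⟨i, hi⟩ := Function.ne_iff.mp h
    exact Finset.prod_eq_zero (Finset.mem_univ i) (if_neg hi)

/-- Orthonormality (`Finset.prod_univ_sum` / `Fintype.piFinset_univ`). -/
theorem E_orth {o : S} {e : S → S → ℝ} (h : IsBasis o e) (a b : I → S) :
    av (fun x : I → S => E e a x * E e b x) = if a = b then 1 else 0 := by
  have h1 : (∑ x : I → S, E e a x * E e b x) =
      if a = b then (Fintype.card (I → S) : ℝ) else 0 := by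
    rw [← b2a_ite a b]
    rw [Finset.prod_congr rfl fun i _ => (h.orth (a i) (b i)).symm,
      ← b2a_prod (fun i s => e (a i) s * e (b i) s)]
    refine Finset.sum_congr rfl fun x _ => ?_
    unfold E
    rw [← Finset.prod_mul_distrib]
  have h0 : (Fintype.card (I → S) : ℝ) ≠ 0 := by
    have : Nonempty (I → S) := ⟨a⟩
    exact_mod_cast Fintype.card_ne_zero
  unfold av
  rw [h1]
  split_ifs
  · exact div_self h0
  · exact zero_div _

/-- Completeness. -/
theorem E_compl {o : S} {e : S → S → ℝ} (h : IsBasis o e) (x x' : I → S) :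
    ∑ a : I → S, E e a x * E e a x' = if x = x' then (Fintype.card (I → S) : ℝ) else 0 := by
  rw [← b2a_ite x x', Finset.prod_congr rfl fun i _ => (h.compl (x i) (x' i)).symm,
    ← b2a_prod (fun i s => e s (x i) * e s (x' i))]
  refine Finset.sum_congr rfl fun a _ => ?_
  unfold E
  rw [← Finset.prod_mul_distrib]

/-- Coefficients are linear. -/
theorem coef_add (e : S → S → ℝ) (g g' : (I → S) → ℝ) (a : I → S) :
    coef e (g + g') a = coef e g a + coef e g' a := by
  unfold coef
  rw [← av_add]
  refine av_congr fun x => ?_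
  rw [Pi.add_apply, add_mul]

theorem coef_smul (e : S → S → ℝ) (c : ℝ) (g : (I → S) → ℝ) (a : I → S) :
    coef e (c • g) a = c * coef e g a := by
  unfold coef
  rw [← av_mul_left]
  refine av_congr fun x => ?_
  rw [Pi.smul_apply, smul_eq_mul, mul_assoc]

theorem coef_sum_mul {J : Type*} [Fintype J] (e : S → S → ℝ) (g : J → (I → S) → ℝ) (c : J → ℝ)
    (a : I → S) :
    coef e (fun x => ∑ l, g l x * c l) a = ∑ l, coef e (g l) a * c l := by
  unfold coef
  rw [Finset.sum_congr rfl fun l _ => (av_mul_right (c l) (fun x => g l x * E e a x)).symm,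
    ← av_finset_sum]
  refine av_congr fun x => ?_
  rw [Finset.sum_mul]
  refine Finset.sum_congr rfl fun l _ => ?_
  ring

end Pool.Agent.Lib.SDF
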