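import Pool.Agent.Lib.SDF.Base

/-!
Row W2: functions of low degree are combinations of characters of few coordinates.
-/

set_option autoImplicit false

namespace Pool.Agent.Lib.SDF

open Finset

private theorem W2_junta {κ S : Type*} [Fintype κ] [DecidableEq κ] [AddCommGroup S] [Fintype S]
    [DecidableEq S] {t : ℕ} {g : (κ → S) → ℝ} (hg : g ∈ degLE κ S t)
    (ψ : AddChar (κ → S) ℂ) (hψ : ¬ ∃ T : Finset κ, T.card ≤ t ∧
        ∀ z z' : κ → S, (∀ v ∈ T, z v = z' v) → ψ z = ψ z') :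
    ∑ z, (g z : ℂ) * (starRingEnd ℂ) (ψ z) = 0 := by
  induction hg using Submodule.span_induction with
  | mem g hg =>
    obtain ⟨Q, hQ, hg⟩ := hg
    have h1 : ¬ ∀ z z' : κ → S, (∀ v ∈ Q, z v = z' v) → ψ z = ψ z' := fun h => hψ ⟨Q, hQ, h⟩
    push Not at h1
    obtain ⟨z, z', hz, hne⟩ := h1
    have hδ : ψ (z - z') ≠ 1 := by
      intro h
      apply hne
      have := AddChar.map_add_eq_mul ψ (z - z') z'
      rwa [sub_add_cancel, h, one_mul] at this
    have h2 : ∑ x, (g x : ℂ) * (starRingEnd ℂ) (ψ x) =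
        (starRingEnd ℂ) (ψ (z - z')) * ∑ x, (g x : ℂ) * (starRingEnd ℂ) (ψ x) := by
      conv_lhs => rw [← Equiv.sum_comp (Equiv.addRight (z - z'))
        fun x => (g x : ℂ) * (starRingEnd ℂ) (ψ x)]
      rw [Finset.mul_sum]
      refine Finset.sum_congr rfl fun x _ => ?_
      have h3 : g (x + (z - z')) = g x := by
        apply hg
        intro i hi
        rw [Pi.add_apply, Pi.sub_apply, hz i hi, sub_self, add_zero]
      rw [Equiv.coe_addRight, h3, AddChar.map_add_eq_mul, map_mul]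
      ring
    have h4 : (1 - (starRingEnd ℂ) (ψ (z - z'))) * ∑ x, (g x : ℂ) * (starRingEnd ℂ) (ψ x) = 0 := by
      rw [sub_mul, one_mul, ← h2, sub_self]
    rcases mul_eq_zero.1 h4 with h | h
    · exfalso
      apply hδ
      have h5 : (starRingEnd ℂ) (ψ (z - z')) = 1 := (sub_eq_zero.1 h).symm
      have h6 := congrArg (starRingEnd ℂ) h5
      rwa [Complex.conj_conj, map_one] at h6
    · exact h
  | zero => simp
  | add f g _ _ hf hg =>
    have : ∀ z, (((f + g) z : ℝ) : ℂ) * (starRingEnd ℂ) (ψ z) =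
        (f z : ℂ) * (starRingEnd ℂ) (ψ z) + (g z : ℂ) * (starRingEnd ℂ) (ψ z) := by
      intro z
      rw [Pi.add_apply, Complex.ofReal_add, add_mul]
    rw [Finset.sum_congr rfl fun z _ => this z, Finset.sum_add_distrib, hf, hg, add_zero]
  | smul a f _ hf =>
    have : ∀ z, (((a • f) z : ℝ) : ℂ) * (starRingEnd ℂ) (ψ z) =
        (a : ℂ) * ((f z : ℂ) * (starRingEnd ℂ) (ψ z)) := by
      intro z
      rw [Pi.smul_apply, smul_eq_mul, Complex.ofReal_mul, mul_assoc]
    rw [Finset.sum_congr rfl fun z _ => this z, ← Finset.mul_sum, hf, mul_zero]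

/-- `c ψ = (∑ z, g z * conj (ψ z)) / card`, inversion by `AddChar.sum_apply_eq_ite`.  If `g` is a
function of the coordinates in `T` and `ψ` is not, there is `δ` vanishing on `T` with
`ψ δ ≠ 1`, and translation by `δ` gives `c ψ = conj (ψ δ) * c ψ`, so `c ψ = 0`.  General `g` by
linearity (`Submodule.span_induction` for the property that every `ψ` which is not a function of
at most `t` coordinates has `∑ z, g z * conj (ψ z) = 0`). -/
theorem lowdeg_expand {κ S : Type*} [Fintype κ] [DecidableEq κ] [AddCommGroup S] [Fintype S]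
    [DecidableEq S] {t : ℕ} {g : (κ → S) → ℝ} (hg : g ∈ degLE κ S t) :
    ∃ c : AddChar (κ → S) ℂ → ℂ, (∀ z, (g z : ℂ) = ∑ ψ, c ψ * ψ z) ∧
      ∀ ψ, c ψ ≠ 0 → ∃ T : Finset κ, T.card ≤ t ∧
        ∀ z z' : κ → S, (∀ v ∈ T, z v = z' v) → ψ z = ψ z' := by
  classical
  have hcard : (Fintype.card (κ → S) : ℂ) ≠ 0 := by
    exact_mod_cast Fintype.card_ne_zero
  refine ⟨fun ψ => (∑ z, (g z : ℂ) * (starRingEnd ℂ) (ψ z)) / Fintype.card (κ → S),
    fun z => ?_, fun ψ hψ => ?_⟩
  · have h1 : ∀ ψ : AddChar (κ → S) ℂ,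
        (∑ x, (g x : ℂ) * (starRingEnd ℂ) (ψ x)) / Fintype.card (κ → S) * ψ z =
        ∑ x, (g x : ℂ) / Fintype.card (κ → S) * ψ (z - x) := by
      intro ψ
      rw [Finset.sum_div, Finset.sum_mul]
      refine Finset.sum_congr rfl fun x _ => ?_
      rw [sub_eq_add_neg, AddChar.map_add_eq_mul, AddChar.map_neg_eq_conj]
      ring
    rw [Finset.sum_congr rfl fun ψ _ => h1 ψ, Finset.sum_comm]
    rw [Finset.sum_eq_single z]
    · rw [← Finset.mul_sum, sub_self, AddChar.sum_apply_eq_ite, if_pos rfl,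
        div_mul_cancel₀ _ hcard]
    · intro x _ hx
      rw [← Finset.mul_sum, AddChar.sum_apply_eq_ite, if_neg (sub_ne_zero.2 (Ne.symm hx)),
        mul_zero]
    · intro h
      exact absurd (Finset.mem_univ _) h
  · by_contra hcon
    apply hψ
    change (∑ z, (g z : ℂ) * (starRingEnd ℂ) (ψ z)) / _ = 0
    rw [W2_junta hg ψ hcon, zero_div]

end Pool.Agent.Lib.SDF
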