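import Mathlib

/-!
Row W1: a matrix of the type of an equivalence relation with phases is positive semidefinite.
-/

set_option autoImplicit false

namespace Pool.Agent.Lib.SDF

open Finset

open Classical in
private theorem W1_expand {Ψ : Type*} (s : Finset Ψ) (m : Ψ → Ψ → ℂ)
    (h1 : ∀ ψ ∈ s, m ψ ψ = 1)
    (h2 : ∀ ψ ∈ s, ∀ φ ∈ s, m φ ψ = (starRingEnd ℂ) (m ψ φ))
    (h3 : ∀ ψ ∈ s, ∀ φ ∈ s, ∀ χ ∈ s, m ψ φ ≠ 0 → m φ χ ≠ 0 → m ψ χ = m ψ φ * m φ χ)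
    (ψ : Ψ) (hψ : ψ ∈ s) (φ : Ψ) (hφ : φ ∈ s) :
    m ψ φ = ∑ χ ∈ s, m ψ χ * m χ φ / ((s.filter (fun t => m χ t ≠ 0)).card : ℂ) := by
  have hsymm : ∀ a ∈ s, ∀ b ∈ s, m a b ≠ 0 → m b a ≠ 0 := by
    intro a ha b hb h
    rw [h2 a ha b hb]
    simpa using h
  have hne : ((s.filter (fun t => m ψ t ≠ 0)).card : ℂ) ≠ 0 := by
    have : 0 < (s.filter (fun t => m ψ t ≠ 0)).card := by
      apply Finset.card_pos.2
      exact ⟨ψ, by simp [hψ, h1 ψ hψ]⟩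
    exact_mod_cast this.ne'
  have hterm : ∀ χ ∈ s, m ψ χ * m χ φ / ((s.filter (fun t => m χ t ≠ 0)).card : ℂ)
      = if m ψ χ ≠ 0 then m ψ φ / ((s.filter (fun t => m ψ t ≠ 0)).card : ℂ) else 0 := by
    intro χ hχ
    by_cases h : m ψ χ = 0
    · simp [h]
    · rw [if_pos h]
      have h' : m χ ψ ≠ 0 := hsymm ψ hψ χ hχ h
      have hcard : s.filter (fun t => m χ t ≠ 0) = s.filter (fun t => m ψ t ≠ 0) := by
        apply Finset.filter_congr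
        intro t ht
        constructor
        · intro hh
          rw [h3 ψ hψ χ hχ t ht h hh]
          exact mul_ne_zero h hh
        · intro hh
          rw [h3 χ hχ ψ hψ t ht h' hh]
          exact mul_ne_zero h' hh
      have hprod : m ψ χ * m χ φ = m ψ φ := by
        by_cases h0 : m χ φ = 0
        · have : m ψ φ = 0 := by
            by_contra hh
            apply (mul_ne_zero h' hh)
            rw [← h3 χ hχ ψ hψ φ hφ h' hh]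
            exact h0
          rw [h0, this, mul_zero]
        · exact (h3 ψ hψ χ hχ φ hφ h h0).symm
      rw [hprod, hcard]
  rw [Finset.sum_congr rfl hterm, ← Finset.sum_filter, Finset.sum_const, nsmul_eq_mul]
  field_simp

/-- Let `C χ = {φ ∈ s | m χ φ ≠ 0}`.  Then `m ψ φ = ∑ χ ∈ s, m ψ χ * m χ φ / card (C χ)` for
`ψ, φ ∈ s` (the classes of `ψ` and of `χ` agree if `m ψ χ ≠ 0`), so the sum is
`∑ χ ∈ s, |∑ ψ ∈ s, c ψ * m ψ χ| ^ 2 / card (C χ)`. -/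
theorem psd_of_classes {Ψ : Type*} (s : Finset Ψ) (m : Ψ → Ψ → ℂ)
    (h1 : ∀ ψ ∈ s, m ψ ψ = 1)
    (h2 : ∀ ψ ∈ s, ∀ φ ∈ s, m φ ψ = (starRingEnd ℂ) (m ψ φ))
    (h3 : ∀ ψ ∈ s, ∀ φ ∈ s, ∀ χ ∈ s, m ψ φ ≠ 0 → m φ χ ≠ 0 → m ψ χ = m ψ φ * m φ χ)
    (c : Ψ → ℂ) :
    0 ≤ (∑ ψ ∈ s, ∑ φ ∈ s, c ψ * (starRingEnd ℂ) (c φ) * m ψ φ).re := by
  classical
  have key : ∑ ψ ∈ s, ∑ φ ∈ s, c ψ * (starRingEnd ℂ) (c φ) * m ψ φ
      = ∑ χ ∈ s, (((Complex.normSq (∑ ψ ∈ s, c ψ * m ψ χ))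
          / ((s.filter (fun t => m χ t ≠ 0)).card : ℝ) : ℝ) : ℂ) := by
    have e1 : ∀ ψ ∈ s, ∑ φ ∈ s, c ψ * (starRingEnd ℂ) (c φ) * m ψ φ
        = ∑ φ ∈ s, ∑ χ ∈ s, (c ψ * m ψ χ) * (starRingEnd ℂ) (c φ * m φ χ)
            / ((s.filter (fun t => m χ t ≠ 0)).card : ℂ) := by
      intro ψ hψ
      apply Finset.sum_congr rfl
      intro φ hφ
      rw [W1_expand s m h1 h2 h3 ψ hψ φ hφ, Finset.mul_sum]
      apply Finset.sum_congr rfl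
      intro χ hχ
      rw [map_mul, ← h2 φ hφ χ hχ]
      ring
    rw [Finset.sum_congr rfl e1]
    have e2 : ∑ ψ ∈ s, ∑ φ ∈ s, ∑ χ ∈ s, (c ψ * m ψ χ) * (starRingEnd ℂ) (c φ * m φ χ)
            / ((s.filter (fun t => m χ t ≠ 0)).card : ℂ)
        = ∑ χ ∈ s, ∑ ψ ∈ s, ∑ φ ∈ s, (c ψ * m ψ χ) * (starRingEnd ℂ) (c φ * m φ χ)
            / ((s.filter (fun t => m χ t ≠ 0)).card : ℂ) := by
      have : ∀ ψ ∈ s, ∑ φ ∈ s, ∑ χ ∈ s, (c ψ * m ψ χ) * (starRingEnd ℂ) (c φ * m φ χ)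
            / ((s.filter (fun t => m χ t ≠ 0)).card : ℂ)
          = ∑ χ ∈ s, ∑ φ ∈ s, (c ψ * m ψ χ) * (starRingEnd ℂ) (c φ * m φ χ)
            / ((s.filter (fun t => m χ t ≠ 0)).card : ℂ) := fun ψ _ => Finset.sum_comm
      rw [Finset.sum_congr rfl this, Finset.sum_comm]
    rw [e2]
    apply Finset.sum_congr rfl
    intro χ _
    have e3 : ∑ ψ ∈ s, ∑ φ ∈ s, (c ψ * m ψ χ) * (starRingEnd ℂ) (c φ * m φ χ)
            / ((s.filter (fun t => m χ t ≠ 0)).card : ℂ)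
        = (∑ ψ ∈ s, c ψ * m ψ χ) * (starRingEnd ℂ) (∑ φ ∈ s, c φ * m φ χ)
            / ((s.filter (fun t => m χ t ≠ 0)).card : ℂ) := by
      rw [map_sum, Finset.sum_mul_sum, Finset.sum_div]
      apply Finset.sum_congr rfl
      intro ψ _
      rw [Finset.sum_div]
    rw [e3, Complex.mul_conj]
    push_cast
    rfl
  rw [key, ← Complex.ofReal_sum, Complex.ofReal_re]
  exact Finset.sum_nonneg (fun χ _ => div_nonneg (Complex.normSq_nonneg _) (Nat.cast_nonneg _))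

end Pool.Agent.Lib.SDF
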