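import Pool.Agent.Lib.SDF.HighProb

/-!
Rows C3, C5: a low degree function has little mass outside the low part for a random pointer.
-/

set_option autoImplicit false

namespace Pool.Agent.Lib.SDF

open Finset

variable {κ α S ι : Type*} [Fintype κ] [DecidableEq κ] [Fintype α] [DecidableEq α] [Fintype S]
  [DecidableEq S] [Fintype ι] [DecidableEq ι]

private theorem C5_prob [Nonempty α] (o : S) (t D : ℕ) (a : κ × α → S)
    (hD : (supp o a).card ≤ D) :
    ((Finset.univ.filter fun y : κ → α => a ∉ lowSet o t y).card : ℝ) / Fintype.card (κ → α)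
      ≤ ((D : ℝ) / Fintype.card α) ^ (t + 1) := by
  have hα : (0 : ℝ) < Fintype.card α := by exact_mod_cast Fintype.card_pos
  have hκ : (0 : ℝ) < Fintype.card (κ → α) := by exact_mod_cast Fintype.card_pos
  have h1 := high_prob o t a
  have h2 : ((supp o a).card : ℝ) ^ (t + 1) ≤ (D : ℝ) ^ (t + 1) := by
    apply pow_le_pow_left₀ (Nat.cast_nonneg _)
    exact_mod_cast hD
  rw [div_pow, div_le_div_iff₀ hκ (by positivity)]
  exact h1.trans (mul_le_mul_of_nonneg_right h2 hκ.le)

omit [DecidableEq α] in
private theorem C5_av (c : ℝ) (p : (κ → α) → Prop) [DecidablePred p] :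
    av (fun y : κ → α => if p y then c else 0)
      = c * (((Finset.univ.filter fun y : κ → α => p y).card : ℝ) / Fintype.card (κ → α)) := by
  unfold av
  rw [← Finset.sum_filter, Finset.sum_const, nsmul_eq_mul]
  ring

/-- Row C5.  Exchange the sums, `high_prob`, `coef_eq_zero`, `parseval`, and
`tr (H x * H x) = ∑ i j, H x i j ^ 2`. -/
theorem high_mass [Nonempty α] {o : S} {e : S → S → ℝ} (h : IsBasis o e) (t D : ℕ)
    (H : (κ × α → S) → Matrix ι ι ℝ) (hH : ∀ x, (H x).transpose = H x)
    (hdeg : ∀ i j, (fun x => H x i j) ∈ degLE (κ × α) S D) :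
    av (fun y : κ → α => highMass o e t H y)
      ≤ ((D : ℝ) / Fintype.card α) ^ (t + 1) * av (fun x => (H x * H x).trace) := by
  have h1 : av (fun y : κ → α => highMass o e t H y)
      = ∑ i, ∑ j, ∑ a, coef e (fun x => H x i j) a ^ 2
        * (((Finset.univ.filter fun y : κ → α => a ∉ lowSet o t y).card : ℝ)
          / Fintype.card (κ → α)) := by
    have h2 : (fun y : κ → α => highMass o e t H y) = fun y => ∑ i, ∑ j, ∑ a,
        if a ∉ lowSet o t y then coef e (fun x => H x i j) a ^ 2 else 0 := by
      funext y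
      unfold highMass
      refine Finset.sum_congr rfl fun i _ => Finset.sum_congr rfl fun j _ => ?_
      rw [← Finset.sum_filter]
      refine Finset.sum_congr ?_ fun _ _ => rfl
      ext a
      simp
    rw [h2, av_finset_sum]
    refine Finset.sum_congr rfl fun i _ => ?_
    rw [av_finset_sum]
    refine Finset.sum_congr rfl fun j _ => ?_
    rw [av_finset_sum]
    refine Finset.sum_congr rfl fun a _ => ?_
    exact C5_av _ _
  have h3 : av (fun x => (H x * H x).trace)
      = ∑ i, ∑ j, ∑ a, coef e (fun x => H x i j) a ^ 2 := by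
    have h4 : (fun x => (H x * H x).trace) = fun x => ∑ i, ∑ j, H x i j ^ 2 := by
      funext x
      rw [Matrix.trace]
      refine Finset.sum_congr rfl fun i _ => ?_
      rw [Matrix.diag_apply, Matrix.mul_apply]
      refine Finset.sum_congr rfl fun j _ => ?_
      have h5 : H x j i = H x i j := by
        have := congrFun (congrFun (hH x) i) j
        rwa [Matrix.transpose_apply] at this
      rw [h5]
      ring
    rw [h4, av_finset_sum]
    refine Finset.sum_congr rfl fun i _ => ?_
    rw [av_finset_sum]
    refine Finset.sum_congr rfl fun j _ => ?_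
    exact parseval h (fun x => H x i j)
  rw [h1, h3, Finset.mul_sum]
  refine Finset.sum_le_sum fun i _ => ?_
  rw [Finset.mul_sum]
  refine Finset.sum_le_sum fun j _ => ?_
  rw [Finset.mul_sum]
  refine Finset.sum_le_sum fun a _ => ?_
  by_cases hD : D < (supp o a).card
  · rw [coef_eq_zero h (hdeg i j) a hD]
    simp
  · rw [mul_comm (((D : ℝ) / Fintype.card α) ^ (t + 1))]
    exact mul_le_mul_of_nonneg_left (C5_prob o t D a (not_lt.mp hD)) (sq_nonneg _)

end Pool.Agent.Lib.SDF
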