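import Pool.Agent.Lib.SDF.Base

/-!
Row N1: normalisation of a positive semidefinite factorisation.
-/

set_option autoImplicit false

namespace Pool.Agent.Lib.SDF

open Finset

open scoped MatrixOrder in
private lemma n1_factor {ι : Type*} [Fintype ι] [DecidableEq ι] (S : Matrix ι ι ℝ)
    (hS : S.PosDef) : ∃ C : Matrix ι ι ℝ, IsUnit C ∧ S = C.conjTranspose * C := by
  obtain ⟨C, hC⟩ : ∃ C : Matrix ι ι ℝ, S = C.conjTranspose * C :=
    CStarAlgebra.nonneg_iff_eq_star_mul_self.mp hS.posSemidef.nonneg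
  refine ⟨C, ?_, hC⟩
  have h1 : IsUnit S.det := (Matrix.isUnit_iff_isUnit_det _).mp hS.isUnit
  rw [hC, Matrix.det_mul] at h1
  exact (Matrix.isUnit_iff_isUnit_det _).mpr (isUnit_of_mul_isUnit_right h1)

/-- Add a small multiple of the identity to every `B y` (`X` is finite, so the error
`δ * tr (A x)` is at most `η`); then `∑ y, B y` is positive definite, `∑ y, B y = Cᵀ * C` with
`C` invertible, and `B' y = (card Y / card ι) • (C⁻¹)ᵀ * B y * C⁻¹`,
`A' x = (card ι / card Y) • C * A x * Cᵀ`. -/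
theorem normalise {X Y ι : Type*} [Fintype X] [Fintype Y] [Nonempty Y] [Fintype ι]
    [DecidableEq ι] [Nonempty ι] (A : X → Matrix ι ι ℝ) (B : Y → Matrix ι ι ℝ)
    (hA : ∀ x, (A x).PosSemidef) (hB : ∀ y, (B y).PosSemidef) (η : ℝ) (hη : 0 < η) :
    ∃ (A' : X → Matrix ι ι ℝ) (B' : Y → Matrix ι ι ℝ),
      (∀ x, (A' x).PosSemidef) ∧ (∀ y, (B' y).PosSemidef) ∧
      (∑ y, B' y = ((Fintype.card Y : ℝ) / Fintype.card ι) • (1 : Matrix ι ι ℝ)) ∧
      ∀ x y, |(A' x * B' y).trace - (A x * B y).trace| ≤ η := by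
  classical
  have htr : ∀ x, 0 ≤ (A x).trace := fun x => (hA x).trace_nonneg
  have hden : 0 < 1 + ∑ x, (A x).trace := by
    have := Finset.sum_nonneg (fun x (_ : x ∈ (Finset.univ : Finset X)) => htr x)
    linarith
  set δ : ℝ := η / (1 + ∑ x, (A x).trace) with hδdef
  have hδ : 0 < δ := div_pos hη hden
  have hδx : ∀ x, δ * (A x).trace ≤ η := by
    intro x
    have h1 : (A x).trace ≤ 1 + ∑ x, (A x).trace := by
      have := Finset.single_le_sum (fun x (_ : x ∈ (Finset.univ : Finset X)) => htr x)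
        (Finset.mem_univ x)
      linarith
    calc δ * (A x).trace ≤ δ * (1 + ∑ x, (A x).trace) := by
          exact mul_le_mul_of_nonneg_left h1 hδ.le
      _ = η := by rw [hδdef]; field_simp
  have hm : (0 : ℝ) < Fintype.card Y := by exact_mod_cast Fintype.card_pos
  have hn : (0 : ℝ) < Fintype.card ι := by exact_mod_cast Fintype.card_pos
  have hB1 : ∀ y, (B y + δ • (1 : Matrix ι ι ℝ)).PosDef := fun y =>
    Matrix.PosDef.posSemidef_add (hB y) (Matrix.PosDef.one.smul hδ)
  have hS : (∑ y, (B y + δ • (1 : Matrix ι ι ℝ))).PosDef :=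
    Matrix.posDef_sum Finset.univ_nonempty (fun y _ => hB1 y)
  obtain ⟨C, hCu, hC⟩ := n1_factor _ hS
  have hCdet : IsUnit C.det := (Matrix.isUnit_iff_isUnit_det _).mp hCu
  have hc1 : C * C⁻¹ = 1 := Matrix.mul_nonsing_inv C hCdet
  have hc2 : C⁻¹ * C = 1 := Matrix.nonsing_inv_mul C hCdet
  have hc3 : C.conjTranspose * (C⁻¹).conjTranspose = 1 := by
    rw [← Matrix.conjTranspose_mul, hc2, Matrix.conjTranspose_one]
  have hc4 : (C⁻¹).conjTranspose * C.conjTranspose = 1 := by
    rw [← Matrix.conjTranspose_mul, hc1, Matrix.conjTranspose_one]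
  refine ⟨fun x => ((Fintype.card ι : ℝ) / Fintype.card Y) • (C * A x * C.conjTranspose),
    fun y => ((Fintype.card Y : ℝ) / Fintype.card ι) •
      ((C⁻¹).conjTranspose * (B y + δ • (1 : Matrix ι ι ℝ)) * C⁻¹), ?_, ?_, ?_, ?_⟩
  · intro x
    exact ((hA x).mul_mul_conjTranspose_same C).smul (div_nonneg hn.le hm.le)
  · intro y
    exact ((hB1 y).posSemidef.conjTranspose_mul_mul_same C⁻¹).smul (div_nonneg hm.le hn.le)
  · rw [← Finset.smul_sum, ← Finset.sum_mul, ← Finset.mul_sum, hC]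
    congr 1
    calc (C⁻¹).conjTranspose * (C.conjTranspose * C) * C⁻¹
        = ((C⁻¹).conjTranspose * C.conjTranspose) * (C * C⁻¹) := by
          simp only [Matrix.mul_assoc]
      _ = 1 := by rw [hc1, hc4, Matrix.one_mul]
  · intro x y
    have e1 : (((Fintype.card ι : ℝ) / Fintype.card Y) • (C * A x * C.conjTranspose) *
        (((Fintype.card Y : ℝ) / Fintype.card ι) •
          ((C⁻¹).conjTranspose * (B y + δ • (1 : Matrix ι ι ℝ)) * C⁻¹))).trace =
        (A x * (B y + δ • (1 : Matrix ι ι ℝ))).trace := by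
      rw [Matrix.smul_mul, Matrix.mul_smul, smul_smul]
      have h1 : (Fintype.card ι : ℝ) / Fintype.card Y * ((Fintype.card Y : ℝ) / Fintype.card ι)
          = 1 := by field_simp
      rw [h1, one_smul]
      have h2 : C * A x * C.conjTranspose * ((C⁻¹).conjTranspose *
          (B y + δ • (1 : Matrix ι ι ℝ)) * C⁻¹) =
          C * (A x * (B y + δ • (1 : Matrix ι ι ℝ))) * C⁻¹ := by
        calc C * A x * C.conjTranspose * ((C⁻¹).conjTranspose *
            (B y + δ • (1 : Matrix ι ι ℝ)) * C⁻¹)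
            = C * A x * (C.conjTranspose * (C⁻¹).conjTranspose) *
              (B y + δ • (1 : Matrix ι ι ℝ)) * C⁻¹ := by
              simp only [Matrix.mul_assoc]
          _ = _ := by rw [hc3, Matrix.mul_one]; simp only [Matrix.mul_assoc]
      rw [h2, Matrix.trace_mul_comm, ← Matrix.mul_assoc, hc2, Matrix.one_mul]
    have e2 : (A x * (B y + δ • (1 : Matrix ι ι ℝ))).trace =
        (A x * B y).trace + δ * (A x).trace := by
      rw [Matrix.mul_add, Matrix.trace_add, Matrix.mul_smul, Matrix.mul_one, Matrix.trace_smul,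
        smul_eq_mul]
    show |_ - _| ≤ η
    rw [e1, e2, add_sub_cancel_left, abs_of_nonneg (mul_nonneg hδ.le (htr x))]
    exact hδx x

end Pool.Agent.Lib.SDF
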