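import Pool.Agent.Lib.SDF.PowerB

/-!
Row P3: a power of the test matrix which puts most of its weight above the mean.
-/

set_option autoImplicit false

namespace Pool.Agent.Lib.SDF

open Finset

private theorem P3_sum {X ι : Type*} [Fintype X] [Fintype ι] (f : X → ι → ℝ) :
    ∑ i : X × ι, (1 / (Fintype.card X : ℝ)) * f i.1 i.2 = av (fun x => ∑ j, f x j) := by
  rw [← Finset.mul_sum, Fintype.sum_prod_type]
  unfold av
  ring

/-- Row P3: `scalar_power` for `I = X × ι` and `p = 1 / card X`. -/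
theorem power_step {X ι : Type*} [Fintype X] [Nonempty X] [Fintype ι] [DecidableEq ι]
    (P τ : X → Matrix ι ι ℝ) (c e2 F m0 : ℝ)
    (hc : 0 < c) (he2 : 0 < e2) (he2c : e2 ≤ c) (hF : 0 < F) (hm0 : 0 < m0)
    (hP : ∀ x, (P x).PosSemidef) (hP2 : ∀ x, ((2 * c) • (1 : Matrix ι ι ℝ) - P x).PosSemidef)
    (hτ : ∀ x, (τ x).PosSemidef) (hτF : ∀ x, (τ x).trace ≤ F)
    (hm : m0 ≤ av (fun x => (τ x).trace))
    (hmean : (c + e2) * av (fun x => (τ x).trace) ≤ av (fun x => (τ x * P x).trace)) (s : ℕ)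
    (hs : 32 * c ^ 2 * F * Fintype.card ι / (e2 ^ 2 * m0) < (1 + e2 / (8 * c)) ^ (2 * s)) :
    (c + e2 / 2) * av (fun x => (P x ^ (2 * s)).trace)
      < av (fun x => (P x ^ (2 * s + 1)).trace) := by
  choose lam w h1 h2 h3 h4 h5 h6 using fun x => spectral_data (P x) (τ x) c (hP x) (hP2 x) (hτ x)
  have hw : av (fun x => ∑ j, w x j) = av (fun x => (τ x).trace) := av_congr fun x => h4 x
  have hwl : av (fun x => ∑ j, w x j * lam x j) = av (fun x => (τ x * P x).trace) :=
    av_congr fun x => h5 x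
  have hpow : ∀ m : ℕ, av (fun x => (P x ^ m).trace) = av (fun x => ∑ j, lam x j ^ m) :=
    fun m => av_congr fun x => h6 x m
  have hcard : (0 : ℝ) ≤ 1 / (Fintype.card X : ℝ) := by positivity
  have hX : (Fintype.card X : ℝ) ≠ 0 := by exact_mod_cast Fintype.card_ne_zero
  have key := scalar_power (I := X × ι) (fun _ => 1 / (Fintype.card X : ℝ)) (fun i => w i.1 i.2)
    (fun i => lam i.1 i.2) c e2 F m0 (Fintype.card ι : ℝ) hc he2 he2c hF hm0
    (fun _ => hcard) (fun i => h3 i.1 i.2)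
    (fun i => by
      refine le_trans ?_ (hτF i.1)
      rw [← h4 i.1]
      exact Finset.single_le_sum (f := fun j => w i.1 j) (fun j _ => h3 i.1 j)
        (Finset.mem_univ i.2))
    (fun i => h1 i.1 i.2) (fun i => h2 i.1 i.2)
    (by
      rw [Finset.sum_const, Finset.card_univ, Fintype.card_prod, nsmul_eq_mul, Nat.cast_mul]
      apply le_of_eq
      field_simp)
    (by rw [P3_sum (fun x j => w x j), hw]; exact hm)
    (by
      rw [P3_sum (fun x j => w x j), P3_sum (fun x j => w x j * lam x j), hw, hwl]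
      exact hmean) s hs
  rw [P3_sum (fun x j => lam x j ^ (2 * s)), P3_sum (fun x j => lam x j ^ (2 * s + 1))] at key
  rw [hpow, hpow]
  exact key

end Pool.Agent.Lib.SDF
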