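import Pool.Agent.Lib.SDF.TestMatA

/-!
Rows T1, T2, T3: the test matrix of a row.
-/

set_option autoImplicit false

namespace Pool.Agent.Lib.SDF

open Finset

variable {κ α S ι : Type*} [Fintype κ] [DecidableEq κ] [Fintype α] [DecidableEq α] [Fintype S]
  [DecidableEq S] [Fintype ι] [DecidableEq ι]

/-- Row T1.  Each entry is a sum of functions of the `card κ` coordinates `(v, y v)`. -/
theorem Tmat_deg (W : (κ → S) → ℝ) (B : (κ → α) → Matrix ι ι ℝ) (i j : ι) :
    (fun x : κ × α → S => Tmat W B x i j) ∈ degLE (κ × α) S (Fintype.card κ) := by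
  classical
  have hfun : (fun x : κ × α → S => Tmat W B x i j)
      = ∑ y : κ → α, (fun x : κ × α → S => (-((Fintype.card ι : ℝ) / Fintype.card (κ → α))
        * (if (B y).trace ≤ 4 then W (fun v => x (v, y v)) else 0)) * B y i j) := by
    funext x
    rw [Finset.sum_apply]
    unfold Tmat
    rw [Matrix.sum_apply]
    refine Finset.sum_congr rfl fun y _ => ?_
    rw [Matrix.smul_apply, smul_eq_mul]
  rw [hfun]
  refine Submodule.sum_mem _ fun y _ => Submodule.subset_span ?_
  refine ⟨Finset.univ.image (fun v => (v, y v)), ?_, ?_⟩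
  · exact Finset.card_image_le.trans (le_of_eq Finset.card_univ)
  · intro x x' h
    have hx : (fun v => x (v, y v)) = (fun v => x' (v, y v)) := by
      funext v
      exact h _ (Finset.mem_image.2 ⟨v, Finset.mem_univ _, rfl⟩)
    simp only [hx]

private theorem T1_smul_psd {A : Matrix ι ι ℝ} (hA : A.PosSemidef) {a : ℝ} (ha : 0 ≤ a) :
    (a • A).PosSemidef := hA.smul ha

private theorem T1_sum_psd {Y : Type*} (s : Finset Y) (F : Y → Matrix ι ι ℝ)
    (h : ∀ y ∈ s, (F y).PosSemidef) : (∑ y ∈ s, F y).PosSemidef :=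
  Matrix.posSemidef_sum s h

/-- Row T2.  `c • 1 = ∑ y, (card ι / card Y * c) • B y`, so both matrices are nonnegative
combinations of the `B y`. -/
theorem Tmat_bounds (W : (κ → S) → ℝ) (c : ℝ) (hWc : ∀ z, |W z| ≤ c)
    (B : (κ → α) → Matrix ι ι ℝ) (hB : ∀ y, (B y).PosSemidef) [Nonempty α] [Nonempty ι]
    (hBs : ∑ y, B y = ((Fintype.card (κ → α) : ℝ) / Fintype.card ι) • (1 : Matrix ι ι ℝ))
    (x : κ × α → S) :
    (Tmat W B x + c • (1 : Matrix ι ι ℝ)).PosSemidef ∧
    ((2 * c) • (1 : Matrix ι ι ℝ) - (Tmat W B x + c • (1 : Matrix ι ι ℝ))).PosSemidef := by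
  classical
  set q : ℝ := (Fintype.card ι : ℝ) / Fintype.card (κ → α) with hq
  have hι : (Fintype.card ι : ℝ) ≠ 0 := by exact_mod_cast Fintype.card_ne_zero
  have hY : (Fintype.card (κ → α) : ℝ) ≠ 0 := by exact_mod_cast Fintype.card_ne_zero
  have hq0 : 0 ≤ q := by positivity
  have hc1 : c • (1 : Matrix ι ι ℝ) = ∑ y, (q * c) • B y := by
    rw [← Finset.smul_sum, hBs, smul_smul]
    congr 1
    rw [hq]; field_simp
  have key : ∀ y : κ → α, |q * (if (B y).trace ≤ 4 then W (fun v => x (v, y v)) else 0)|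
      ≤ q * c := by
    intro y
    rw [abs_mul, abs_of_nonneg hq0]
    refine mul_le_mul_of_nonneg_left ?_ hq0
    split_ifs
    · exact hWc _
    · rw [abs_zero]
      exact (abs_nonneg _).trans (hWc (fun v => x (v, y v)))
  have hT : Tmat W B x = ∑ y : κ → α,
      (-q * (if (B y).trace ≤ 4 then W (fun v => x (v, y v)) else 0)) • B y := rfl
  constructor
  · rw [hT, hc1, ← Finset.sum_add_distrib]
    refine T1_sum_psd _ _ fun y _ => ?_
    rw [← add_smul]
    refine T1_smul_psd (hB y) ?_
    have := (abs_le.1 (key y)).2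
    linarith
  · have h2 : (2 * c) • (1 : Matrix ι ι ℝ) - (Tmat W B x + c • (1 : Matrix ι ι ℝ))
        = c • (1 : Matrix ι ι ℝ) - Tmat W B x := by
      rw [two_mul, add_smul]; abel
    rw [h2, hT, hc1, ← Finset.sum_sub_distrib]
    refine T1_sum_psd _ _ fun y _ => ?_
    rw [← sub_smul]
    refine T1_smul_psd (hB y) ?_
    have := (abs_le.1 (key y)).1
    linarith

open Classical in
/-- Row T3.  The average of `tr (M x * T x)`. -/
theorem av_trace_Tmat (W : (κ → S) → ℝ) (B : (κ → α) → Matrix ι ι ℝ)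
    (M : (κ × α → S) → Matrix ι ι ℝ) :
    av (fun x : κ × α → S => (M x * Tmat W B x).trace)
      = - ((Fintype.card ι : ℝ) * av (fun y : κ → α => if (B y).trace ≤ 4 then
          av (fun x : κ × α → S => W (fun v => x (v, y v)) * (M x * B y).trace) else 0)) := by
  have h1 : ∀ x : κ × α → S, (M x * Tmat W B x).trace
      = ∑ y : κ → α, (-((Fintype.card ι : ℝ) / Fintype.card (κ → α))
        * (if (B y).trace ≤ 4 then W (fun v => x (v, y v)) else 0)) * (M x * B y).trace := by
    intro x
    unfold Tmat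
    rw [Matrix.mul_sum, Matrix.trace_sum]
    refine Finset.sum_congr rfl fun y _ => ?_
    rw [Matrix.mul_smul, Matrix.trace_smul, smul_eq_mul]
  have h2 : av (fun x : κ × α → S => (M x * Tmat W B x).trace)
      = ∑ y : κ → α, (-((Fintype.card ι : ℝ) / Fintype.card (κ → α))) *
        (if (B y).trace ≤ 4 then
          av (fun x : κ × α → S => W (fun v => x (v, y v)) * (M x * B y).trace) else 0) := by
    rw [av_congr h1, av_finset_sum]
    refine Finset.sum_congr rfl fun y _ => ?_
    by_cases hy : (B y).trace ≤ 4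
    · simp only [if_pos hy]
      rw [← av_mul_left]
      exact av_congr fun x => by ring
    · simp only [if_neg hy, mul_zero, zero_mul, av_zero]
  rw [h2, ← Finset.mul_sum]
  unfold av
  ring

end Pool.Agent.Lib.SDF
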