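import Pool.Agent.Lib.SDF.MatForm
import Pool.Agent.Lib.SDF.HighMass
import Pool.Agent.Lib.SDF.Power
import Pool.Agent.Lib.SDF.Norm
import Pool.Agent.Lib.SDF.TestMat
import Pool.Agent.Lib.SDF.BasisEx

/-!
The core inequality for positive semidefinite factorisations of a pattern matrix.
-/

set_option autoImplicit false

namespace Pool.Agent.Lib.SDF

open Finset

variable {κ α S ι : Type*} [Fintype κ] [DecidableEq κ] [Fintype α] [DecidableEq α] [Fintype S]
  [DecidableEq S] [Nonempty S] [Fintype ι] [DecidableEq ι]

theorem core (W : (κ → S) → ℝ) (M : (κ × α → S) → (κ → α) → ℝ) (c F ε : ℝ) (t : ℕ) (hc : 1 ≤ c) (hF : 0 ≤ F) (hε : 0 < ε)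
    (hε1 : ε ≤ 1) (hWc : ∀ z, |W z| ≤ c)
    (hW : ∀ g ∈ degLE κ S t, 0 ≤ ∑ z, W z * g z ^ 2) (hMF : ∀ x y, M x y ≤ F)
    (hWM : ∀ y, av (fun x => W (fun v => x (v, y v)) * M x y) ≤ -ε) [Nonempty α] [Nonempty ι]
    (A0 : (κ × α → S) → Matrix ι ι ℝ) (B0 : (κ → α) → Matrix ι ι ℝ)
    (hA0 : ∀ x, (A0 x).PosSemidef) (hB0 : ∀ y, (B0 y).PosSemidef)
    (hM0 : ∀ x y, (A0 x * B0 y).trace = M x y) (s : ℕ)
    (hs : 256 * c ^ 3 * (F + 1) ^ 3 / ε ^ 3 * Fintype.card ι
      < (1 + ε / (16 * c * (F + 1))) ^ (2 * s)) :
    ε ^ 2 / (320 * c ^ 2 * (F + 1) ^ 2)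
      < Fintype.card ι * ((Fintype.card κ * s : ℝ) / Fintype.card α) ^ (t + 1) := by
  classical
  obtain ⟨o⟩ := (inferInstance : Nonempty S)
  obtain ⟨e, he⟩ := exists_basis o
  have hc0 : 0 < c := by linarith
  have hF1 : 0 < F + 1 := by linarith
  obtain ⟨A, B, hA, hB, hBs, hAB⟩ := normalise A0 B0 hA0 hB0 (ε / (4 * c)) (by positivity)
  set r : ℝ := (Fintype.card ι : ℝ) with hr
  have hr0 : 0 < r := by rw [hr]; exact_mod_cast Fintype.card_pos
  have hM : ∀ x y, |(A x * B y).trace - M x y| ≤ ε / (4 * c) := by
    intro x y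
    rw [← hM0 x y]
    exact hAB x y
  have hM0' : ∀ x y, 0 ≤ (A x * B y).trace := by
    intro x y
    exact trace_mul_nonneg (hA x) (hB y)
  have hεc : ε / (4 * c) ≤ 1 := by
    rw [div_le_one (by positivity)]; linarith
  have hM1 : ∀ x y, (A x * B y).trace ≤ F + 1 := by
    intro x y
    have := (abs_le.1 (hM x y)).2
    linarith [hMF x y]
  -- the state
  set τ : (κ × α → S) → Matrix ι ι ℝ := fun x => r⁻¹ • A x with hτdef
  have hτ : ∀ x, (τ x).PosSemidef := fun x => (hA x).smul (by positivity)
  have hτtr : ∀ x, (τ x).trace = av (fun y : κ → α => (A x * B y).trace) := by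
    intro x
    rw [hτdef]
    simp only [Matrix.trace_smul, smul_eq_mul]
    rw [← av_trace_mul B hBs (A x), ← mul_assoc, inv_mul_cancel₀ hr0.ne', one_mul]
  have hτF : ∀ x, (τ x).trace ≤ F + 1 := by
    intro x
    rw [hτtr, ← av_const (X := κ → α) (F + 1)]
    exact av_mono (hM1 x)
  set T : (κ × α → S) → Matrix ι ι ℝ := Tmat W B with hT
  -- the value of the test
  have hform : av (fun x => (τ x * T x).trace)
        = - av (fun y : κ → α => if (B y).trace ≤ 4 then
          av (fun x : κ × α → S => W (fun v => x (v, y v)) * (A x * B y).trace) else 0) := by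
    rw [hT, av_trace_Tmat, ← hr, ← av_mul_left]
    congr 1
    refine av_congr fun y => ?_
    split_ifs
    · rw [← av_mul_left]
      refine av_congr fun x => ?_
      simp only [hτdef, Matrix.smul_mul, Matrix.trace_smul, smul_eq_mul]
      field_simp
    · simp
  have hval : ε / 2 ≤ av (fun x => (τ x * T x).trace) := by
    have h2 : ∀ y : κ → α, (if (B y).trace ≤ 4 then
          av (fun x : κ × α → S => W (fun v => x (v, y v)) * (A x * B y).trace) else 0)
          ≤ -ε * (if (B y).trace ≤ 4 then (1 : ℝ) else 0) + ε / 4 := by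
      intro y
      split_ifs
      · have h3 : av (fun x : κ × α → S => W (fun v => x (v, y v)) * (A x * B y).trace)
            ≤ av (fun x : κ × α → S => W (fun v => x (v, y v)) * M x y + ε / 4) := by
          refine av_mono fun x => ?_
          have h4 := hM x y
          have h5 : W (fun v => x (v, y v)) * ((A x * B y).trace - M x y)
              ≤ c * (ε / (4 * c)) := by
            refine (le_abs_self _).trans ?_
            rw [abs_mul]
            exact mul_le_mul (hWc _) h4 (abs_nonneg _) hc0.le
          have h6 : c * (ε / (4 * c)) = ε / 4 := by field_simp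
          rw [h6] at h5
          linarith
        rw [av_add, av_const] at h3
        have h7 := hWM y
        linarith
      · rw [mul_zero]; linarith
    have h3 := av_mono h2
    rw [av_add, av_const, av_mul_left] at h3
    have h4 := av_good B hB hBs
    rw [hform]
    nlinarith
  have hmle : av (fun x => (τ x * T x).trace) ≤ c * av (fun x => (τ x).trace) := by
    have h1 : av (fun x => (τ x).trace)
        = av (fun y : κ → α => av (fun x : κ × α → S => (A x * B y).trace)) := by
      rw [← av_comm]
      exact av_congr hτtr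
    rw [hform, h1, ← av_neg, ← av_mul_left]
    refine av_mono fun y => ?_
    have h0 : 0 ≤ av (fun x : κ × α → S => (A x * B y).trace) := av_nonneg fun x => hM0' x y
    split_ifs
    · rw [← av_neg, ← av_mul_left]
      refine av_mono fun x => ?_
      have h2 := (abs_le.1 (hWc (fun v => x (v, y v)))).1
      nlinarith [hM0' x y]
    · rw [neg_zero]; positivity
  have hm : ε / (2 * c) ≤ av (fun x => (τ x).trace) := by
    rw [div_le_iff₀ (by positivity)]
    linarith
  -- the power
  set P : (κ × α → S) → Matrix ι ι ℝ := fun x => T x + c • (1 : Matrix ι ι ℝ) with hP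
  set e2 : ℝ := ε / (2 * (F + 1)) with he2
  have he20 : 0 < e2 := by positivity
  have he2c : e2 ≤ c := by
    rw [he2, div_le_iff₀ (by positivity)]
    nlinarith
  have hbd := fun x => Tmat_bounds W c hWc B hB hBs x
  have hpow := power_step P τ c e2 (F + 1) (ε / (2 * c)) hc0 he20 he2c hF1 (by positivity)
    (fun x => (hbd x).1) (fun x => (hbd x).2) hτ hτF hm (by
      have h1 : av (fun x => (τ x * P x).trace)
          = av (fun x => (τ x * T x).trace) + c * av (fun x => (τ x).trace) := by
        rw [← av_mul_left, ← av_add]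
        refine av_congr fun x => ?_
        rw [hP]
        simp only [Matrix.mul_add, Matrix.trace_add, Matrix.mul_smul, Matrix.mul_one,
          Matrix.trace_smul, smul_eq_mul]
      have h2 : av (fun x => (τ x).trace) ≤ F + 1 := by
        rw [← av_const (X := κ × α → S) (F + 1)]
        exact av_mono hτF
      have h3 : e2 * av (fun x => (τ x).trace) ≤ ε / 2 := by
        calc e2 * av (fun x => (τ x).trace) ≤ e2 * (F + 1) :=
              mul_le_mul_of_nonneg_left h2 he20.le
          _ = ε / 2 := by rw [he2]; field_simp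
      rw [h1]
      linarith) s (by
      have h1 : e2 / (8 * c) = ε / (16 * c * (F + 1)) := by rw [he2]; field_simp; norm_num
      have h2 : 32 * c ^ 2 * (F + 1) * (Fintype.card ι : ℝ) / (e2 ^ 2 * (ε / (2 * c)))
          = 256 * c ^ 3 * (F + 1) ^ 3 / ε ^ 3 * r := by
        rw [he2, ← hr]; field_simp; norm_num
      rw [h1, h2]
      exact hs)
  set H : (κ × α → S) → Matrix ι ι ℝ := fun x => P x ^ s with hH
  have hPsym : ∀ x, (P x).transpose = P x := by
    intro x
    have := (hbd x).1.isHermitian.eq
    rwa [Matrix.conjTranspose_eq_transpose_of_trivial] at this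
  have hHsym : ∀ x, (H x).transpose = H x := by
    intro x
    rw [hH]
    simp only [Matrix.transpose_pow, hPsym x]
  have hHH : ∀ x, H x * H x = P x ^ (2 * s) := by
    intro x
    rw [hH]
    simp only
    rw [← pow_add, two_mul]
  have hdegP : ∀ i j, (fun x => P x i j) ∈ degLE (κ × α) S (Fintype.card κ) := by
    intro i j
    have h1 := Tmat_deg W B i j
    have h2 := degLE_const (I := κ × α) (S := S) (Fintype.card κ) (c * (1 : Matrix ι ι ℝ) i j)
    have h3 := Submodule.add_mem _ h1 h2
    exact h3
  have hdeg := degLE_pow P (Fintype.card κ) hdegP s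
  set h : ℝ := av (fun x => (H x * H x).trace) with hh
  have hh0 : 0 ≤ h := by
    rw [hh]
    refine av_nonneg fun x => ?_
    have : H x * H x = (H x).transpose * H x := by rw [hHsym]
    rw [this, ← Matrix.conjTranspose_eq_transpose_of_trivial]
    exact (Matrix.posSemidef_conjTranspose_mul_self (H x)).trace_nonneg
  have hT1 : e2 / 2 * h < av (fun x => (H x * H x * T x).trace) := by
    have h1 : av (fun x => (P x ^ (2 * s + 1)).trace)
        = av (fun x => (H x * H x * T x).trace) + c * h := by
      rw [hh, ← av_mul_left, ← av_add]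
      refine av_congr fun x => ?_
      rw [pow_succ, ← hHH]
      simp only [hP, Matrix.mul_add, Matrix.trace_add, Matrix.mul_smul, Matrix.mul_one,
        Matrix.trace_smul, smul_eq_mul]
    have h2 : av (fun x => (P x ^ (2 * s)).trace) = h := by
      rw [hh]
      exact av_congr fun x => by rw [hHH]
    rw [h1, h2] at hpow
    linarith
  have hmass := high_mass (κ := κ) (α := α) he t (s * Fintype.card κ) H hHsym hdeg
  rw [← hh] at hmass
  set ρ : ℝ := ((((s * Fintype.card κ : ℕ) : ℝ)) / Fintype.card α) ^ (t + 1) with hρ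
  have hmass0 : ∀ y : κ → α, 0 ≤ highMass o e t H y := fun y =>
    Finset.sum_nonneg fun i _ => Finset.sum_nonneg fun j _ =>
      Finset.sum_nonneg fun a _ => sq_nonneg _
  have hT2 : av (fun x => (H x * H x * T x).trace)
      ≤ e2 / 4 * h + 20 * c ^ 2 / e2 * (r * (ρ * h)) := by
    have hη : 0 < e2 / (4 * c) := by positivity
    have hηc : e2 / (4 * c) * c = e2 / 4 := by field_simp
    have h1 : ∀ y : κ → α, -(if (B y).trace ≤ 4 then
          av (fun x : κ × α → S => W (fun v => x (v, y v)) * (H x * H x * B y).trace) else 0)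
        ≤ e2 / 4 * av (fun x : κ × α → S => (H x * H x * B y).trace)
          + 20 * c ^ 2 / e2 * highMass o e t H y := by
      intro y
      have h5 : 0 ≤ av (fun x : κ × α → S => (H x * H x * B y).trace) := by
        refine av_nonneg fun x => trace_mul_nonneg ?_ (hB y)
        have : H x * H x = (H x).transpose * H x := by rw [hHsym]
        rw [this, ← Matrix.conjTranspose_eq_transpose_of_trivial]
        exact Matrix.posSemidef_conjTranspose_mul_self (H x)
      split_ifs with hy
      · have h2 := matrix_form_lower he W c hc0.le hWc t hW y H hHsym (B y) (hB y) _ hη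
        rw [hηc] at h2
        have h3 : c * (1 + 1 / (e2 / (4 * c))) ≤ 5 * c ^ 2 / e2 := by
          rw [one_div_div, le_div_iff₀ he20]
          have : c * (1 + 4 * c / e2) * e2 = c * e2 + 4 * c ^ 2 := by field_simp
          rw [this]
          nlinarith
        have h4 : c * (1 + 1 / (e2 / (4 * c))) * ((B y).trace * highMass o e t H y)
            ≤ 5 * c ^ 2 / e2 * (4 * highMass o e t H y) :=
          mul_le_mul h3 (mul_le_mul_of_nonneg_right hy (hmass0 y))
            (mul_nonneg (hB y).trace_nonneg (hmass0 y)) (by positivity)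
        have h6 : 5 * c ^ 2 / e2 * (4 * highMass o e t H y)
            = 20 * c ^ 2 / e2 * highMass o e t H y := by ring
        linarith
      · rw [neg_zero]
        have := hmass0 y
        positivity
    have h2 := av_mono h1
    rw [av_neg, av_add, av_mul_left, av_mul_left] at h2
    have h3 : r * av (fun y : κ → α => av (fun x : κ × α → S => (H x * H x * B y).trace)) = h := by
      rw [← av_comm, ← av_mul_left, hh]
      exact av_congr fun x => av_trace_mul B hBs (H x * H x)
    have h4 := av_trace_Tmat W B (fun x => H x * H x)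
    rw [← hT] at h4
    rw [h4, ← hr]
    have h5 := mul_le_mul_of_nonneg_left h2 hr0.le
    have h6 : r * (e2 / 4 * av (fun y : κ → α => av (fun x : κ × α → S =>
          (H x * H x * B y).trace)) + 20 * c ^ 2 / e2 * av (fun y => highMass o e t H y))
        = e2 / 4 * h + 20 * c ^ 2 / e2 * (r * av (fun y => highMass o e t H y)) := by
      rw [← h3]; ring
    rw [h6] at h5
    have h7 : 20 * c ^ 2 / e2 * (r * av (fun y : κ → α => highMass o e t H y))
        ≤ 20 * c ^ 2 / e2 * (r * (ρ * h)) :=
      mul_le_mul_of_nonneg_left (mul_le_mul_of_nonneg_left hmass hr0.le) (by positivity)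
    linarith
  have hfin : e2 / 4 * h < 20 * c ^ 2 / e2 * (r * ρ) * h := by
    have : 20 * c ^ 2 / e2 * (r * (ρ * h)) = 20 * c ^ 2 / e2 * (r * ρ) * h := by ring
    linarith
  have hhpos : 0 < h := by
    rcases hh0.lt_or_eq with h1 | h1
    · exact h1
    · rw [← h1] at hfin; simp at hfin
  have hfin2 := lt_of_mul_lt_mul_right hfin hhpos.le
  have hρ' : ρ = ((Fintype.card κ * s : ℝ) / Fintype.card α) ^ (t + 1) := by
    rw [hρ]; push_cast; ring
  rw [← hρ']
  have h8 : 20 * c ^ 2 / e2 * (r * ρ) = (r * ρ) * (20 * c ^ 2) / e2 := by ring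
  rw [h8, lt_div_iff₀ he20] at hfin2
  have h9 : ε ^ 2 / (320 * c ^ 2 * (F + 1) ^ 2) * (20 * c ^ 2) = e2 / 4 * e2 := by
    rw [he2]; field_simp; norm_num
  rw [← h9] at hfin2
  exact lt_of_mul_lt_mul_right hfin2 (by positivity)

end Pool.Agent.Lib.SDF
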