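import Pool.Agent.Lib.MP_678664_lc_h67.Design

/-!
Row W3a: the consistent choices form a coset.
-/

set_option autoImplicit false

namespace Pool.Agent.Lib.SDF

open Finset
open Pool.Agent.Lib.MP_678664_lc_h67 (okD ev Cons Ext pureComp rho card_ext)

private theorem W3a_ev {m p : ℕ} [Fact p.Prime] (P Q R : Fin m → ZMod p) (x : ZMod p) :
    ev (P + (Q - R)) x = ev P x + (ev Q x - ev R x) := by
  unfold ev
  rw [← Finset.sum_sub_distrib, ← Finset.sum_add_distrib]
  refine Finset.sum_congr rfl fun j _ => ?_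
  rw [Pi.add_apply, Pi.sub_apply]
  ring

private theorem W3a_cons {k m p : ℕ} [Fact p.Prime] (a : Fin k → ZMod p) (T : Finset (Fin k))
    {z₁ z₂ : Fin k → Fin m → ZMod p} (h1 : Cons (okD a) T z₁) (h2 : Cons (okD a) T z₂)
    (z : Fin k → Fin m → ZMod p) :
    Cons (okD a) T (z + (z₁ - z₂)) ↔ Cons (okD a) T z := by
  have key : ∀ v ∈ T, ∀ w ∈ T, v ≠ w →
      (okD a v w ((z + (z₁ - z₂)) v) ((z + (z₁ - z₂)) w) ↔ okD a v w (z v) (z w)) := by
    intro v hv w hw hvw
    have e1 := h1 v hv w hw hvw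
    have e2 := h2 v hv w hw hvw
    unfold okD at e1 e2 ⊢
    rw [show (z + (z₁ - z₂)) v = z v + (z₁ v - z₂ v) from rfl,
      show (z + (z₁ - z₂)) w = z w + (z₁ w - z₂ w) from rfl, W3a_ev, W3a_ev]
    constructor
    · intro h
      linear_combination h - e1 + e2
    · intro h
      linear_combination h + e1 - e2
  constructor
  · intro h v hv w hw hvw
    exact (key v hv w hw hvw).1 (h v hv w hw hvw)
  · intro h v hv w hw hvw
    exact (key v hv w hw hvw).2 (h v hv w hw hvw)

open Classical in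
/-- Row W3a.  If `χ z₁ ≠ χ z₂` for two consistent `z₁, z₂`, translation by `δ = z₁ - z₂` permutes
the consistent choices (`ev` is additive), so the sum is `χ δ` times itself. -/
theorem coset_sum {k m p : ℕ} [Fact p.Prime] (a : Fin k → ZMod p) (T : Finset (Fin k))
    (χ : AddChar (Fin k → Fin m → ZMod p) ℂ) :
    (∑ z ∈ Finset.univ.filter (fun z : Fin k → Fin m → ZMod p => Cons (okD a) T z), χ z = 0) ∨
      ∃ ζ : ℂ, ∀ z : Fin k → Fin m → ZMod p, Cons (okD a) T z → χ z = ζ := by
  by_cases H : ∀ z z' : Fin k → Fin m → ZMod p, Cons (okD a) T z → Cons (okD a) T z' →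
      χ z = χ z'
  · right
    by_cases hz : ∃ z : Fin k → Fin m → ZMod p, Cons (okD a) T z
    · obtain ⟨z0, hz0⟩ := hz
      exact ⟨χ z0, fun z hz => H z z0 hz hz0⟩
    · exact ⟨0, fun z hz' => absurd ⟨z, hz'⟩ hz⟩
  · left
    push Not at H
    obtain ⟨z₁, z₂, h1, h2, hne⟩ := H
    have hδ : χ (z₁ - z₂) ≠ 1 := by
      intro h
      apply hne
      have : z₁ = (z₁ - z₂) + z₂ := by abel
      rw [this, AddChar.map_add_eq_mul, h, one_mul]
    have hs : ∑ z ∈ Finset.univ.filter (fun z : Fin k → Fin m → ZMod p => Cons (okD a) T z), χ z =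
        ∑ z ∈ Finset.univ.filter (fun z : Fin k → Fin m → ZMod p => Cons (okD a) T z),
          χ (z + (z₁ - z₂)) := by
      symm
      refine Finset.sum_equiv (Equiv.addRight (z₁ - z₂)) ?_ ?_
      · intro z
        simp only [Finset.mem_filter, Finset.mem_univ, true_and, Equiv.coe_addRight]
        exact (W3a_cons a T h1 h2 z).symm
      · intro z _
        rfl
    have hs2 : ∑ z ∈ Finset.univ.filter (fun z : Fin k → Fin m → ZMod p => Cons (okD a) T z),
          χ (z + (z₁ - z₂)) =
        (∑ z ∈ Finset.univ.filter (fun z : Fin k → Fin m → ZMod p => Cons (okD a) T z), χ z) *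
          χ (z₁ - z₂) := by
      rw [Finset.sum_mul]
      exact Finset.sum_congr rfl fun z _ => AddChar.map_add_eq_mul χ _ _
    rw [hs2] at hs
    have h3 : (∑ z ∈ Finset.univ.filter (fun z : Fin k → Fin m → ZMod p => Cons (okD a) T z),
        χ z) * (χ (z₁ - z₂) - 1) = 0 := by
      linear_combination -hs
    rcases mul_eq_zero.1 h3 with h4 | h4
    · exact h4
    · exact absurd (sub_eq_zero.1 h4) hδ

end Pool.Agent.Lib.SDF
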