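import Mathlib

/-!
Semidefinite programs which tell graphs with a `k`-clique from graphs without a `u`-clique. The
feasible region is fixed, the input graph enters through the objective function.
-/

set_option autoImplicit false

namespace Pool.Agent.Lib.SDF

/-- A family of semidefinite programs with matrices of size `r` which tells the graphs on `Fin n`
with a `k`-clique from the graphs on `Fin n` without a `u`-clique, with gap `ε`.

The feasible region is the set of the `y : Fin d → ℝ` for which the matrix
`A₀ + ∑ i, y i • A i` (of size `r`) is positive semidefinite and `c j ⬝ᵥ y = e j` for the `m`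
equations `j`; it does not depend on the input graph, and the numbers `d` of variables and `m` of
equations are not restricted.  The input graph `G` enters only through the affine objective
function `y ↦ obj G ⬝ᵥ y + obj0 G`.  If `G` has no `u`-clique, it is at most `1 - ε` on the
whole feasible region.  Each set `S` of `k` vertices has a feasible point `point S`, at which the
objective function of `G` is at least `1` if `S` is a clique of `G`; as a function of `G` it is
there a combination with coefficients `wt S H ≥ 0` of the indicator functions of `H ≤ G`, where
`H` runs through the graphs with less than `u` non-isolated vertices (for example, the number of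
edges of `G` inside `S` divided by `k.choose 2`). -/
structure CliqueSDP (n k u : ℕ) (ε : ℝ) (r : ℕ) where
  /-- number of variables -/
  d : ℕ
  /-- number of equations -/
  m : ℕ
  /-- constant term of the matrix -/
  A₀ : Matrix (Fin r) (Fin r) ℝ
  /-- coefficients of the matrix -/
  A : Fin d → Matrix (Fin r) (Fin r) ℝ
  /-- left sides of the equations -/
  c : Fin m → Fin d → ℝ
  /-- right sides of the equations -/
  e : Fin m → ℝ
  /-- linear part of the objective function of a graph -/
  obj : SimpleGraph (Fin n) → Fin d → ℝ
  /-- constant term of the objective function of a graph -/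
  obj0 : SimpleGraph (Fin n) → ℝ
  /-- the point of a vertex set -/
  point : Finset (Fin n) → Fin d → ℝ
  /-- the coefficients of the objective function at the point of a vertex set -/
  wt : Finset (Fin n) → SimpleGraph (Fin n) → ℝ
  /-- the coefficients are nonnegative -/
  wt_nonneg : ∀ S H, 0 ≤ wt S H
  /-- only graphs with less than `u` non-isolated vertices are used -/
  wt_small : ∀ S H, u ≤ H.support.ncard → wt S H = 0
  /-- the matrices of the `k`-sets are positive semidefinite -/
  point_psd : ∀ S : Finset (Fin n), S.card = k → (A₀ + ∑ i, point S i • A i).PosSemidef
  /-- the points of the `k`-sets satisfy the equations -/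
  point_eq : ∀ S : Finset (Fin n), S.card = k → ∀ j, c j ⬝ᵥ point S = e j
  /-- the value of the objective function at the point of a `k`-set -/
  point_val : ∀ S : Finset (Fin n), S.card = k → ∀ G : SimpleGraph (Fin n),
    obj G ⬝ᵥ point S + obj0 G = ∑ᶠ H ∈ Set.Iic G, wt S H
  /-- the value is at least `1` at the point of a `k`-clique -/
  complete : ∀ S : Finset (Fin n), S.card = k → ∀ G : SimpleGraph (Fin n), G.IsClique S →
    1 ≤ obj G ⬝ᵥ point S + obj0 G
  /-- the value is at most `1 - ε` if there is no `u`-clique -/
  sound : ∀ G : SimpleGraph (Fin n), G.CliqueFree u → ∀ y : Fin d → ℝ,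
    (A₀ + ∑ i, y i • A i).PosSemidef → (∀ j, c j ⬝ᵥ y = e j) →
    obj G ⬝ᵥ y + obj0 G ≤ 1 - ε

/-- All matrices are diagonal: the programs are linear programs with `r` inequalities. -/
def CliqueSDP.IsLinear {n k u : ℕ} {ε : ℝ} {r : ℕ} (P : CliqueSDP n k u ε r) : Prop :=
  P.A₀.IsDiag ∧ ∀ i, (P.A i).IsDiag

end Pool.Agent.Lib.SDF
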