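import Pool.Agent.Lib.SDF.DegA

/-!
Row D1: the degree filtration.
-/

set_option autoImplicit false

namespace Pool.Agent.Lib.SDF

open Finset

variable {I S : Type*} [Fintype I] [DecidableEq I] [Fintype S] [DecidableEq S]

/-- The coefficient of a function which does not depend on the coordinate `i` of the support
vanishes: average over the coordinate `i` first; `∑ s, e (a i) s = 0` by `orth` with `o`. -/
theorem coef_zero_of_indep {o : S} {e : S → S → ℝ} (h : IsBasis o e) (g : (I → S) → ℝ)
    (a : I → S) (i : I) (hi : a i ≠ o)
    (hg : ∀ x s, g (Function.update x i s) = g x) : coef e g a = 0 := by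
  have h0 : ∑ s, e (a i) s = 0 := by
    have h1 := h.orth (a i) o
    rw [if_neg hi] at h1
    rw [← h1]
    exact Finset.sum_congr rfl fun s _ => by rw [h.one, mul_one]
  have h1 : ∀ x : I → S, ∑ s, g (Function.update x i s) * E e a (Function.update x i s) = 0 := by
    intro x
    have h2 : ∀ s, g (Function.update x i s) * E e a (Function.update x i s) =
        e (a i) s * (g x * ∏ j ∈ Finset.univ.erase i, e (a j) (x j)) := by
      intro s
      unfold E
      rw [hg, ← Finset.mul_prod_erase Finset.univ _ (Finset.mem_univ i), Function.update_self,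
        Finset.prod_congr rfl fun j hj => by
          rw [Function.update_of_ne (Finset.ne_of_mem_erase hj)]]
      ring
    rw [Finset.sum_congr rfl fun s _ => h2 s, ← Finset.sum_mul, h0, zero_mul]
  have hinv : Function.Involutive
      (fun p : (I → S) × S => ((Function.update p.1 i p.2, p.1 i) : (I → S) × S)) := by
    rintro ⟨x, s⟩
    simp
  have h3 : ∑ p : (I → S) × S, g (Function.update p.1 i p.2) * E e a (Function.update p.1 i p.2) =
      ∑ p : (I → S) × S, g p.1 * E e a p.1 :=
    Fintype.sum_bijective _ hinv.bijective _ _ fun p => rfl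
  rw [Fintype.sum_prod_type, Fintype.sum_prod_type, Finset.sum_congr rfl fun x _ => h1 x,
    Finset.sum_const_zero] at h3
  simp only [Finset.sum_const, Finset.card_univ, nsmul_eq_mul, ← Finset.mul_sum] at h3
  have h4 : (Fintype.card S : ℝ) ≠ 0 := by
    have : Nonempty S := ⟨o⟩
    exact_mod_cast Fintype.card_ne_zero
  have h5 : ∑ x : I → S, g x * E e a x = 0 := by
    rcases mul_eq_zero.1 h3.symm with h6 | h6
    · exact absurd h6 h4
    · exact h6
  unfold coef av
  rw [h5, zero_div]

theorem coef_eq_zero {o : S} {e : S → S → ℝ} (h : IsBasis o e) {D : ℕ} {g : (I → S) → ℝ}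
    (hg : g ∈ degLE I S D) (a : I → S) (ha : D < (supp o a).card) : coef e g a = 0 := by
  unfold degLE at hg
  induction hg using Submodule.span_induction with
  | mem g hg =>
    obtain ⟨Q, hQ, hg⟩ := hg
    have h1 : ∃ i ∈ supp o a, i ∉ Q := by
      by_contra hcon
      push Not at hcon
      have := Finset.card_le_card (show supp o a ⊆ Q from hcon)
      omega
    obtain ⟨i, hi, hiQ⟩ := h1
    refine coef_zero_of_indep h g a i (Finset.mem_filter.1 hi).2 fun x s => hg _ _ fun j hj => ?_
    have hji : j ≠ i := fun hji => hiQ (by rw [← hji]; exact hj)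
    rw [Function.update_of_ne hji]
  | zero =>
    unfold coef
    simp [av]
  | add g g' _ _ h1 h2 => rw [coef_add, h1, h2, add_zero]
  | smul c g _ h1 => rw [coef_smul, h1, mul_zero]

end Pool.Agent.Lib.SDF
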