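import Pool.Agent.Lib.SDF.BasisProd

/-!
Row D1a: the degree filtration.
-/

set_option autoImplicit false

namespace Pool.Agent.Lib.SDF

open Finset

variable {I S : Type*} [Fintype I] [DecidableEq I] [Fintype S] [DecidableEq S]

omit [Fintype I] [DecidableEq I] [Fintype S] [DecidableEq S] in
theorem degLE_const (D : ℕ) (c : ℝ) : (fun _ : I → S => c) ∈ degLE I S D :=
  Submodule.subset_span ⟨∅, by simp, fun _ _ _ => rfl⟩

omit [Fintype I] [DecidableEq I] [Fintype S] [DecidableEq S] in
theorem degLE_mono {D D' : ℕ} (h : D ≤ D') : degLE I S D ≤ degLE I S D' :=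
  Submodule.span_mono fun _ ⟨Q, hQ, hg⟩ => ⟨Q, hQ.trans h, hg⟩

omit [Fintype I] [Fintype S] [DecidableEq S] in
/-- Products (`Submodule.span_induction` twice; the union of the two coordinate sets). -/
theorem degLE_mul {D D' : ℕ} {g g' : (I → S) → ℝ} (hg : g ∈ degLE I S D)
    (hg' : g' ∈ degLE I S D') : (fun x => g x * g' x) ∈ degLE I S (D + D') := by
  unfold degLE at hg hg'
  induction hg using Submodule.span_induction with
  | mem g hg =>
    induction hg' using Submodule.span_induction with
    | mem g' hg' =>
      obtain ⟨Q, hQ, hg⟩ := hg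
      obtain ⟨Q', hQ', hg'⟩ := hg'
      refine Submodule.subset_span ⟨Q ∪ Q', (Finset.card_union_le _ _).trans (by omega), ?_⟩
      intro x x' hx
      show g x * g' x = g x' * g' x'
      rw [hg x x' fun i hi => hx i (Finset.mem_union_left _ hi),
        hg' x x' fun i hi => hx i (Finset.mem_union_right _ hi)]
    | zero =>
      have : (fun x => g x * (0 : (I → S) → ℝ) x) = 0 := by
        funext x
        simp
      rw [this]
      exact Submodule.zero_mem _
    | add a b _ _ ha hb =>
      have : (fun x => g x * (a + b) x) = (fun x => g x * a x) + fun x => g x * b x := by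
        funext x
        simp [mul_add]
      rw [this]
      exact Submodule.add_mem _ ha hb
    | smul c a _ ha =>
      have : (fun x => g x * (c • a) x) = c • fun x => g x * a x := by
        funext x
        simp only [Pi.smul_apply, smul_eq_mul]
        ring
      rw [this]
      exact Submodule.smul_mem _ _ ha
  | zero =>
    have : (fun x => (0 : (I → S) → ℝ) x * g' x) = 0 := by
      funext x
      simp
    rw [this]
    exact Submodule.zero_mem _
  | add a b _ _ ha hb =>
    have : (fun x => (a + b) x * g' x) = (fun x => a x * g' x) + fun x => b x * g' x := by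
      funext x
      simp [add_mul]
    rw [this]
    exact Submodule.add_mem _ ha hb
  | smul c a _ ha =>
    have : (fun x => (c • a) x * g' x) = c • fun x => a x * g' x := by
      funext x
      simp only [Pi.smul_apply, smul_eq_mul]
      ring
    rw [this]
    exact Submodule.smul_mem _ _ ha

omit [Fintype I] [Fintype S] [DecidableEq S] in
/-- Powers of matrices of functions. -/
theorem degLE_pow {ι : Type*} [Fintype ι] [DecidableEq ι] (P : (I → S) → Matrix ι ι ℝ) (D : ℕ)
    (hP : ∀ i j, (fun x => P x i j) ∈ degLE I S D) (s : ℕ) :
    ∀ i j, (fun x => (P x ^ s) i j) ∈ degLE I S (s * D) := by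
  induction s with
  | zero =>
    intro i j
    have : (fun x : I → S => (P x ^ 0) i j) = fun _ => (1 : Matrix ι ι ℝ) i j := by
      funext x
      rw [pow_zero]
    rw [this]
    exact degLE_const _ _
  | succ s ih =>
    intro i j
    have : (fun x : I → S => (P x ^ (s + 1)) i j) =
        ∑ l, fun x => (P x ^ s) i l * P x l j := by
      funext x
      rw [pow_succ, Matrix.mul_apply, Finset.sum_apply]
    rw [this, Nat.succ_mul]
    exact Submodule.sum_mem _ fun l _ => degLE_mul (ih i l) (hP l j)

end Pool.Agent.Lib.SDF
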