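import Pool.Agent.Lib.SDF.DesignPsd

/-!
Row W4b: the design with its test function.
-/

set_option autoImplicit false

namespace Pool.Agent.Lib.SDF

open Finset
open Pool.Agent.Lib.MP_678664_lc_h67 (okD ev Cons Ext pureComp rho)

/-- The design with its test function `∑ J, pureComp ok p u J z` (see `exists_design`, `sum_test`,
`exists_bound`, `not_cons` in `MP_678664_lc_h67` and `design_psd`). -/
theorem exists_design_psd (k u t : ℕ) (hu : 3 ≤ u) (ht : 3 * t < u) :
    ∃ (S : Type) (_ : Fintype S) (_ : DecidableEq S) (_ : Nonempty S)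
      (ok : Fin k → Fin k → S → S → Prop) (W : (Fin k → S) → ℝ) (c : ℝ),
      1 ≤ c ∧ (∀ z, |W z| ≤ c) ∧
      (∀ v w s t, ok v w s t → ok w v t s) ∧
      (∀ (z : Fin k → S) (U : Finset (Fin k)), U.card = u → ¬ Cons ok U z) ∧
      (∑ z, W z = Fintype.card (Fin k → S)) ∧
      (∀ (T : Finset (Fin k)) (F : (Fin k → S) → ℝ), T.card < u →
        (∀ z z' : Fin k → S, (∀ v ∈ T, z v = z' v) → F z = F z') →
        ((∀ z, 0 ≤ F z) → 0 ≤ ∑ z, W z * F z) ∧
        ((∀ z, Cons ok T z → F z = 1) → ∑ z, W z * F z = Fintype.card (Fin k → S))) ∧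
      ∀ g ∈ degLE (Fin k) S t, 0 ≤ ∑ z, W z * g z ^ 2 := by
  classical
  obtain ⟨m, rfl⟩ : ∃ m, u = m + 2 := ⟨u - 2, by omega⟩
  obtain ⟨p, hpk, hp⟩ := Nat.exists_infinite_primes (k + 3)
  have : Fact p.Prime := ⟨hp⟩
  let a : Fin k → ZMod p := fun v => ((v : ℕ) : ZMod p)
  have ha : Function.Injective a := by
    intro v w hvw
    have h1 : ((v : ℕ) : ZMod p) = ((w : ℕ) : ZMod p) := hvw
    rw [ZMod.natCast_eq_natCast_iff] at h1
    have h2 := Nat.ModEq.eq_of_lt_of_lt h1 (by omega) (by omega)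
    exact Fin.ext h2
  have hext : Ext (okD (m := m) a) (p : ℝ) (m + 2) := by
    intro I g hg hI z
    have h := MP_678664_lc_h67.card_ext (m := m) (by omega) a ha I (by omega)
      (fun w => ev (z w) (a g) + (a g * a w) ^ m * (a g - a w))
    rw [← h]
    push_cast
    congr 2
    refine Nat.card_congr (Equiv.subtypeEquivRight fun P => ?_)
    refine forall₂_congr fun w _ => ?_
    unfold okD
    constructor
    · intro h; rw [← h]; ring
    · intro h; rw [h]; ring
  have hsymm := MP_678664_lc_h67.okD_symm (m := m) a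
  obtain ⟨B, hB⟩ := MP_678664_lc_h67.exists_bound (okD (m := m) a) (p : ℝ) (m + 2)
  refine ⟨Fin m → ZMod p, inferInstance, inferInstance, inferInstance, okD a,
    fun z => ∑ J, pureComp (okD (m := m) a) (p : ℝ) (m + 2) J z, max 1 B, le_max_left _ _,
    fun z => (hB Finset.univ z).trans (le_max_right _ _), hsymm, ?_, ?_, ?_, ?_⟩
  · intro z U hU
    exact MP_678664_lc_h67.not_cons (by omega) a ha U hU z
  · exact MP_678664_lc_h67.sum_test (okD (m := m) a) hsymm p (m + 2) hext (by omega)
  · intro T F hT hF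
    have h1 := sum_test_mul (okD (m := m) a) hsymm (p : ℝ) (m + 2) hext T hT F hF
    have h2 := sum_test_mul (okD (m := m) a) hsymm (p : ℝ) (m + 2) hext T hT (fun _ => 1)
      (fun _ _ _ => rfl)
    have h3 := MP_678664_lc_h67.sum_test (okD (m := m) a) hsymm (p : ℝ) (m + 2) hext (by omega)
    simp only [one_mul] at h2
    have h4 : ∑ z, (∑ J, pureComp (okD (m := m) a) (p : ℝ) (m + 2) J z) * F z
        = ∑ z, F z * rho (okD (m := m) a) (p : ℝ) T z := by
      rw [← h1]
      exact Finset.sum_congr rfl fun z _ => mul_comm _ _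
    refine ⟨fun hF0 => ?_, fun hF1 => ?_⟩
    · rw [h4]
      exact Finset.sum_nonneg fun z _ => mul_nonneg (hF0 z)
        (MP_678664_lc_h67.rho_nonneg _ _ (Nat.cast_nonneg _) _ _)
    · rw [h4, ← h3, h2]
      refine Finset.sum_congr rfl fun z _ => ?_
      by_cases hc : Cons (okD (m := m) a) T z
      · rw [hF1 z hc, one_mul]
      · have : rho (okD (m := m) a) (p : ℝ) T z = 0 := by
          unfold rho
          rw [if_neg hc]
        rw [this, mul_zero]
  · intro g hg
    exact design_psd (by omega) a ha t ht g hg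

end Pool.Agent.Lib.SDF
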