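import Pool.Agent.Lib.MP_678664_lc_h67.Design

/-!
Row W3b: test functions of fewer than `u` coordinates.
-/

set_option autoImplicit false

namespace Pool.Agent.Lib.SDF

open Finset
open Pool.Agent.Lib.MP_678664_lc_h67 (okD ev Cons Ext pureComp rho card_ext)

/-- Row W3b (part of the proof of `exists_design`). -/
theorem ext_okD {k m p : ℕ} [Fact p.Prime] (hm : 0 < m) (a : Fin k → ZMod p)
    (ha : Function.Injective a) :
    Ext (okD (m := m) a) (p : ℝ) (m + 2) := by
  intro I g hg hI z
  have h := card_ext (m := m) hm a ha I (by omega)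
    (fun w => ev (z w) (a g) + (a g * a w) ^ m * (a g - a w))
  rw [← h]
  push_cast
  congr 2
  refine Nat.card_congr (Equiv.subtypeEquivRight fun P => ?_)
  refine forall₂_congr fun w _ => ?_
  unfold okD
  constructor
  · intro h; rw [← h]; ring
  · intro h; rw [h]; ring

/-- Row W3b.  A function of the coordinates in `T`, `T.card < u`, does not see the difference
between the test function and `rho`: `orth` kills the components of `J` not contained in `T`,
then `sum_pure` (as in `orth_pair`). -/
theorem sum_test_mul {κ S : Type*} [Fintype κ] [DecidableEq κ] [Fintype S] [Nonempty S]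
    (ok : κ → κ → S → S → Prop)
    (hsymm : ∀ v w s t, ok v w s t → ok w v t s) (p : ℝ) (u : ℕ) (hext : Ext ok p u)
    (T : Finset κ) (hT : T.card < u) (F : (κ → S) → ℝ)
    (hF : ∀ z z' : κ → S, (∀ v ∈ T, z v = z' v) → F z = F z') :
    ∑ z, F z * ∑ J, pureComp ok p u J z = ∑ z, F z * rho ok p T z := by
  have h1 : ∑ z : κ → S, F z * ∑ J, pureComp ok p u J z
      = ∑ J, ∑ z : κ → S, F z * pureComp ok p u J z := by
    rw [Finset.sum_comm]
    exact Finset.sum_congr rfl fun z _ => Finset.mul_sum _ _ _
  have h2 : ∑ J, ∑ z : κ → S, F z * pureComp ok p u J z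
      = ∑ J ∈ T.powerset, ∑ z : κ → S, F z * pureComp ok p u J z := by
    symm
    refine Finset.sum_subset (Finset.subset_univ _) fun J _ hJ => ?_
    rw [Finset.mem_powerset, Finset.not_subset] at hJ
    obtain ⟨g, hg, hg'⟩ := hJ
    exact Pool.Agent.Lib.MP_678664_lc_h67.orth ok hsymm p u hext J g hg F fun z s =>
      hF _ _ fun v hv => Function.update_of_ne (ne_of_mem_of_not_mem hv hg') _ _
  rw [h1, h2, Finset.sum_comm]
  refine Finset.sum_congr rfl fun z _ => ?_
  rw [← Finset.mul_sum, Pool.Agent.Lib.MP_678664_lc_h67.sum_pure ok p u T hT]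

end Pool.Agent.Lib.SDF
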