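import Pool.Agent.Lib.SDF.Classes
import Pool.Agent.Lib.SDF.Chars
import Pool.Agent.Lib.SDF.Coset
import Pool.Agent.Lib.SDF.TestMul

/-!
Row W4: the test function of the design is nonnegative on the squares of functions of degree at
most `t` if `3 t < u`.
-/

set_option autoImplicit false

namespace Pool.Agent.Lib.SDF

open Finset
open Pool.Agent.Lib.MP_678664_lc_h67 (okD ev Cons Ext pureComp rho)

section
variable {k m p : ℕ} [Fact p.Prime]

/-- The test function of the design. -/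
private noncomputable def w4aW (a : Fin k → ZMod p) (z : Fin k → Fin m → ZMod p) : ℝ :=
  ∑ J, pureComp (okD (m := m) a) (p : ℝ) (m + 2) J z

/-- The mean of a complex function against the test function. -/
private noncomputable def w4aM (a : Fin k → ZMod p) (f : (Fin k → Fin m → ZMod p) → ℂ) : ℂ :=
  (∑ z, (w4aW a z : ℂ) * f z) / (Fintype.card (Fin k → Fin m → ZMod p) : ℂ)

private theorem w4a_card_ne : (Fintype.card (Fin k → Fin m → ZMod p) : ℂ) ≠ 0 := by
  exact_mod_cast Fintype.card_ne_zero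

private theorem w4a_sum (hm : 0 < m) (a : Fin k → ZMod p) (ha : Function.Injective a)
    (T : Finset (Fin k)) (hT : T.card < m + 2) (f : (Fin k → Fin m → ZMod p) → ℂ)
    (hf : ∀ z z' : Fin k → Fin m → ZMod p, (∀ v ∈ T, z v = z' v) → f z = f z') :
    ∑ z, (w4aW a z : ℂ) * f z = ∑ z, (rho (okD (m := m) a) (p : ℝ) T z : ℂ) * f z := by
  have hre := sum_test_mul (okD (m := m) a) (MP_678664_lc_h67.okD_symm a) (p : ℝ) (m + 2)
    (ext_okD hm a ha) T hT (fun z => (f z).re) (fun z z' h => by rw [hf z z' h])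
  have him := sum_test_mul (okD (m := m) a) (MP_678664_lc_h67.okD_symm a) (p : ℝ) (m + 2)
    (ext_okD hm a ha) T hT (fun z => (f z).im) (fun z z' h => by rw [hf z z' h])
  have key : ∀ c : (Fin k → Fin m → ZMod p) → ℝ, ∑ z, (c z : ℂ) * f z
      = ((∑ z, (f z).re * c z : ℝ) : ℂ) + ((∑ z, (f z).im * c z : ℝ) : ℂ) * Complex.I := by
    intro c
    push_cast
    rw [Finset.sum_mul, ← Finset.sum_add_distrib]
    refine Finset.sum_congr rfl fun z _ => ?_
    conv_lhs => rw [← Complex.re_add_im (f z)]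
    ring
  rw [key, key]
  unfold w4aW
  rw [hre, him]

private theorem w4a_one (hm : 0 < m) (a : Fin k → ZMod p) (ha : Function.Injective a) :
    w4aM (m := m) a (fun _ => 1) = 1 := by
  unfold w4aM
  rw [div_eq_one_iff_eq w4a_card_ne]
  have h := MP_678664_lc_h67.sum_test (okD (m := m) a) (MP_678664_lc_h67.okD_symm a) (p : ℝ)
    (m + 2) (ext_okD hm a ha) (by omega)
  simp only [mul_one]
  unfold w4aW
  exact_mod_cast h

private theorem w4a_rho (hm : 0 < m) (a : Fin k → ZMod p) (ha : Function.Injective a)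
    (T : Finset (Fin k)) (hT : T.card < m + 2) :
    ∑ z, (rho (okD (m := m) a) (p : ℝ) T z : ℂ)
      = (Fintype.card (Fin k → Fin m → ZMod p) : ℂ) := by
  have h1 := w4a_sum hm a ha T hT (fun _ => 1) (fun _ _ _ => rfl)
  have h2 := w4a_one (m := m) hm a ha
  unfold w4aM at h2
  rw [div_eq_one_iff_eq w4a_card_ne] at h2
  rw [h2] at h1
  simpa using h1.symm

/-- A function with a constant value on the consistent choices has this value as its mean. -/
private theorem w4a_const (hm : 0 < m) (a : Fin k → ZMod p) (ha : Function.Injective a)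
    (T : Finset (Fin k)) (hT : T.card < m + 2) (f : (Fin k → Fin m → ZMod p) → ℂ)
    (hf : ∀ z z' : Fin k → Fin m → ZMod p, (∀ v ∈ T, z v = z' v) → f z = f z')
    (ζ : ℂ) (hζ : ∀ z : Fin k → Fin m → ZMod p, Cons (okD a) T z → f z = ζ) :
    w4aM a f = ζ := by
  unfold w4aM
  rw [w4a_sum hm a ha T hT f hf, div_eq_iff w4a_card_ne, ← w4a_rho hm a ha T hT, Finset.mul_sum]
  refine Finset.sum_congr rfl fun z _ => ?_
  by_cases hc : Cons (okD (m := m) a) T z
  · rw [hζ z hc, mul_comm]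
  · have : rho (okD (m := m) a) (p : ℝ) T z = 0 := by
      unfold rho; rw [if_neg hc]
    rw [this]; simp

/-- A character of few coordinates with mean `≠ 0` is constant on the consistent choices. -/
private theorem w4a_char (hm : 0 < m) (a : Fin k → ZMod p) (ha : Function.Injective a)
    (T : Finset (Fin k)) (hT : T.card < m + 2) (χ : AddChar (Fin k → Fin m → ZMod p) ℂ)
    (hχ : ∀ z z' : Fin k → Fin m → ZMod p, (∀ v ∈ T, z v = z' v) → χ z = χ z')
    (h0 : w4aM a (fun z => χ z) ≠ 0) (z : Fin k → Fin m → ZMod p) (hz : Cons (okD a) T z) :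
    χ z = w4aM a (fun z => χ z) := by
  classical
  rcases coset_sum a T χ with h | ⟨ζ, hζ⟩
  · exfalso
    apply h0
    unfold w4aM
    rw [w4a_sum hm a ha T hT (fun z => χ z) hχ]
    have h1 : ∑ z, (rho (okD (m := m) a) (p : ℝ) T z : ℂ) * χ z
        = ((p : ℝ) ^ (T.card.choose 2) : ℝ) *
          ∑ z ∈ Finset.univ.filter (fun z : Fin k → Fin m → ZMod p => Cons (okD a) T z), χ z := by
      rw [Finset.mul_sum, Finset.sum_filter]
      refine Finset.sum_congr rfl fun z _ => ?_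
      unfold rho
      by_cases hc : Cons (okD (m := m) a) T z
      · rw [if_pos hc, if_pos hc]
      · rw [if_neg hc, if_neg hc]; simp
    have h2 : ∑ z ∈ Finset.univ.filter
        (fun z : Fin k → Fin m → ZMod p => Cons (okD a) T z), χ z = 0 := by
      convert h
    rw [h1, h2, mul_zero, zero_div]
  · rw [hζ z hz, w4a_const hm a ha T hT (fun z => χ z) hχ ζ hζ]

end

/-- Expand `g` by `lowdeg_expand`; let `s` be the set of the characters which are functions of at
most `t` coordinates and `m ψ φ = (∑ z, W z * (ψ z * conj (φ z))) / card`.  For every `T` of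
fewer than `u` elements containing the coordinates of `ψ` and `φ`, `sum_test_mul` (real and
imaginary part) gives `m ψ φ = (∑ z, rho T z * ψ z * conj (φ z)) / card`; `rho T` is constant on
the consistent choices, its average is `1`, so by `coset_sum` for the character `ψ * φ⁻¹` either
`m ψ φ = 0` or `ψ z * conj (φ z) = m ψ φ` for all consistent `z`.  For three characters take
`T` the union of the three coordinate sets (`3 t < u`), which gives the hypotheses of
`psd_of_classes`. -/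
theorem design_psd {k m p : ℕ} [Fact p.Prime] (hm : 0 < m) (a : Fin k → ZMod p)
    (ha : Function.Injective a) (t : ℕ) (ht : 3 * t < m + 2)
    (g : (Fin k → Fin m → ZMod p) → ℝ) (hg : g ∈ degLE (Fin k) (Fin m → ZMod p) t) :
    0 ≤ ∑ z, (∑ J, pureComp (okD (m := m) a) (p : ℝ) (m + 2) J z) * g z ^ 2 := by
  classical
  obtain ⟨c, hc1, hc2⟩ := lowdeg_expand hg
  let s : Finset (AddChar (Fin k → Fin m → ZMod p) ℂ) := Finset.univ.filter fun ψ =>
    ∃ T : Finset (Fin k), T.card ≤ t ∧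
        ∀ z z' : Fin k → Fin m → ZMod p, (∀ v ∈ T, z v = z' v) → ψ z = ψ z'
  have hs : ∀ ψ ∈ s, ∃ T : Finset (Fin k), T.card ≤ t ∧
        ∀ z z' : Fin k → Fin m → ZMod p, (∀ v ∈ T, z v = z' v) → ψ z = ψ z' :=
    fun ψ h => (Finset.mem_filter.1 h).2
  let M : AddChar (Fin k → Fin m → ZMod p) ℂ → AddChar (Fin k → Fin m → ZMod p) ℂ → ℂ :=
    fun ψ φ => w4aM a (fun z => (ψ * φ⁻¹) z)
  have happ : ∀ (ψ φ : AddChar (Fin k → Fin m → ZMod p) ℂ) (z : Fin k → Fin m → ZMod p),
      (ψ * φ⁻¹) z = ψ z * (starRingEnd ℂ) (φ z) := by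
    intro ψ φ z
    rw [AddChar.mul_apply, AddChar.inv_apply, AddChar.map_neg_eq_conj]
  have hdet : ∀ (ψ φ : AddChar (Fin k → Fin m → ZMod p) ℂ) (T : Finset (Fin k)),
      (∀ z z' : Fin k → Fin m → ZMod p, (∀ v ∈ T, z v = z' v) → ψ z = ψ z') →
      (∀ z z' : Fin k → Fin m → ZMod p, (∀ v ∈ T, z v = z' v) → φ z = φ z') →
      ∀ z z' : Fin k → Fin m → ZMod p, (∀ v ∈ T, z v = z' v) → (ψ * φ⁻¹) z = (ψ * φ⁻¹) z' := by
    intro ψ φ T h1 h2 z z' h
    rw [happ, happ, h1 z z' h, h2 z z' h]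
  have hnorm : ∀ (φ : AddChar (Fin k → Fin m → ZMod p) ℂ) (z : Fin k → Fin m → ZMod p),
      (starRingEnd ℂ) (φ z) * φ z = 1 := by
    intro φ z
    rw [← Complex.normSq_eq_conj_mul_self, Complex.normSq_eq_norm_sq, AddChar.norm_apply]
    simp
  have hpsd := psd_of_classes s M ?_ ?_ ?_ c
  · -- conclusion
    have hN : (0 : ℝ) ≤ Fintype.card (Fin k → Fin m → ZMod p) := Nat.cast_nonneg _
    have hgs : ∀ z, (g z : ℂ) = ∑ ψ ∈ s, c ψ * ψ z := by
      intro z
      rw [hc1 z]
      symm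
      refine Finset.sum_subset (Finset.subset_univ _) fun ψ _ hψ => ?_
      have : c ψ = 0 := by
        by_contra h
        exact hψ (Finset.mem_filter.2 ⟨Finset.mem_univ _, hc2 ψ h⟩)
      rw [this, zero_mul]
    have hsq : ∀ z, ((g z ^ 2 : ℝ) : ℂ)
        = ∑ ψ ∈ s, ∑ φ ∈ s, c ψ * (starRingEnd ℂ) (c φ) * (ψ * φ⁻¹) z := by
      intro z
      have h1 : ((g z ^ 2 : ℝ) : ℂ) = (g z : ℂ) * (starRingEnd ℂ) (g z : ℂ) := by
        rw [Complex.conj_ofReal]; push_cast; ring
      rw [h1, hgs z, map_sum, Finset.sum_mul_sum]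
      refine Finset.sum_congr rfl fun ψ _ => Finset.sum_congr rfl fun φ _ => ?_
      rw [happ, map_mul]; ring
    have hsum : ((∑ z, (∑ J, pureComp (okD (m := m) a) (p : ℝ) (m + 2) J z) * g z ^ 2 : ℝ) : ℂ)
        = (Fintype.card (Fin k → Fin m → ZMod p) : ℝ) *
          ∑ ψ ∈ s, ∑ φ ∈ s, c ψ * (starRingEnd ℂ) (c φ) * M ψ φ := by
      have h1 : ((∑ z, (∑ J, pureComp (okD (m := m) a) (p : ℝ) (m + 2) J z) * g z ^ 2 : ℝ) : ℂ)
          = ∑ z, (w4aW a z : ℂ) * ((g z ^ 2 : ℝ) : ℂ) := by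
        unfold w4aW
        push_cast
        rfl
      rw [h1]
      simp only [hsq, Finset.mul_sum]
      rw [Finset.sum_comm]
      refine Finset.sum_congr rfl fun ψ _ => ?_
      rw [Finset.sum_comm]
      refine Finset.sum_congr rfl fun φ _ => ?_
      show _ = _ * (_ * w4aM a (fun z => (ψ * φ⁻¹) z))
      unfold w4aM
      have h2 : ((Fintype.card (Fin k → Fin m → ZMod p) : ℝ) : ℂ)
          = (Fintype.card (Fin k → Fin m → ZMod p) : ℂ) := by push_cast; rfl
      rw [h2, mul_left_comm, mul_div_cancel₀ _ w4a_card_ne, Finset.mul_sum]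
      refine Finset.sum_congr rfl fun z _ => ?_
      ring
    have hre := congrArg Complex.re hsum
    rw [Complex.ofReal_re, Complex.re_ofReal_mul] at hre
    rw [hre]
    exact mul_nonneg hN hpsd
  · -- h1
    intro ψ _
    show w4aM a (fun z => (ψ * ψ⁻¹) z) = 1
    have : (fun z => (ψ * ψ⁻¹) z) = fun _ : Fin k → Fin m → ZMod p => (1 : ℂ) := by
      funext z
      rw [happ, mul_comm, hnorm]
    rw [this]
    exact w4a_one hm a ha
  · -- h2
    intro ψ _ φ _
    show w4aM a (fun z => (φ * ψ⁻¹) z) = (starRingEnd ℂ) (w4aM a (fun z => (ψ * φ⁻¹) z))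
    unfold w4aM
    rw [map_div₀, map_sum, Complex.conj_natCast]
    congr 1
    refine Finset.sum_congr rfl fun z _ => ?_
    show (w4aW a z : ℂ) * (φ * ψ⁻¹) z = (starRingEnd ℂ) ((w4aW a z : ℂ) * (ψ * φ⁻¹) z)
    rw [happ, happ, map_mul, map_mul, Complex.conj_ofReal, Complex.conj_conj]
    ring
  · -- h3
    intro ψ hψ φ hφ χ hχ hne1 hne2
    obtain ⟨T1, hT1, hd1⟩ := hs ψ hψ
    obtain ⟨T2, hT2, hd2⟩ := hs φ hφ
    obtain ⟨T3, hT3, hd3⟩ := hs χ hχ
    let T := T1 ∪ T2 ∪ T3
    have hTc : T.card < m + 2 := by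
      have h1 := Finset.card_union_le (T1 ∪ T2) T3
      have h2 := Finset.card_union_le T1 T2
      show (T1 ∪ T2 ∪ T3).card < m + 2
      omega
    have hD1 : ∀ z z' : Fin k → Fin m → ZMod p, (∀ v ∈ T, z v = z' v) → ψ z = ψ z' :=
      fun z z' h => hd1 z z' fun v hv => h v
        (Finset.mem_union_left _ (Finset.mem_union_left _ hv))
    have hD2 : ∀ z z' : Fin k → Fin m → ZMod p, (∀ v ∈ T, z v = z' v) → φ z = φ z' :=
      fun z z' h => hd2 z z' fun v hv => h v
        (Finset.mem_union_left _ (Finset.mem_union_right _ hv))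
    have hD3 : ∀ z z' : Fin k → Fin m → ZMod p, (∀ v ∈ T, z v = z' v) → χ z = χ z' :=
      fun z z' h => hd3 z z' fun v hv => h v (Finset.mem_union_right _ hv)
    refine w4a_const hm a ha T hTc _ (hdet ψ χ T hD1 hD3) _ fun z hz => ?_
    have e1 := w4a_char hm a ha T hTc (ψ * φ⁻¹) (hdet ψ φ T hD1 hD2) hne1 z hz
    have e2 := w4a_char hm a ha T hTc (φ * χ⁻¹) (hdet φ χ T hD2 hD3) hne2 z hz
    show (ψ * χ⁻¹) z = w4aM a (fun z => (ψ * φ⁻¹) z) * w4aM a (fun z => (φ * χ⁻¹) z)
    rw [← e1, ← e2, happ, happ, happ]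
    calc ψ z * (starRingEnd ℂ) (χ z)
        = ψ z * ((starRingEnd ℂ) (φ z) * φ z) * (starRingEnd ℂ) (χ z) := by rw [hnorm, mul_one]
      _ = _ := by ring

end Pool.Agent.Lib.SDF
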