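import Pool.Agent.Lib.SDF.LowPosA

/-!
Row C1: the quadratic form of the pseudo-density is nonnegative on the low part.
-/

set_option autoImplicit false

namespace Pool.Agent.Lib.SDF

open Finset

variable {κ α S : Type*} [Fintype κ] [DecidableEq κ] [Fintype α] [DecidableEq α] [Fintype S]
  [DecidableEq S]

private theorem C1b_junta {o : S} {e : S → S → ℝ} (h : IsBasis o e) (t : ℕ) (y : κ → α)
    (x a : κ × α → S) (ha : a ∈ lowSet o t y) :
    Junta t (fun z : κ → S => E e a (fun p => if p.2 = y p.1 then z p.1 else x p)) := by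
  refine ⟨Finset.univ.filter fun v => a (v, y v) ≠ o, (Finset.mem_filter.1 ha).2, ?_⟩
  intro z z' hz
  refine Finset.prod_congr rfl fun p _ => ?_
  obtain ⟨v, c⟩ := p
  by_cases hc : c = y v
  · subst hc
    by_cases hv : a (v, y v) = o
    · simp only [hv, h.one]
    · simp only [if_true]
      rw [hz v (Finset.mem_filter.2 ⟨Finset.mem_univ _, hv⟩)]
  · simp [hc]

/-- By `resample_pattern` with `Φ x z = W (x ∘ y) * (low x) ^ 2`: for fixed `x` the function
`z ↦ low (x[y := z])` is a linear combination of the functions `z ↦ E e a (x[y := z])`, which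
depend on the at most `t` coordinates `v` with `a (v, y v) ≠ o` only. -/
theorem low_nonneg {o : S} {e : S → S → ℝ} (h : IsBasis o e) (W : (κ → S) → ℝ) (t : ℕ)
    (hW : ∀ g ∈ degLE κ S t, 0 ≤ ∑ z, W z * g z ^ 2) (y : κ → α) (b : (κ × α → S) → ℝ) :
    0 ≤ av (fun x : κ × α → S =>
      W (fun v => x (v, y v)) * (∑ a ∈ lowSet o t y, b a * E e a x) ^ 2) := by
  have hS : Nonempty S := ⟨o⟩
  have h1 := resample_pattern (fun (x : κ × α → S) (_ : κ → S) =>
    W (fun v => x (v, y v)) * (∑ a ∈ lowSet o t y, b a * E e a x) ^ 2) y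
  simp only [Finset.sum_const, Finset.card_univ, nsmul_eq_mul] at h1
  rw [← Finset.mul_sum] at h1
  have h2 : (0 : ℝ) < (Fintype.card (κ → S) : ℝ) := by exact_mod_cast Fintype.card_pos
  have h3 : 0 ≤ (Fintype.card (κ → S) : ℝ) * ∑ x : κ × α → S,
      W (fun v => x (v, y v)) * (∑ a ∈ lowSet o t y, b a * E e a x) ^ 2 := by
    rw [h1]
    refine Finset.sum_nonneg fun x _ => ?_
    have hg : (∑ a ∈ lowSet o t y, b a •
        (fun z : κ → S => E e a (fun p => if p.2 = y p.1 then z p.1 else x p))) ∈
          degLE κ S t :=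
      Submodule.sum_mem _ fun a ha => Submodule.smul_mem _ _
        (Submodule.subset_span (C1b_junta h t y x a ha))
    have h4 := hW _ hg
    refine h4.trans (le_of_eq (Finset.sum_congr rfl fun z _ => ?_))
    simp only [Finset.sum_apply, Pi.smul_apply, smul_eq_mul, if_true]
  unfold av
  exact div_nonneg (nonneg_of_mul_nonneg_right h3 h2) (Nat.cast_nonneg _)

end Pool.Agent.Lib.SDF
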