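import Pool.Agent.Lib.SDF.BasisProd
import Pool.Agent.Lib.SDF.LowPos

/-!
Rows C2, C4: lower bounds for the quadratic form of the pseudo-density.
-/

set_option autoImplicit false

namespace Pool.Agent.Lib.SDF

open Finset

variable {κ α S : Type*} [Fintype κ] [DecidableEq κ] [Fintype α] [DecidableEq α] [Fintype S]
  [DecidableEq S]

private theorem C2_key (a b η : ℝ) (hη : 0 < η) :
    2 * |a| * |b| ≤ η * a ^ 2 + 1 / η * b ^ 2 := by
  have h : 0 ≤ (η * |a| - |b|) ^ 2 / η := by positivity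
  have h2 : (η * |a| - |b|) ^ 2 / η = η * |a| ^ 2 - 2 * |a| * |b| + 1 / η * |b| ^ 2 := by
    field_simp
    ring
  rw [h2, sq_abs, sq_abs] at h
  linarith

private theorem C2_pt (w a b c η : ℝ) (hη : 0 < η) (hc : 0 ≤ c) (hw : |w| ≤ c) :
    w * a ^ 2 + (-(η * c) * a ^ 2 + (-(c * (1 + 1 / η))) * b ^ 2) ≤ w * (a + b) ^ 2 := by
  have h1 := C2_key a b η hη
  have h2 : -(c * (2 * |a| * |b|)) ≤ 2 * w * a * b := by
    have h3 : |2 * w * a * b| ≤ c * (2 * |a| * |b|) := by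
      have h4 : |2 * w * a * b| = |w| * (2 * |a| * |b|) := by
        rw [abs_mul, abs_mul, abs_mul, abs_two]
        ring
      rw [h4]
      exact mul_le_mul_of_nonneg_right hw (by positivity)
    have h5 := neg_abs_le (2 * w * a * b)
    linarith
  have h3 : c * (2 * |a| * |b|) ≤ c * (η * a ^ 2 + 1 / η * b ^ 2) :=
    mul_le_mul_of_nonneg_left h1 hc
  have h4 : 0 ≤ (w + c) * b ^ 2 := by
    have h5 : 0 ≤ w + c := by
      have := neg_abs_le w
      linarith
    positivity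
  nlinarith [h2, h3, h4]

/-- Row C2.  `g = g₁ + g₂` (low part, rest), `W g² ≥ W g₁² - c (η g₁² + g₂² / η) - c g₂²`,
`av g₁² ≤ av g²`, `av g₂² = ∑ a ∉ low, coef²`. -/
theorem form_lower {o : S} {e : S → S → ℝ} (h : IsBasis o e) (W : (κ → S) → ℝ) (c : ℝ)
    (hc : 0 ≤ c) (hWc : ∀ z, |W z| ≤ c) (t : ℕ)
    (hW : ∀ g ∈ degLE κ S t, 0 ≤ ∑ z, W z * g z ^ 2) (y : κ → α) (g : (κ × α → S) → ℝ)
    (η : ℝ) (hη : 0 < η) :
    -(η * c * av (fun x => g x ^ 2)
        + c * (1 + 1 / η) * ∑ a ∈ (lowSet o t y)ᶜ, coef e g a ^ 2)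
      ≤ av (fun x => W (fun v => x (v, y v)) * g x ^ 2) := by
  have hsplit : ∀ x, g x = (∑ a ∈ lowSet o t y, coef e g a * E e a x)
      + ∑ a ∈ (lowSet o t y)ᶜ, coef e g a * E e a x := by
    intro x
    rw [Finset.sum_add_sum_compl]
    exact expand h g x
  have h1 : 0 ≤ av (fun x => W (fun v => x (v, y v))
      * (∑ a ∈ lowSet o t y, coef e g a * E e a x) ^ 2) := low_nonneg h W t hW y (coef e g)
  have h2 : av (fun x => (∑ a ∈ (lowSet o t y)ᶜ, coef e g a * E e a x) ^ 2)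
      = ∑ a ∈ (lowSet o t y)ᶜ, coef e g a ^ 2 := parseval_part h (coef e g) _
  have h3 : av (fun x => (∑ a ∈ lowSet o t y, coef e g a * E e a x) ^ 2)
      ≤ av (fun x => g x ^ 2) := by
    rw [parseval_part h (coef e g), parseval h]
    exact Finset.sum_le_univ_sum_of_nonneg (fun a => sq_nonneg _)
  have hpt : ∀ x, W (fun v => x (v, y v)) * (∑ a ∈ lowSet o t y, coef e g a * E e a x) ^ 2
      + (-(η * c) * (∑ a ∈ lowSet o t y, coef e g a * E e a x) ^ 2
        + (-(c * (1 + 1 / η))) * (∑ a ∈ (lowSet o t y)ᶜ, coef e g a * E e a x) ^ 2)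
      ≤ W (fun v => x (v, y v)) * g x ^ 2 := by
    intro x
    rw [hsplit x]
    exact C2_pt _ _ _ c η hη hc (hWc _)
  have h4 := av_mono hpt
  rw [av_add, av_add, av_mul_left, av_mul_left, h2] at h4
  have h5 : η * c * av (fun x => (∑ a ∈ lowSet o t y, coef e g a * E e a x) ^ 2)
      ≤ η * c * av (fun x => g x ^ 2) :=
    mul_le_mul_of_nonneg_left h3 (by positivity)
  linarith

end Pool.Agent.Lib.SDF
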