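import Pool.Agent.Lib.SDF.Core
import Pool.Agent.Lib.SDF.DesignEx
import Pool.Agent.Lib.SDF.Defs
import Pool.Agent.Lib.MP_678664_lc_h67.Graph
import Pool.Agent.Lib.MP_678664_lc_SDP.Factor

/-!
The lower bound with free parameters.
-/

set_option autoImplicit false

namespace Pool.Agent.Lib.SDF

open Finset
open Pool.Agent.Lib.MP_678664_lc_h67 (Cons vert vert_inj rowGraph rowGraph_adj colSet colSet_inj
  card_colSet rowGraph_cliqueFree)

/-- A family of semidefinite programs of size `r` gives a factorisation of the slack matrix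
through positive semidefinite matrices of size `r + 1`. -/
theorem clique_factor {n k u r : ℕ} {ε : ℝ} (P : CliqueSDP n k u ε r) :
    ∃ (A : SimpleGraph (Fin n) → Matrix (Fin r ⊕ Unit) (Fin r ⊕ Unit) ℝ)
      (B : Finset (Fin n) → Matrix (Fin r ⊕ Unit) (Fin r ⊕ Unit) ℝ),
      (∀ G, G.CliqueFree u → (A G).PosSemidef) ∧
      (∀ S : Finset (Fin n), S.card = k → (B S).PosSemidef) ∧
      ∀ G, G.CliqueFree u → ∀ S : Finset (Fin n), S.card = k →
        (A G * B S).trace = 1 - ε - ∑ᶠ H ∈ Set.Iic G, P.wt S H := by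
  classical
  have key : ∀ G : SimpleGraph (Fin n), ∃ (Y : Matrix (Fin r) (Fin r) ℝ) (s : ℝ),
      G.CliqueFree u → (Y.PosSemidef ∧ 0 ≤ s ∧ ∀ S : Finset (Fin n), S.card = k →
        1 - ε - ∑ᶠ H ∈ Set.Iic G, P.wt S H
          = (Y * (P.A₀ + ∑ j, P.point S j • P.A j)).trace + s) := by
    intro G
    by_cases hG : G.CliqueFree u
    · by_cases hne : (Finset.univ.filter fun S : Finset (Fin n) => S.card = k).Nonempty
      · obtain ⟨Y, s, hY, hs, h⟩ := MP_678664_lc_SDP.psd_factor P.A₀ P.A P.c P.e
          (Finset.univ.filter fun S : Finset (Fin n) => S.card = k) hne P.point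
          (fun S hS => P.point_psd S (Finset.mem_filter.1 hS).2)
          (fun S hS => P.point_eq S (Finset.mem_filter.1 hS).2) (P.obj G) (P.obj0 G)
          (1 - ε) (fun y hy hye => P.sound G hG y hy hye)
        refine ⟨Y, s, fun _ => ⟨hY, hs, fun S hS => ?_⟩⟩
        rw [← h S (Finset.mem_filter.2 ⟨Finset.mem_univ _, hS⟩), P.point_val S hS G]
      · refine ⟨0, 0, fun _ => ⟨Matrix.PosSemidef.zero, le_rfl, fun S hS => ?_⟩⟩
        exact absurd ⟨S, Finset.mem_filter.2 ⟨Finset.mem_univ _, hS⟩⟩ hne
    · exact ⟨0, 0, fun h => absurd h hG⟩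
  choose Y s hYs using key
  refine ⟨fun G => Matrix.fromBlocks (Y G) 0 0 (Matrix.diagonal fun _ => s G),
    fun S => Matrix.fromBlocks (P.A₀ + ∑ j, P.point S j • P.A j) 0 0 (Matrix.diagonal fun _ => 1),
    fun G hG => MP_678664_lc_SDP.posSemidef_block _ _ (hYs G hG).1 (hYs G hG).2.1,
    fun S hS => MP_678664_lc_SDP.posSemidef_block _ _ (P.point_psd S hS) zero_le_one,
    fun G hG S hS => ?_⟩
  rw [(hYs G hG).2.2 S hS, Matrix.fromBlocks_multiply]
  simp [Matrix.trace, Matrix.diag, Fintype.sum_sum_type]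

section corr
variable {n k N : ℕ} {S : Type} [Fintype S] [DecidableEq S] [Nonempty S]

open Classical in
/-- The correlation of the test function with the indicator function of `H ≤ G_x`. -/
theorem corr (h : k * N ≤ n) (ok : Fin k → Fin k → S → S → Prop)
    (hsymm : ∀ v w s t, ok v w s t → ok w v t s) (W : (Fin k → S) → ℝ) (u : ℕ)
    (hloc : ∀ (T : Finset (Fin k)) (F : (Fin k → S) → ℝ), T.card < u →
        (∀ z z' : Fin k → S, (∀ v ∈ T, z v = z' v) → F z = F z') →
        ((∀ z, 0 ≤ F z) → 0 ≤ ∑ z, W z * F z) ∧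
        ((∀ z, Cons ok T z → F z = 1) → ∑ z, W z * F z = Fintype.card (Fin k → S)))
    (H : SimpleGraph (Fin n)) (hH : H.support.ncard < u) (y : Fin k → Fin N) :
    0 ≤ av (fun x : Fin k × Fin N → S => W (fun v => x (v, y v))
        * if H ≤ rowGraph h ok hsymm (fun v i => x (v, i)) then 1 else 0) ∧
    ((∀ a b, H.Adj a b → a ∈ colSet h y ∧ b ∈ colSet h y) →
      av (fun x : Fin k × Fin N → S => W (fun v => x (v, y v))
        * if H ≤ rowGraph h ok hsymm (fun v i => x (v, i)) then 1 else 0) = 1) := by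
  set T : Finset (Fin k) := Finset.univ.filter fun v => vert h v (y v) ∈ H.support with hT
  have hmem : ∀ v, v ∈ T ↔ vert h v (y v) ∈ H.support := fun v => by simp [hT]
  have hTu : T.card < u := by
    refine lt_of_le_of_lt ?_ hH
    rw [← Set.ncard_coe_finset, ← Set.ncard_image_of_injective _ (colSet_inj h y)]
    refine Set.ncard_le_ncard ?_ (Set.toFinite _)
    rintro _ ⟨v, hv, rfl⟩
    exact (hmem v).1 hv
  -- resampling
  have hres := resample_pattern (κ := Fin k) (α := Fin N) (S := S)
    (fun x z => W (fun v => x (v, y v))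
        * if H ≤ rowGraph h ok hsymm (fun v i => x (v, i)) then 1 else 0) y
  have hpat : ∀ (x : Fin k × Fin N → S) (z : Fin k → S),
      (fun v => (if (v, y v).2 = y (v, y v).1 then z (v, y v).1 else x (v, y v))) = z := by
    intro x z
    funext v
    simp
  have hS0 : (0 : ℝ) < Fintype.card (Fin k → S) := by exact_mod_cast Fintype.card_pos
  have hX0 : (0 : ℝ) < Fintype.card (Fin k × Fin N → S) := by exact_mod_cast Fintype.card_pos
  -- the function of the pattern for a fixed row
  let F : (Fin k × Fin N → S) → (Fin k → S) → ℝ := fun x z =>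
    if H ≤ rowGraph h ok hsymm (fun v i => if i = y v then z v else x (v, i)) then 1 else 0
  have hF0 : ∀ x z, 0 ≤ F x z := by
    intro x z
    show (0 : ℝ) ≤ if _ then 1 else 0
    split_ifs <;> norm_num
  have hFdep : ∀ x, ∀ z z' : Fin k → S, (∀ v ∈ T, z v = z' v) → F x z = F x z' := by
    intro x
    have hle : ∀ z z' : Fin k → S, (∀ v ∈ T, z v = z' v) →
        H ≤ rowGraph h ok hsymm (fun v i => if i = y v then z v else x (v, i)) →
        H ≤ rowGraph h ok hsymm (fun v i => if i = y v then z' v else x (v, i)) := by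
      intro z z' hzz hle a b hab
      obtain ⟨v, w, i, j, rfl, rfl, hvw, hok⟩ := hle hab
      rw [rowGraph_adj]
      refine ⟨hvw, ?_⟩
      have hkey : ∀ (v : Fin k) (i : Fin N), vert h v i ∈ H.support →
          (if i = y v then z v else x (v, i)) = (if i = y v then z' v else x (v, i)) := by
        intro v i hv
        by_cases hi : i = y v
        · subst hi
          rw [if_pos rfl, if_pos rfl]
          exact hzz v ((hmem v).2 hv)
        · rw [if_neg hi, if_neg hi]
      have hok' : ok v w (if i = y v then z v else x (v, i)) (if j = y w then z w else x (w, j)) :=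
        hok
      rwa [hkey v i ⟨_, hab⟩, hkey w j ⟨_, hab.symm⟩] at hok'
    intro z z' hzz
    show (if _ then (1 : ℝ) else 0) = if _ then 1 else 0
    refine if_congr ⟨hle z z' hzz, hle z' z fun v hv => (hzz v hv).symm⟩ rfl rfl
  have hsum : ∀ x : Fin k × Fin N → S, ∑ z : Fin k → S,
      (W (fun v => (if (v, y v).2 = y (v, y v).1 then z (v, y v).1 else x (v, y v)))
        * if H ≤ rowGraph h ok hsymm (fun v i =>
            (if (v, i).2 = y (v, i).1 then z (v, i).1 else x (v, i))) then 1 else 0)
      = ∑ z, W z * F x z := by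
    intro x
    refine Finset.sum_congr rfl fun z _ => ?_
    rw [hpat x z]
  have hav : av (fun x : Fin k × Fin N → S => W (fun v => x (v, y v))
        * if H ≤ rowGraph h ok hsymm (fun v i => x (v, i)) then 1 else 0)
      = (∑ x : Fin k × Fin N → S, ∑ z, W z * F x z)
        / (Fintype.card (Fin k × Fin N → S) * Fintype.card (Fin k → S)) := by
    rw [← Finset.sum_congr rfl fun x _ => hsum x, ← hres]
    simp only [Finset.sum_const, Finset.card_univ, nsmul_eq_mul]
    rw [← Finset.mul_sum]
    unfold av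
    field_simp
  rw [hav]
  refine ⟨?_, fun hcol => ?_⟩
  · refine div_nonneg (Finset.sum_nonneg fun x _ => (hloc T (F x) hTu (hFdep x)).1 (hF0 x)) ?_
    positivity
  · have h1 : ∀ x, ∑ z, W z * F x z = Fintype.card (Fin k → S) := by
      intro x
      refine (hloc T (F x) hTu (hFdep x)).2 fun z hc => ?_
      show (if _ then (1 : ℝ) else 0) = 1
      rw [if_pos]
      intro a b hab
      obtain ⟨ha, hb⟩ := hcol a b hab
      simp only [colSet, Finset.mem_image, Finset.mem_univ, true_and] at ha hb
      obtain ⟨v, rfl⟩ := ha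
      obtain ⟨w, rfl⟩ := hb
      have hvw : v ≠ w := by
        rintro rfl
        exact H.loopless.irrefl _ hab
      rw [rowGraph_adj]
      refine ⟨hvw, ?_⟩
      rw [if_pos rfl, if_pos rfl]
      exact hc v ((hmem v).2 ⟨_, hab⟩) w ((hmem w).2 ⟨_, hab.symm⟩) hvw
    rw [Finset.sum_congr rfl fun x _ => h1 x]
    simp only [Finset.sum_const, Finset.card_univ, nsmul_eq_mul]
    rw [div_self (by positivity)]

end corr

/-- The lower bound with free parameters. -/
theorem lower_param (k u : ℕ) (hu : 3 ≤ u) (ε : ℝ) (hε : 0 < ε) (hε1 : ε ≤ 1) :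
    ∃ c0 K1 δ : ℝ, 0 < c0 ∧ 0 < K1 ∧ 0 < δ ∧
      ∀ (n r : ℕ), Nonempty (CliqueSDP n k u ε r) →
        ∀ N s : ℕ, 0 < N → k * N ≤ n → K1 * (r + 1) < (1 + δ) ^ (2 * s) →
          c0 < (r + 1) * ((k * s : ℝ) / N) ^ ((u - 1) / 3 + 1) := by
  classical
  obtain ⟨S, _, _, _, ok, W, c, hc, hWc, hsymm, hno, hW1, hloc, hpsd⟩ :=
    exists_design_psd k u ((u - 1) / 3) hu (by omega)
  have hc0 : 0 < c := by linarith
  refine ⟨ε ^ 2 / (320 * c ^ 2 * (1 + 1) ^ 2), 256 * c ^ 3 * (1 + 1) ^ 3 / ε ^ 3,
    ε / (16 * c * (1 + 1)), by positivity, by positivity, by positivity, ?_⟩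
  rintro n r ⟨P⟩ N s hN hkn hs
  have : Nonempty (Fin N) := ⟨⟨0, hN⟩⟩
  obtain ⟨A, B, hA, hB, hAB⟩ := clique_factor P
  have hfree : ∀ x : Fin k → Fin N → S, (rowGraph hkn ok hsymm x).CliqueFree u := fun x =>
    rowGraph_cliqueFree hkn ok hsymm x u hu hno
  have hfin : ∀ (G : SimpleGraph (Fin n)) (T : Finset (Fin n)),
      ∑ᶠ H ∈ Set.Iic G, P.wt T H = ∑ H, P.wt T H * if H ≤ G then 1 else 0 := by
    intro G T
    rw [finsum_mem_eq_finite_toFinset_sum _ (Set.toFinite _)]
    simp only [mul_ite, mul_one, mul_zero]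
    rw [← Finset.sum_filter]
    refine Finset.sum_congr ?_ fun _ _ => rfl
    ext H
    simp
  have hval0 : ∀ (G : SimpleGraph (Fin n)) (T : Finset (Fin n)),
      0 ≤ ∑ᶠ H ∈ Set.Iic G, P.wt T H := by
    intro G T
    rw [hfin]
    exact Finset.sum_nonneg fun H _ => mul_nonneg (P.wt_nonneg T H) (by split_ifs <;> norm_num)
  have hcard : (Fintype.card (Fin r ⊕ Unit) : ℝ) = r + 1 := by
    simp
  have hmain := core (κ := Fin k) (α := Fin N) (ι := Fin r ⊕ Unit) W
    (fun x y => 1 - ε - ∑ᶠ H ∈ Set.Iic (rowGraph hkn ok hsymm (fun v i => x (v, i))),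
      P.wt (colSet hkn y) H)
    c 1 ε ((u - 1) / 3) hc zero_le_one hε hε1 hWc hpsd
    (fun x y => by
      have := hval0 (rowGraph hkn ok hsymm (fun v i => x (v, i))) (colSet hkn y)
      linarith)
    (fun y => by
      have h1 : ∀ x : Fin k × Fin N → S, W (fun v => x (v, y v)) * (1 - ε -
          ∑ᶠ H ∈ Set.Iic (rowGraph hkn ok hsymm (fun v i => x (v, i))), P.wt (colSet hkn y) H)
          = W (fun v => x (v, y v)) * (1 - ε) - ∑ H, P.wt (colSet hkn y) H *
            (W (fun v => x (v, y v)) *
              if H ≤ rowGraph hkn ok hsymm (fun v i => x (v, i)) then 1 else 0) := by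
        intro x
        rw [hfin, mul_sub, Finset.mul_sum]
        congr 1
        exact Finset.sum_congr rfl fun H _ => by ring
      rw [av_congr h1, av_sub, av_mul_right, av_pattern (fun z => W z) y, av_finset_sum]
      have h2 : av (fun z => W z) = 1 := by
        unfold av
        rw [hW1, div_self]
        exact_mod_cast Fintype.card_ne_zero
      rw [h2, one_mul]
      have h3 : ∀ H : SimpleGraph (Fin n), P.wt (colSet hkn y) H *
            (if H ≤ SimpleGraph.fromRel (fun a b => a ∈ colSet hkn y ∧ b ∈ colSet hkn y)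
              then (1 : ℝ) else 0)
          ≤ av (fun x : Fin k × Fin N → S => P.wt (colSet hkn y) H *
            (W (fun v => x (v, y v)) *
              if H ≤ rowGraph hkn ok hsymm (fun v i => x (v, i)) then 1 else 0)) := by
        intro H
        rw [av_mul_left]
        by_cases hH : H.support.ncard < u
        · obtain ⟨h4, h5⟩ := corr hkn ok hsymm W u hloc H hH y
          refine mul_le_mul_of_nonneg_left ?_ (P.wt_nonneg _ _)
          split_ifs with hle
          · rw [h5]
            intro a b hab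
            have := hle hab
            rw [SimpleGraph.fromRel_adj] at this
            rcases this.2 with h6 | h6
            · exact h6
            · exact h6.symm
          · exact h4
        · rw [P.wt_small _ H (not_lt.1 hH), zero_mul, zero_mul]
      have h6 := Finset.sum_le_sum fun H (_ : H ∈ Finset.univ) => h3 H
      have h7 := P.complete (colSet hkn y) (card_colSet hkn y)
        (SimpleGraph.fromRel (fun a b => a ∈ colSet hkn y ∧ b ∈ colSet hkn y)) (by
          intro a ha b hb hab
          rw [SimpleGraph.fromRel_adj]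
          exact ⟨hab, Or.inl ⟨ha, hb⟩⟩)
      rw [P.point_val _ (card_colSet hkn y), hfin] at h7
      linarith)
    (fun x => A (rowGraph hkn ok hsymm (fun v i => x (v, i)))) (fun y => B (colSet hkn y))
    (fun x => hA _ (hfree _)) (fun y => hB _ (card_colSet hkn y))
    (fun x y => hAB _ (hfree _) _ (card_colSet hkn y)) s (by rw [hcard]; exact hs)
  rw [hcard] at hmain
  simpa using hmain

end Pool.Agent.Lib.SDF
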