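import Pool.Agent.Lib.SDF.Deg

/-!
Row C3: the probability of the high part.
-/

set_option autoImplicit false

namespace Pool.Agent.Lib.SDF

open Finset

variable {κ α S ι : Type*} [Fintype κ] [DecidableEq κ] [Fintype α] [DecidableEq α] [Fintype S]
  [DecidableEq S] [Fintype ι] [DecidableEq ι]

private theorem C3_choose (o : S) (t : ℕ) (a : κ × α → S) (y : κ → α) (hy : a ∉ lowSet o t y) :
    ∃ v : Fin (t + 1) → κ, Function.Injective v ∧ ∀ j, a (v j, y (v j)) ≠ o := by
  have h1 : t + 1 ≤ (Finset.univ.filter fun v => a (v, y v) ≠ o).card := by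
    by_contra hc
    apply hy
    simp only [lowSet, Finset.mem_filter, Finset.mem_univ, true_and]
    omega
  obtain ⟨T, hT, hc⟩ := Finset.exists_subset_card_eq h1
  refine ⟨fun j => ((T.equivFinOfCardEq hc).symm j : κ), ?_, ?_⟩
  · intro i j hij
    exact (T.equivFinOfCardEq hc).symm.injective (Subtype.ext hij)
  · intro j
    have := hT ((T.equivFinOfCardEq hc).symm j).2
    simpa using this

/-- Row C3.  If `a ∉ lowSet o t y` there is an injective `φ : Fin (t + 1) → κ` with
`a (φ j, y (φ j)) ≠ o` for all `j`; for fixed injective `φ` the number of such `y`, times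
`N ^ (t + 1)`, is `∏ j, q (φ j)` times `N ^ k` with `q v = #{i | a (v, i) ≠ o}`; the sum over
all `φ` of `∏ j, q (φ j)` is `(∑ v, q v) ^ (t + 1)`. -/
theorem high_prob (o : S) (t : ℕ) (a : κ × α → S) :
    ((Finset.univ.filter fun y : κ → α => a ∉ lowSet o t y).card : ℝ)
        * (Fintype.card α : ℝ) ^ (t + 1)
      ≤ ((supp o a).card : ℝ) ^ (t + 1) * Fintype.card (κ → α) := by
  classical
  have hcard : (Finset.univ.filter fun y : κ → α => a ∉ lowSet o t y).card
        * (Fintype.card α) ^ (t + 1)
      ≤ (supp o a).card ^ (t + 1) * Fintype.card (κ → α) := by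
    set bad := Finset.univ.filter fun y : κ → α => a ∉ lowSet o t y with hbad
    have hb : ∀ y ∈ bad, a ∉ lowSet o t y := by
      intro y hy
      simpa [hbad] using hy
    rcases bad.eq_empty_or_nonempty with h0 | ⟨y0, hy0⟩
    · simp [h0]
    obtain ⟨v0, -⟩ := C3_choose o t a y0 (hb y0 hy0)
    have hch : ∀ y : κ → α, ∃ v : Fin (t + 1) → κ, a ∉ lowSet o t y →
        (Function.Injective v ∧ ∀ j, a (v j, y (v j)) ≠ o) := by
      intro y
      by_cases hy : a ∈ lowSet o t y
      · exact ⟨v0, fun h => absurd hy h⟩
      · obtain ⟨v, hv⟩ := C3_choose o t a y hy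
        exact ⟨v, fun _ => hv⟩
    choose v hv using hch
    have h1 : (bad ×ˢ (Finset.univ : Finset (Fin (t + 1) → α))).card
        ≤ ((Fintype.piFinset fun _ : Fin (t + 1) => supp o a) ×ˢ
          (Finset.univ : Finset (κ → α))).card := by
      apply Finset.card_le_card_of_injOn
        (fun p : (κ → α) × (Fin (t + 1) → α) =>
          ((fun j => (v p.1 j, p.1 (v p.1 j))), Function.extend (v p.1) p.2 p.1))
      · rintro ⟨y, w⟩ hp
        simp only [Finset.coe_product, Set.mem_prod, Finset.mem_coe] at hp
        simp only [Finset.coe_product, Set.mem_prod, Finset.mem_coe, Finset.mem_univ, and_true,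
          Fintype.mem_piFinset]
        intro j
        simp only [supp, Finset.mem_filter, Finset.mem_univ, true_and]
        exact (hv y (hb y hp.1)).2 j
      · rintro ⟨y, w⟩ hp ⟨y2, w2⟩ hp2 heq
        simp only [Finset.coe_product, Set.mem_prod, Finset.mem_coe] at hp hp2
        simp only [Prod.mk.injEq] at heq
        obtain ⟨he1, he2⟩ := heq
        have hvv : v y = v y2 := by
          funext j
          exact congrArg Prod.fst (congrFun he1 j)
        have hyy : ∀ j, y (v y j) = y2 (v y j) := by
          intro j
          have := congrArg Prod.snd (congrFun he1 j)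
          simpa [← hvv] using this
        have hinj := (hv y (hb y hp.1)).1
        rw [← hvv] at he2
        have hw : w = w2 := by
          funext j
          have := congrFun he2 (v y j)
          rwa [hinj.extend_apply, hinj.extend_apply] at this
        have hy : y = y2 := by
          funext u
          by_cases hu : ∃ j, v y j = u
          · obtain ⟨j, rfl⟩ := hu
            exact hyy j
          · have := congrFun he2 u
            rwa [Function.extend_apply' _ _ _ hu, Function.extend_apply' _ _ _ hu] at this
        rw [hy, hw]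
    simpa [Finset.card_product, Fintype.card_piFinset, Finset.card_univ] using h1
  exact_mod_cast hcard

end Pool.Agent.Lib.SDF
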