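import Mathlib

/-!
Choice of the parameters for linear programs (helper67's computation for a general predicate).
-/

set_option autoImplicit false

namespace Pool.Agent.Lib.SDF

open Finset Filter Topology

theorem lp_param_weak (k u : ℕ) (hu : 3 ≤ u) (huk : u ≤ k) (Q : ℕ → ℕ → ℝ → Prop)
    (hQ : ∃ B : ℝ, 1 ≤ B ∧ ∀ (n N r : ℕ) (ε : ℝ), 0 < N → k * N ≤ n → 0 ≤ ε →
      Q n r ε → ∀ (T L : ℝ) (t : ℕ), 1 ≤ L → 0 ≤ T →
      (1 - 1 / L) ^ t ≤ Real.exp (-T) → (t : ℝ) ≤ N →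
      ε - k * ((T + 2 * B ^ 2) / √L)
        ≤ (r + 1) * (B * (t / N) ^ u + (u + 1) * (B * Real.exp (-T)))) :
    ∃ B : ℝ, 1 ≤ B ∧ ∀ (n N r : ℕ) (ε : ℝ), 0 < N → k * N ≤ n → 0 ≤ ε →
      Q n r ε → ∀ (T L : ℝ) (t : ℕ), 1 ≤ L → 0 ≤ T →
      (1 - 1 / L) ^ t ≤ Real.exp (-T) → (t : ℝ) ≤ N →
      ε - k * ((T + 2 * B ^ 2) / √L) * k.choose 2
        ≤ (r + 1) * (k.choose 2 * (B * (t / N) ^ u + (u + 1) * (B * Real.exp (-T)))) := by
  obtain ⟨B, hB1, h⟩ := hQ
  refine ⟨B, hB1, ?_⟩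
  intro n N r ε hN hkn hε hF T L t hL hT ht htN
  have h1 := h n N r ε hN hkn hε hF T L t hL hT ht htN
  have hK1 : (1 : ℝ) ≤ k.choose 2 := by
    exact_mod_cast Nat.choose_pos (by omega : 2 ≤ k)
  have h2 : 0 ≤ (k : ℝ) * ((T + 2 * B ^ 2) / √L) := by positivity
  have h3 : 0 ≤ B * ((t : ℝ) / N) ^ u + (u + 1) * (B * Real.exp (-T)) := by
    have : 0 ≤ B := by linarith
    positivity
  have h4 : (k : ℝ) * ((T + 2 * B ^ 2) / √L)
      ≤ k * ((T + 2 * B ^ 2) / √L) * k.choose 2 := le_mul_of_one_le_right h2 hK1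
  have h5 : B * ((t : ℝ) / N) ^ u + (u + 1) * (B * Real.exp (-T))
      ≤ k.choose 2 * (B * (t / N) ^ u + (u + 1) * (B * Real.exp (-T))) :=
    le_mul_of_one_le_left h3 hK1
  have h6 : (0 : ℝ) ≤ (r : ℝ) + 1 := by positivity
  have h7 := mul_le_mul_of_nonneg_left h5 h6
  linarith

theorem lp_asym (k u : ℕ) (hu : 3 ≤ u) (huk : u ≤ k) (Q : ℕ → ℕ → ℝ → Prop)
    (hQ : ∃ B : ℝ, 1 ≤ B ∧ ∀ (n N r : ℕ) (ε : ℝ), 0 < N → k * N ≤ n → 0 ≤ ε →
      Q n r ε → ∀ (T L : ℝ) (t : ℕ), 1 ≤ L → 0 ≤ T →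
      (1 - 1 / L) ^ t ≤ Real.exp (-T) → (t : ℝ) ≤ N →
      ε - k * ((T + 2 * B ^ 2) / √L)
        ≤ (r + 1) * (B * (t / N) ^ u + (u + 1) * (B * Real.exp (-T)))) :
    ∃ c : ℝ, 0 < c ∧ ∀ (n r : ℕ) (ε : ℝ), 2 ≤ n → 0 < ε → ε ≤ 1 →
      Q n r ε →
      c * ε * (ε ^ 2 * n / Real.log n ^ 3) ^ u ≤ r + 1 := by
  obtain ⟨B, hB1, hlow⟩ := lp_param_weak k u hu huk Q hQ
  have hk3 : 3 ≤ k := hu.trans huk
  set K : ℝ := (k.choose 2 : ℝ) with hK
  have hK1 : 1 ≤ K := by
    rw [hK]; exact_mod_cast Nat.choose_pos (by omega : 2 ≤ k)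
  have hkR : (3 : ℝ) ≤ k := by exact_mod_cast hk3
  have huR : (3 : ℝ) ≤ u := by exact_mod_cast hu
  set A : ℝ := 2 * k * K * (1 + 2 * B ^ 2) with hA
  have hA1 : 1 ≤ A := by
    have h1 : 1 ≤ 1 + 2 * B ^ 2 := by nlinarith
    have h2 : 1 ≤ 2 * (k : ℝ) * K := by nlinarith
    have := mul_le_mul h2 h1 (by norm_num) (by positivity)
    rw [hA]; linarith
  have hApos : 0 < A := by linarith
  have hBpos : 0 < B := by linarith
  set D : ℝ := 4 * k * A ^ 2 * u ^ 3 with hD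
  have hD8 : 8 * (k : ℝ) ≤ D := by
    have h1 : (27 : ℝ) ≤ (u : ℝ) ^ 3 := by
      calc (27 : ℝ) = 3 ^ 3 := by norm_num
        _ ≤ (u : ℝ) ^ 3 := pow_le_pow_left₀ (by norm_num) huR 3
    have h2 : 1 ≤ A ^ 2 := one_le_pow₀ hA1
    have h3 : (27 : ℝ) ≤ A ^ 2 * (u : ℝ) ^ 3 := by nlinarith
    rw [hD]
    nlinarith
  have hDpos : 0 < D := by linarith
  set c0 : ℝ := 2 * K * B * (u + 2) with hc0
  have hc01 : 1 ≤ c0 := by
    have h1 : 1 ≤ K * B := by nlinarith
    rw [hc0]; nlinarith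
  have hc0pos : 0 < c0 := by linarith
  refine ⟨1 / (c0 * D ^ u), by positivity, ?_⟩
  intro n r ε hn hε hε1 hF
  have hnR : (2 : ℝ) ≤ n := by exact_mod_cast hn
  have hlogn : Real.log 2 ≤ Real.log n := Real.log_le_log (by norm_num) hnR
  have hlog2 : (0.69 : ℝ) < Real.log 2 := by linarith [Real.log_two_gt_d9]
  have hlognpos : 0 < Real.log n := by linarith
  set X : ℝ := ε ^ 2 * n / Real.log n ^ 3 with hX
  have hX0 : 0 ≤ X := by positivity
  -- if `X ≤ D` the bound is trivial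
  have htriv : X ≤ D → 1 / (c0 * D ^ u) * ε * X ^ u ≤ (r : ℝ) + 1 := by
    intro hXD
    have h1 : X ^ u ≤ D ^ u := pow_le_pow_left₀ hX0 hXD u
    have h2 : ε * X ^ u ≤ 1 * D ^ u := mul_le_mul hε1 h1 (by positivity) (by norm_num)
    have h3 : 1 / (c0 * D ^ u) * ε * X ^ u ≤ 1 := by
      rw [mul_assoc, one_div, inv_mul_le_iff₀ (by positivity), mul_one]
      calc ε * X ^ u ≤ 1 * D ^ u := h2
        _ ≤ c0 * D ^ u := mul_le_mul_of_nonneg_right hc01 (by positivity)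
    have : (0 : ℝ) ≤ r := Nat.cast_nonneg _
    linarith
  set N : ℕ := n / k with hN
  have hkpos : 0 < k := by omega
  have hkN : k * N ≤ n := Nat.mul_div_le n k
  have hnlt : n < k * (N + 1) := by
    have := Nat.lt_mul_div_succ n hkpos
    rw [hN]; exact this
  by_cases hN2 : N < 2
  · -- small `n`
    apply htriv
    have h1 : (n : ℝ) ≤ 2 * k := by
      have : n ≤ 2 * k := by nlinarith
      exact_mod_cast this
    have h2 : (0.69 : ℝ) ^ 3 ≤ Real.log n ^ 3 := pow_le_pow_left₀ (by norm_num) (by linarith) 3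
    have h3 : X ≤ 8 * k := by
      rw [hX, div_le_iff₀ (by positivity)]
      have h4 : ε ^ 2 * n ≤ 1 * (2 * k) := mul_le_mul (by nlinarith) h1 (by positivity) (by norm_num)
      have h5 : 8 * (k : ℝ) * (0.69 : ℝ) ^ 3 ≤ 8 * k * Real.log n ^ 3 :=
        mul_le_mul_of_nonneg_left h2 (by positivity)
      have h6 : 1 * (2 * (k : ℝ)) ≤ 8 * k * (0.69 : ℝ) ^ 3 := by nlinarith
      linarith
    linarith
  · push Not at hN2
    have hNR : (2 : ℝ) ≤ N := by exact_mod_cast hN2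
    have hNpos : (0 : ℝ) < N := by linarith
    have hlogN : Real.log 2 ≤ Real.log N := Real.log_le_log (by norm_num) hNR
    have hNn : (N : ℝ) ≤ n := by
      exact_mod_cast (Nat.div_le_self n k)
    have hlogNn : Real.log N ≤ Real.log n := Real.log_le_log hNpos hNn
    set T : ℝ := u * Real.log N with hT
    have hT1 : 1 ≤ T := by rw [hT]; nlinarith
    have hTpos : 0 < T := by linarith
    set s : ℝ := A * T / ε with hs
    have hs1 : 1 ≤ s := by
      rw [hs, le_div_iff₀ hε]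
      have : 1 ≤ A * T := by nlinarith
      linarith
    have hspos : 0 < s := by linarith
    set L : ℝ := s ^ 2 with hL
    have hL1 : 1 ≤ L := one_le_pow₀ hs1
    have hLpos : 0 < L := by linarith
    have hsqrt : √L = s := by rw [hL]; exact Real.sqrt_sq hspos.le
    set t : ℕ := ⌈L * T⌉₊ with ht
    have htLT : L * T ≤ t := Nat.le_ceil _
    have hLT1 : 1 ≤ L * T := by nlinarith
    have ht1 : (1 : ℝ) ≤ t := by linarith
    have htpos : (0 : ℝ) < t := by linarith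
    have ht2 : (t : ℝ) ≤ 2 * (L * T) := by
      have := Nat.ceil_lt_add_one (by positivity : 0 ≤ L * T)
      rw [← ht] at this
      linarith
    -- `t ε² ≤ 2 A² u³ (log n)³`
    have hT3 : T ^ 3 ≤ u ^ 3 * Real.log n ^ 3 := by
      rw [← mul_pow]
      refine pow_le_pow_left₀ hTpos.le ?_ 3
      rw [hT]
      exact mul_le_mul_of_nonneg_left hlogNn (by positivity)
    have htε : (t : ℝ) * ε ^ 2 ≤ 2 * A ^ 2 * (u ^ 3 * Real.log n ^ 3) := by
      calc (t : ℝ) * ε ^ 2 ≤ 2 * (L * T) * ε ^ 2 := mul_le_mul_of_nonneg_right ht2 (by positivity)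
        _ = 2 * A ^ 2 * T ^ 3 := by rw [hL, hs]; field_simp
        _ ≤ 2 * A ^ 2 * (u ^ 3 * Real.log n ^ 3) := mul_le_mul_of_nonneg_left hT3 (by positivity)
    have hn2 : (n : ℝ) ≤ 2 * k * N := by
      have h1 : n ≤ 2 * k * N := by nlinarith
      exact_mod_cast h1
    have hXt : X * t ≤ D * N := by
      have h1 : X * t = (t * ε ^ 2) * n / Real.log n ^ 3 := by rw [hX]; ring
      rw [h1, div_le_iff₀ (by positivity)]
      calc (t * ε ^ 2) * n ≤ (2 * A ^ 2 * (u ^ 3 * Real.log n ^ 3)) * (2 * k * N) :=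
            mul_le_mul htε hn2 (by positivity) (by positivity)
        _ = D * N * Real.log n ^ 3 := by rw [hD]; ring
    by_cases htN : (t : ℝ) ≤ N
    · have hexp : Real.exp (-T) = (1 / N : ℝ) ^ u := by
        rw [hT, Real.exp_neg, Real.exp_nat_mul, Real.exp_log hNpos, one_div, inv_pow]
      have hpow : (1 - 1 / L) ^ t ≤ Real.exp (-T) := by
        have h1 : 1 - 1 / L ≤ Real.exp (-(1 / L)) := Real.one_sub_le_exp_neg _
        have h0 : 0 ≤ 1 - 1 / L := by
          rw [sub_nonneg, div_le_one hLpos]; exact hL1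
        calc (1 - 1 / L) ^ t ≤ Real.exp (-(1 / L)) ^ t := pow_le_pow_left₀ h0 h1 t
          _ = Real.exp (-(t / L)) := by rw [← Real.exp_nat_mul]; congr 1; ring
          _ ≤ Real.exp (-T) := by
            apply Real.exp_le_exp.2
            apply neg_le_neg
            rw [le_div_iff₀ hLpos]
            linarith [mul_comm L T]
      have hmain := hlow n N r ε (by omega) hkN hε.le hF T L t hL1 hTpos.le hpow htN
      rw [hsqrt] at hmain
      have hδ : k * ((T + 2 * B ^ 2) / s) * K ≤ ε / 2 := by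
        have h1 : T + 2 * B ^ 2 ≤ T * (1 + 2 * B ^ 2) := by nlinarith [sq_nonneg B]
        have h2 : k * ((T + 2 * B ^ 2) / s) * K = (k * K * (T + 2 * B ^ 2)) / s := by ring
        rw [h2, div_le_iff₀ hspos]
        have h3 : ε / 2 * s = k * K * (T * (1 + 2 * B ^ 2)) := by
          rw [hs, hA]; field_simp
        rw [h3]
        exact mul_le_mul_of_nonneg_left h1 (by positivity)
      have htN' : (1 / N : ℝ) ^ u ≤ (t / N : ℝ) ^ u :=
        pow_le_pow_left₀ (by positivity) (div_le_div_of_nonneg_right ht1 hNpos.le) u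
      have hrhs : K * (B * (t / N) ^ u + (u + 1) * (B * Real.exp (-T)))
          ≤ c0 / 2 * (t / N) ^ u := by
        rw [hexp]
        have h1 : (u + 1) * (B * (1 / N : ℝ) ^ u) ≤ (u + 1) * (B * (t / N : ℝ) ^ u) :=
          mul_le_mul_of_nonneg_left (mul_le_mul_of_nonneg_left htN' hBpos.le) (by positivity)
        calc K * (B * (t / N) ^ u + (u + 1) * (B * (1 / N : ℝ) ^ u))
            ≤ K * (B * (t / N) ^ u + (u + 1) * (B * (t / N : ℝ) ^ u)) :=
              mul_le_mul_of_nonneg_left (by linarith) (by linarith)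
          _ = c0 / 2 * (t / N) ^ u := by rw [hc0]; ring
      have hr1 : (0 : ℝ) < r + 1 := by positivity
      have h5 : ε / 2 ≤ (r + 1) * (c0 / 2 * (t / N) ^ u) := by
        calc ε / 2 ≤ ε - k * ((T + 2 * B ^ 2) / s) * K := by linarith
          _ ≤ _ := hmain
          _ ≤ _ := mul_le_mul_of_nonneg_left hrhs hr1.le
      -- conclude
      have hXle : X ≤ D * (N / t) := by
        rw [← mul_div_assoc, le_div_iff₀ htpos]; exact hXt
      have h6 : X ^ u ≤ D ^ u * (N / t) ^ u := by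
        rw [← mul_pow]; exact pow_le_pow_left₀ hX0 hXle u
      have h7 : ((t : ℝ) / N) ^ u * ((N : ℝ) / t) ^ u = 1 := by
        rw [← mul_pow]
        have : (t : ℝ) / N * (N / t) = 1 := by field_simp
        rw [this, one_pow]
      have h8 : ε * (N / t : ℝ) ^ u ≤ (r + 1) * c0 := by
        have h9 := mul_le_mul_of_nonneg_right h5 (by positivity : 0 ≤ 2 * ((N : ℝ) / t) ^ u)
        calc ε * (N / t : ℝ) ^ u = ε / 2 * (2 * ((N : ℝ) / t) ^ u) := by ring
          _ ≤ (r + 1) * (c0 / 2 * (t / N) ^ u) * (2 * ((N : ℝ) / t) ^ u) := h9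
          _ = (r + 1) * c0 * (((t : ℝ) / N) ^ u * ((N : ℝ) / t) ^ u) := by ring
          _ = (r + 1) * c0 := by rw [h7, mul_one]
      rw [mul_assoc, one_div, inv_mul_le_iff₀ (by positivity)]
      calc ε * X ^ u ≤ ε * (D ^ u * (N / t) ^ u) := mul_le_mul_of_nonneg_left h6 hε.le
        _ = D ^ u * (ε * (N / t : ℝ) ^ u) := by ring
        _ ≤ D ^ u * ((r + 1) * c0) := mul_le_mul_of_nonneg_left h8 (by positivity)
        _ = c0 * D ^ u * (r + 1) := by ring
    · push Not at htN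
      apply htriv
      have h1 : X * N ≤ D * N := (mul_le_mul_of_nonneg_left htN.le hX0).trans hXt
      exact le_of_mul_le_mul_right h1 hNpos

end Pool.Agent.Lib.SDF
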