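import Pool.Agent.Lib.SDF.Defs
import Pool.Agent.Lib.SDF.LinAsym
import Pool.Agent.Lib.MP_678664_lc_h67b.Graph

/-!
The lower bound for linear programs, that is, for diagonal matrices (helper67's argument).
-/

set_option autoImplicit false

namespace Pool.Agent.Lib.SDF

open Finset Pool.Agent.Lib.MP_678664_lc_h67 Pool.Agent.Lib.MP_678664_lc_h67b

variable {n k N : ℕ} {S : Type}

theorem linear_psd {n k u r : ℕ} {ε : ℝ} (F : CliqueSDP n k u ε r) (hF : F.IsLinear) :
    ∃ (a : Fin r → Fin F.d → ℝ) (b : Fin r → ℝ), ∀ y : Fin F.d → ℝ,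
      (F.A₀ + ∑ i, y i • F.A i).PosSemidef ↔ ∀ j, a j ⬝ᵥ y ≤ b j := by
  classical
  refine ⟨fun j i => - F.A i j j, fun j => F.A₀ j j, fun y => ?_⟩
  have key : F.A₀ + ∑ i, y i • F.A i
      = Matrix.diagonal fun j => F.A₀ j j - (fun i => - F.A i j j) ⬝ᵥ y := by
    ext j l
    by_cases hjl : j = l
    · subst hjl
      simp only [Matrix.add_apply, Matrix.diagonal_apply_eq, Matrix.sum_apply, Matrix.smul_apply,
        smul_eq_mul, dotProduct]
      rw [sub_eq_add_neg, ← Finset.sum_neg_distrib]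
      congr 1
      exact Finset.sum_congr rfl fun i _ => by ring
    · rw [Matrix.diagonal_apply_ne _ hjl]
      simp only [Matrix.add_apply, Matrix.sum_apply, Matrix.smul_apply, smul_eq_mul]
      rw [hF.1 hjl, Finset.sum_eq_zero, add_zero]
      intro i _
      rw [hF.2 i hjl, mul_zero]
  rw [key, Matrix.posSemidef_diagonal_iff]
  refine forall_congr' fun j => ?_
  rw [sub_nonneg]

theorem lin_param (k u : ℕ) (hu : 3 ≤ u) (huk : u ≤ k) :
    ∃ B : ℝ, 1 ≤ B ∧ ∀ (n N r : ℕ) (ε : ℝ), 0 < N → k * N ≤ n → 0 ≤ ε →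
      (∃ P : CliqueSDP n k u ε r, P.IsLinear) → ∀ (T L : ℝ) (t : ℕ), 1 ≤ L → 0 ≤ T →
      (1 - 1 / L) ^ t ≤ Real.exp (-T) → (t : ℝ) ≤ N →
      ε - k * ((T + 2 * B ^ 2) / √L)
        ≤ (r + 1) * (B * (t / N) ^ u + (u + 1) * (B * Real.exp (-T))) := by
  classical
  obtain ⟨S, hS1, hS2, ok, q, hq, hsymm, hext, hno⟩ := exists_design k u hu
  obtain ⟨B0, hB0⟩ := exists_bound (κ := Fin k) ok q u
  refine ⟨max B0 1, le_max_right _ _, ?_⟩
  have hB : ∀ (F : Finset (Finset (Fin k))) z, |∑ J ∈ F, pureComp ok q u J z| ≤ max B0 1 :=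
    fun F z => (hB0 F z).trans (le_max_left _ _)
  set B := max B0 1
  intro n N r ε hN hkn hε hF T L t hL hT ht htN
  obtain ⟨F, hlin⟩ := hF
  have : Nonempty (Fin N) := ⟨⟨0, hN⟩⟩
  obtain ⟨Fa, Fb, hab⟩ := linear_psd F hlin
  have hval : ∀ (G : SimpleGraph (Fin n)) (T : Finset (Fin n)),
      ∑ᶠ H ∈ Set.Iic G, F.wt T H = ∑ H, if H ≤ G then F.wt T H else 0 := by
    intro G T
    rw [finsum_mem_eq_finite_toFinset_sum _ (Set.toFinite _), ← Finset.sum_filter]
    refine Finset.sum_congr ?_ fun _ _ => rfl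
    ext H
    simp
  -- the points of the columns
  let pt : (Fin k → Fin N) → Fin F.d → ℝ := fun y => F.point (colSet hkn y)
  have hpt1 : ∀ y i, Fa i ⬝ᵥ pt y ≤ Fb i := fun y =>
    (hab _).1 (F.point_psd _ (card_colSet hkn y))
  have hpt2 : ∀ y j, F.c j ⬝ᵥ pt y = F.e j := fun y => F.point_eq _ (card_colSet hkn y)
  -- the factorization
  have hfk : ∀ x : Fin k → Fin N → S, ∃ l : Fin (r + 1) → ℝ, (∀ i, 0 ≤ l i) ∧
      ∀ y : Fin F.d → ℝ, (∀ j, F.c j ⬝ᵥ y = F.e j) →
        (1 - ε) - (F.obj (rowGraph hkn ok hsymm x) ⬝ᵥ y + F.obj0 (rowGraph hkn ok hsymm x))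
          = l 0 + ∑ i : Fin r, l i.succ * (Fb i - Fa i ⬝ᵥ y) := by
    intro x
    have y0 : Fin k → Fin N := fun _ => ⟨0, hN⟩
    exact farkas_affine Fa Fb F.c F.e _ _ (1 - ε) (pt y0) (hpt1 y0) (hpt2 y0)
      (fun y h1 h2 => F.sound _ (rowGraph_cliqueFree hkn ok hsymm x u hu hno) y ((hab y).2 h1) h2)
  choose l hl0 hl using hfk
  have hcoef : ∀ H y, 0 ≤ F.wt (colSet hkn y) H := fun H y => F.wt_nonneg _ _
  let W : (Fin k → S) → ℝ := fun z => ∑ J, pureComp ok q u J z
  set Q : ℝ := (Fintype.card (Fin k → Fin N → S) : ℝ) with hQ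
  have hWsum : ∀ y : Fin k → Fin N, ∑ x : Fin k → Fin N → S, W (fun v => x v (y v)) = Q := by
    intro y
    have h1 := uniform_pattern (α := Fin N) (fun z => ∑ J, pureComp ok q u J z) y
    rw [sum_test ok hsymm q u hext (by omega)] at h1
    have hZ : (0 : ℝ) < Fintype.card (Fin k → S) := by exact_mod_cast Fintype.card_pos
    rw [mul_comm] at h1
    exact mul_right_cancel₀ hZ.ne' h1
  -- the correlations of the test function with the indicator functions
  have htau : ∀ (H : SimpleGraph (Fin n)) (y : Fin k → Fin N), H.support.ncard < u →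
      0 ≤ ∑ x, sub hkn ok hsymm H x * W (fun v => x v (y v)) ∧
      (H ≤ clq (colSet hkn y) → ∑ x, sub hkn ok hsymm H x * W (fun v => x v (y v)) = Q) := by
    intro H y hH
    let I : Finset (Fin k) := univ.filter fun v => vert hkn v (y v) ∈ H.support
    have hI : ∀ v, v ∈ I ↔ vert hkn v (y v) ∈ H.support := fun v => by simp [I]
    have hIu : I.card < u := by
      refine lt_of_le_of_lt ?_ hH
      rw [← Set.ncard_coe_finset, ← Set.ncard_image_of_injective _ (colSet_inj hkn y)]
      refine Set.ncard_le_ncard ?_ (Set.toFinite _)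
      rintro _ ⟨v, hv, rfl⟩
      exact (hI v).1 hv
    have h1 := reduce (pureComp ok q u) (fun J g hg z => pure_mean ok hsymm q u hext J g hg z)
      (sub hkn ok hsymm H) y I
      (fun g hg x s => sub_update hkn ok hsymm H y g (fun h' => hg ((hI g).2 h')) x s)
    have h2 := reduce (pureComp ok q u) (fun J g hg z => pure_mean ok hsymm q u hext J g hg z)
      (fun _ : Fin k → Fin N → S => (1 : ℝ)) y I (fun _ _ _ _ => rfl)
    simp only [sum_pure ok q u I hIu, one_mul] at h1 h2
    refine ⟨?_, fun hle => ?_⟩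
    · rw [h1]
      exact Finset.sum_nonneg fun x _ => mul_nonneg (sub_nonneg' _ _ _ _ _) (rho_nonneg ok q hq _ _)
    · rw [h1, Finset.sum_congr rfl fun x _ => sub_mul_rho hkn ok hsymm H y hle q I hI x, ← h2]
      exact hWsum y
  have hmain := core' (κ := Fin k) (α := Fin N) u (by simpa using huk) (pureComp ok q u) B
    (fun J g hg z => pure_mean ok hsymm q u hext J g hg z) hB
    (fun I hI z => by rw [sum_pure ok q u I hI]; exact rho_nonneg ok q hq I z)
    T L hL hT t ht (by simpa using htN)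
    (fun x y => (1 - ε) - (∑ H, if H ≤ rowGraph hkn ok hsymm x then F.wt (colSet hkn y) H else 0)) ε
    (fun x y => by
      have : 0 ≤ ∑ H, if H ≤ rowGraph hkn ok hsymm x then F.wt (colSet hkn y) H else 0 :=
        Finset.sum_nonneg fun H _ => by
          split_ifs
          · exact hcoef H y
          · exact le_rfl
      linarith)
    (fun y => by
      have h1 : ∀ x : Fin k → Fin N → S,
          ((1 - ε) - (∑ H, if H ≤ rowGraph hkn ok hsymm x then F.wt (colSet hkn y) H else 0))
            * ∑ J, pureComp ok q u J (fun v => x v (y v))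
          = (1 - ε) * W (fun v => x v (y v))
            - ∑ H, F.wt (colSet hkn y) H * (sub hkn ok hsymm H x * W (fun v => x v (y v))) := by
        intro x
        rw [sub_mul, Finset.sum_mul]
        congr 1
        refine Finset.sum_congr rfl fun H _ => ?_
        unfold sub
        split_ifs
        · rw [one_mul]
        · simp only [zero_mul, mul_zero]
      rw [Finset.sum_congr rfl fun x _ => h1 x, Finset.sum_sub_distrib, ← Finset.mul_sum,
        hWsum y, Finset.sum_comm]
      have h2 : ∀ H : SimpleGraph (Fin n),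
          (if H ≤ clq (colSet hkn y) then F.wt (colSet hkn y) H else 0) * Q
          ≤ ∑ x : Fin k → Fin N → S,
            F.wt (colSet hkn y) H * (sub hkn ok hsymm H x * W (fun v => x v (y v))) := by
        intro H
        rw [← Finset.mul_sum]
        by_cases hH : H.support.ncard < u
        · obtain ⟨h3, h4⟩ := htau H y hH
          split_ifs with hle
          · rw [h4 hle]
          · rw [zero_mul]
            exact mul_nonneg (hcoef H y) h3
        · have h5 : F.wt (colSet hkn y) H = 0 := F.wt_small _ H (not_lt.1 hH)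
          rw [h5]
          simp
      have h8 : Q ≤ ∑ H, ∑ x : Fin k → Fin N → S,
            F.wt (colSet hkn y) H * (sub hkn ok hsymm H x * W (fun v => x v (y v))) := by
        refine le_trans ?_ (Finset.sum_le_sum fun H _ => h2 H)
        rw [← Finset.sum_mul]
        have h9 := F.complete (colSet hkn y) (card_colSet hkn y) (clq (colSet hkn y))
          (fun a ha b hb hab => ⟨ha, hb, hab⟩)
        rw [F.point_val _ (card_colSet hkn y), hval] at h9
        have hQ0 : 0 ≤ Q := Nat.cast_nonneg _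
        nlinarith
      linarith)
    (r + 1)
    (fun i x => l x i)
    (fun i y => Fin.cases (motive := fun _ => ℝ) 1 (fun i' => Fb i' - Fa i' ⬝ᵥ pt y) i)
    (fun i x => hl0 x i)
    (fun i y => by
      refine Fin.cases ?_ ?_ i
      · simp
      · intro i'
        simp only [Fin.cases_succ]
        linarith [hpt1 y i'])
    (fun x y => by
      rw [Fin.sum_univ_succ]
      simp only [Fin.cases_zero, Fin.cases_succ, mul_one]
      rw [← hl x (pt y) (hpt2 y), F.point_val _ (card_colSet hkn y), hval])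
  simpa using hmain

/-- The final form. -/
theorem lin_main (k u : ℕ) (hu : 3 ≤ u) (huk : u ≤ k) (ε : ℝ) (hε : 0 < ε) (hε1 : ε ≤ 1) :
    ∃ c : ℝ, 0 < c ∧ ∀ n r : ℕ, 2 ≤ n → (∃ P : CliqueSDP n k u ε r, P.IsLinear) →
      c * (n / Real.log n ^ 3) ^ u ≤ r + 1 := by
  obtain ⟨c, hc, h⟩ := lp_asym k u hu huk (fun n r ε => ∃ P : CliqueSDP n k u ε r, P.IsLinear)
    (lin_param k u hu huk)
  refine ⟨c * ε * (ε ^ 2) ^ u, by positivity, fun n r hn hP => ?_⟩
  have h1 := h n r ε hn hε hε1 hP
  have h2 : ε ^ 2 * n / Real.log n ^ 3 = ε ^ 2 * (n / Real.log n ^ 3) := by ring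
  rw [h2, mul_pow, ← mul_assoc] at h1
  exact h1

end Pool.Agent.Lib.SDF
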