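import Pool.Agent.Lib.SDF.Base

/-!
Row C1a: resampling the pattern.
-/

set_option autoImplicit false

namespace Pool.Agent.Lib.SDF

open Finset

variable {κ α S : Type*} [Fintype κ] [DecidableEq κ] [Fintype α] [DecidableEq α] [Fintype S]
  [DecidableEq S]

set_option linter.unusedSectionVars false in
private theorem C1a_invol (y : κ → α) : Function.Involutive
    (fun q : (κ × α → S) × (κ → S) =>
      ((fun p => if p.2 = y p.1 then q.2 p.1 else q.1 p, fun v => q.1 (v, y v)) :
        (κ × α → S) × (κ → S))) := by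
  rintro ⟨x, z⟩
  refine Prod.ext ?_ ?_
  · funext p
    obtain ⟨v, c⟩ := p
    by_cases h : c = y v
    · subst h
      simp
    · simp [h]
  · funext v
    simp

/-- The pattern of a uniform row at a fixed pointer is uniform: resample the coordinates
`(v, y v)`.  (The involution `(x, z) ↦ (x[y := z], x ∘ y)` of `(κ × α → S) × (κ → S)`; see
`uniform_pattern` in `MP_678664_lc_h67.Core`.) -/
theorem resample_pattern (Φ : (κ × α → S) → (κ → S) → ℝ) (y : κ → α) :
    ∑ x : κ × α → S, ∑ z : κ → S, Φ x z
      = ∑ x : κ × α → S, ∑ z : κ → S,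
          Φ (fun p => if p.2 = y p.1 then z p.1 else x p) (fun v => x (v, y v)) := by
  have h1 := Fintype.sum_prod_type' (fun (x : κ × α → S) (z : κ → S) => Φ x z)
  have h2 := Fintype.sum_prod_type' (fun (x : κ × α → S) (z : κ → S) =>
    Φ (fun p => if p.2 = y p.1 then z p.1 else x p) (fun v => x (v, y v)))
  refine h1.symm.trans (Eq.trans ?_ h2)
  exact (Equiv.sum_comp (C1a_invol (S := S) y).toPerm
    (fun q : (κ × α → S) × (κ → S) => Φ q.1 q.2)).symm

/-- The average of a function of the pattern. -/
theorem av_pattern [Nonempty S] (H : (κ → S) → ℝ) (y : κ → α) :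
    av (fun x : κ × α → S => H (fun v => x (v, y v))) = av H := by
  have h := resample_pattern (fun (_ : κ × α → S) z => H z) y
  simp only [Finset.sum_const, Finset.card_univ, nsmul_eq_mul] at h
  rw [← Finset.mul_sum] at h
  have h1 : (Fintype.card (κ × α → S) : ℝ) ≠ 0 := by exact_mod_cast Fintype.card_ne_zero
  have h2 : (Fintype.card (κ → S) : ℝ) ≠ 0 := by exact_mod_cast Fintype.card_ne_zero
  unfold av
  rw [div_eq_div_iff h1 h2, mul_comm, ← h, mul_comm]

end Pool.Agent.Lib.SDF
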