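import Pool.Agent.Lib.SDF.Graph
import Pool.Agent.Lib.SDF.Asym
import Pool.Agent.Lib.SDF.Linear
import Pool.Agent.Lib.MP_678664_lc_h67b.Upper

/-!
The final statement on semidefinite programs for the gap clique problem.
-/

set_option autoImplicit false

namespace Pool.Agent.Lib.SDF

open Pool.Agent.Lib.MP_678664_lc_h67b (CliqueLP clq clq_not_cliqueFree)

/-- A family with gap `ε` is a family with every smaller gap. -/
theorem clique_sdp_mono {n k u r : ℕ} {ε ε' : ℝ} (h : ε' ≤ ε)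
    (F : CliqueSDP n k u ε r) : Nonempty (CliqueSDP n k u ε' r) :=
  ⟨{ F with sound := fun G hG y hy he => (F.sound G hG y hy he).trans (by linarith) }⟩

/-- A family of linear programs is a family of semidefinite programs with diagonal matrices. -/
theorem sdp_of_lp {n k u r : ℕ} {ε : ℝ} (F : CliqueLP n k u ε r) :
    ∃ P : CliqueSDP n k u ε r, P.IsLinear := by
  classical
  have key : ∀ y : Fin F.d → ℝ,
      Matrix.diagonal F.b + ∑ i, y i • (- Matrix.diagonal fun j => F.a j i)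
        = Matrix.diagonal fun j => F.b j - F.a j ⬝ᵥ y := by
    intro y
    ext j l
    by_cases hjl : j = l
    · subst hjl
      simp only [Matrix.add_apply, Matrix.diagonal_apply_eq, Matrix.sum_apply, Matrix.smul_apply,
        Matrix.neg_apply, smul_eq_mul, dotProduct]
      rw [sub_eq_add_neg, ← Finset.sum_neg_distrib]
      congr 1
      exact Finset.sum_congr rfl fun i _ => by ring
    · simp only [Matrix.add_apply, Matrix.diagonal_apply_ne _ hjl, Matrix.sum_apply,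
        Matrix.smul_apply, Matrix.neg_apply, smul_eq_mul, neg_zero, mul_zero,
        Finset.sum_const_zero, add_zero]
  -- the objective function
  have hobj : ∀ (G : SimpleGraph (Fin n)) (y : Fin F.d → ℝ),
      (∑ H, if H ≤ G then F.w H else 0) ⬝ᵥ y + (∑ H, if H ≤ G then F.w0 H else 0)
        = ∑ᶠ H ∈ Set.Iic G, (F.w H ⬝ᵥ y + F.w0 H) := by
    intro G y
    rw [finsum_mem_eq_finite_toFinset_sum _ (Set.toFinite _), sum_dotProduct,
      ← Finset.sum_add_distrib]
    have h1 : ∀ H : SimpleGraph (Fin n),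
        ((if H ≤ G then F.w H else 0) ⬝ᵥ y + if H ≤ G then F.w0 H else 0)
          = if H ≤ G then (F.w H ⬝ᵥ y + F.w0 H) else 0 := by
      intro H
      split_ifs
      · rfl
      · rw [zero_dotProduct, add_zero]
    rw [Finset.sum_congr rfl fun H _ => h1 H, ← Finset.sum_filter]
    refine Finset.sum_congr ?_ fun _ _ => rfl
    ext H
    simp
  -- the points
  have hpt : ∀ S : Finset (Fin n), ∃ y : Fin F.d → ℝ, S.card = k →
      (∀ i, F.a i ⬝ᵥ y ≤ F.b i) ∧ (∀ j, F.c j ⬝ᵥ y = F.e j) ∧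
      1 ≤ ∑ᶠ H ∈ Set.Iic (clq S), (F.w H ⬝ᵥ y + F.w0 H) := by
    intro S
    by_cases hS : S.card = k
    · obtain ⟨y, h1, h2, h3⟩ := F.complete (clq S) (clq_not_cliqueFree S k hS)
      exact ⟨y, fun _ => ⟨h1, h2, h3⟩⟩
    · exact ⟨0, fun h => absurd h hS⟩
  choose pt hpt using hpt
  have hmono : ∀ (S : Finset (Fin n)), S.card = k → ∀ G G' : SimpleGraph (Fin n), G ≤ G' →
      ∑ᶠ H ∈ Set.Iic G, (F.w H ⬝ᵥ pt S + F.w0 H)
        ≤ ∑ᶠ H ∈ Set.Iic G', (F.w H ⬝ᵥ pt S + F.w0 H) := by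
    intro S hS G G' hG
    rw [finsum_mem_eq_finite_toFinset_sum _ (Set.toFinite _),
      finsum_mem_eq_finite_toFinset_sum _ (Set.toFinite _)]
    refine Finset.sum_le_sum_of_subset_of_nonneg ?_ fun H _ _ =>
      F.nonneg H (pt S) (hpt S hS).1 (hpt S hS).2.1
    intro H hH
    simp only [Set.Finite.mem_toFinset, Set.mem_Iic] at hH ⊢
    exact hH.trans hG
  refine ⟨⟨F.d, F.m, Matrix.diagonal F.b, fun i => - Matrix.diagonal fun j => F.a j i, F.c, F.e,
    fun G => ∑ H, if H ≤ G then F.w H else 0, fun G => ∑ H, if H ≤ G then F.w0 H else 0, pt,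
    fun S H => if S.card = k then F.w H ⬝ᵥ pt S + F.w0 H else 0, fun S H => ?_, fun S H hH => ?_,
    fun S hS => ?_, fun S hS => (hpt S hS).2.1, fun S hS G => ?_, fun S hS G hG => ?_,
    fun G hG y hy he => ?_⟩, ?_, fun i => ?_⟩
  · split_ifs with hS
    · exact F.nonneg H (pt S) (hpt S hS).1 (hpt S hS).2.1
    · exact le_rfl
  · obtain ⟨h1, h2⟩ := F.small H hH
    rw [h1, h2, zero_dotProduct, add_zero, ite_self]
  · rw [key, Matrix.posSemidef_diagonal_iff]
    intro j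
    linarith [(hpt S hS).1 j]
  · rw [hobj]
    simp only [if_pos hS]
  · rw [hobj]
    refine (hpt S hS).2.2.trans (hmono S hS _ _ ?_)
    intro a b hab
    exact hG hab.1 hab.2.1 hab.2.2
  · rw [key, Matrix.posSemidef_diagonal_iff] at hy
    rw [hobj]
    exact F.sound G hG y (fun j => by linarith [hy j]) he
  · exact Matrix.isDiag_diagonal _
  · exact (Matrix.isDiag_diagonal _).neg

theorem clique_lp_mono {n k u r : ℕ} {ε ε' : ℝ} (h : ε' ≤ ε)
    (hF : ∃ P : CliqueSDP n k u ε r, P.IsLinear) : ∃ P : CliqueSDP n k u ε' r, P.IsLinear := by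
  obtain ⟨F, hF⟩ := hF
  exact ⟨{ F with sound := fun G hG y hy he => (F.sound G hG y hy he).trans (by linarith) }, hF⟩

theorem main :
    ∀ k u : ℕ, 3 ≤ u → u ≤ k →
      (∀ ε : ℝ, 0 < ε → ∃ c : ℝ, 0 < c ∧ ∀ n r : ℕ, 2 ≤ n →
        Nonempty (CliqueSDP n k u ε r) →
          c * (n / Real.log n) ^ ((u + 2) / 3) ≤ r + 1) ∧
      (∀ ε : ℝ, 0 < ε → ∃ c : ℝ, 0 < c ∧ ∀ n r : ℕ, 2 ≤ n →
        (∃ P : CliqueSDP n k u ε r, P.IsLinear) →
          c * (n / Real.log n ^ 3) ^ u ≤ r + 1) ∧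
      ∀ n : ℕ, ∃ P : CliqueSDP n k u (1 - 2 / u) (n.choose u), P.IsLinear := by
  intro k u hu huk
  refine ⟨fun ε hε => ?_, fun ε hε => ?_, fun n => ?_⟩
  · obtain ⟨c0, K1, δ, hc0, hK1, hδ, h⟩ := lower_param k u hu (min ε 1)
      (lt_min hε one_pos) (min_le_right _ _)
    obtain ⟨c, hc, hc2⟩ := asym k ((u - 1) / 3 + 1) (by omega) (by omega) c0 K1 δ hc0 hK1 hδ
    refine ⟨c, hc, fun n r hn hF => ?_⟩
    have he : (u + 2) / 3 = (u - 1) / 3 + 1 := by omega
    rw [he]
    obtain ⟨F⟩ := hF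
    exact hc2 n r hn (h n r (clique_sdp_mono (min_le_left _ _) F))
  · obtain ⟨c, hc, h⟩ := lin_main k u hu huk (min ε 1) (lt_min hε one_pos) (min_le_right _ _)
    exact ⟨c, hc, fun n r hn hF => h n r hn (clique_lp_mono (min_le_left _ _) hF)⟩
  · obtain ⟨F⟩ := Pool.Agent.Lib.MP_678664_lc_h67b.upper n k u hu huk
    exact sdp_of_lp F

end Pool.Agent.Lib.SDF
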