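import Pool.Agent.Lib.SDF.FormLower

/-!
Row C4: the matrix version of `form_lower`.
-/

set_option autoImplicit false

namespace Pool.Agent.Lib.SDF

open Finset

variable {κ α S ι : Type*} [Fintype κ] [DecidableEq κ] [Fintype α] [DecidableEq α] [Fintype S]
  [DecidableEq S] [Fintype ι] [DecidableEq ι]

set_option linter.unusedSectionVars false

private theorem C4_trace (H C : Matrix ι ι ℝ) (hH : H.transpose = H) :
    (H * H * (C * C.transpose)).trace = ∑ i, ∑ j, (∑ l, H i l * C l j) ^ 2 := by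
  have h1 : H * H * (C * C.transpose) = H * ((H * C) * C.transpose) := by
    simp only [Matrix.mul_assoc]
  rw [h1, Matrix.trace_mul_comm]
  have h2 : (H * C) * C.transpose * H = (H * C) * (H * C).transpose := by
    rw [Matrix.transpose_mul, hH, Matrix.mul_assoc]
  rw [h2]
  simp only [Matrix.trace, Matrix.diag, Matrix.mul_apply, Matrix.transpose_apply]
  refine Finset.sum_congr rfl fun i _ => Finset.sum_congr rfl fun j _ => ?_
  rw [sq]

private theorem C4_traceB (C : Matrix ι ι ℝ) :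
    (C * C.transpose).trace = ∑ j, ∑ l, C l j ^ 2 := by
  simp only [Matrix.trace, Matrix.diag, Matrix.mul_apply, Matrix.transpose_apply]
  rw [Finset.sum_comm]
  refine Finset.sum_congr rfl fun i _ => Finset.sum_congr rfl fun j _ => ?_
  rw [sq]

private theorem C4_coef (e : S → S → ℝ) (H : (κ × α → S) → Matrix ι ι ℝ) (C : Matrix ι ι ℝ)
    (i j : ι) (a : κ × α → S) :
    coef e (fun x => ∑ l, H x i l * C l j) a = ∑ l, coef e (fun x => H x i l) a * C l j := by
  unfold coef
  have h : ∀ x : κ × α → S, (∑ l, H x i l * C l j) * E e a x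
      = ∑ l ∈ Finset.univ, (H x i l * E e a x) * C l j := by
    intro x
    rw [Finset.sum_mul]
    exact Finset.sum_congr rfl fun l _ => by ring
  rw [av_congr h, av_finset_sum]
  exact Finset.sum_congr rfl fun l _ => av_mul_right _ _

private theorem C4_high {o : S} (e : S → S → ℝ) (t : ℕ)
    (H : (κ × α → S) → Matrix ι ι ℝ) (C : Matrix ι ι ℝ) (y : κ → α) :
    ∑ i, ∑ j, ∑ a ∈ (lowSet o t y)ᶜ, coef e (fun x => ∑ l, H x i l * C l j) a ^ 2
      ≤ (C * C.transpose).trace * highMass o e t H y := by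
  rw [C4_traceB]
  unfold highMass
  rw [mul_comm, Finset.sum_mul]
  refine Finset.sum_le_sum fun i _ => ?_
  rw [Finset.mul_sum]
  refine Finset.sum_le_sum fun j _ => ?_
  rw [Finset.sum_comm, Finset.sum_mul]
  refine Finset.sum_le_sum fun a _ => ?_
  rw [C4_coef]
  exact Finset.sum_mul_sq_le_sq_mul_sq _ _ _

/-- `B = C * Cᵀ`, `tr (H² B) = ∑ i j, (H C) i j ^ 2` as `H` is symmetric; use `form_lower` for
each entry of `H C`; the coefficients of `(H C) i j` are `∑ l, coef (H i l) a * C l j`, and by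
Cauchy-Schwarz `∑ i j, (∑ l, coef (H i l) a * C l j) ^ 2 ≤ (∑ i l, coef (H i l) a ^ 2) * tr B`. -/
theorem matrix_form_lower {o : S} {e : S → S → ℝ} (h : IsBasis o e) (W : (κ → S) → ℝ) (c : ℝ)
    (hc : 0 ≤ c) (hWc : ∀ z, |W z| ≤ c) (t : ℕ)
    (hW : ∀ g ∈ degLE κ S t, 0 ≤ ∑ z, W z * g z ^ 2) (y : κ → α)
    (H : (κ × α → S) → Matrix ι ι ℝ) (hH : ∀ x, (H x).transpose = H x)
    (B : Matrix ι ι ℝ) (hB : B.PosSemidef) (η : ℝ) (hη : 0 < η) :
    -(η * c * av (fun x => (H x * H x * B).trace)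
        + c * (1 + 1 / η) * (B.trace * highMass o e t H y))
      ≤ av (fun x => W (fun v => x (v, y v)) * (H x * H x * B).trace) := by
  open scoped MatrixOrder in
  obtain ⟨D, hD⟩ := CStarAlgebra.nonneg_iff_eq_star_mul_self.mp hB.nonneg
  obtain ⟨C, hC⟩ : ∃ C : Matrix ι ι ℝ, B = C * C.transpose := by
    refine ⟨D.transpose, ?_⟩
    rw [hD, Matrix.transpose_transpose]
    congr 1
  subst hC
  have ht : ∀ x, (H x * H x * (C * C.transpose)).trace
      = ∑ i ∈ Finset.univ, ∑ j ∈ Finset.univ, (∑ l, H x i l * C l j) ^ 2 :=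
    fun x => C4_trace (H x) C (hH x)
  have h1 : av (fun x => (H x * H x * (C * C.transpose)).trace)
      = ∑ i, ∑ j, av (fun x => (∑ l, H x i l * C l j) ^ 2) := by
    rw [av_congr ht, av_finset_sum]
    exact Finset.sum_congr rfl fun i _ => av_finset_sum _ _
  have h2 : av (fun x => W (fun v => x (v, y v)) * (H x * H x * (C * C.transpose)).trace)
      = ∑ i, ∑ j, av (fun x => W (fun v => x (v, y v)) * (∑ l, H x i l * C l j) ^ 2) := by
    have h3 : ∀ x, W (fun v => x (v, y v)) * (H x * H x * (C * C.transpose)).trace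
        = ∑ i ∈ Finset.univ, ∑ j ∈ Finset.univ,
            W (fun v => x (v, y v)) * (∑ l, H x i l * C l j) ^ 2 := by
      intro x
      rw [ht x, Finset.mul_sum]
      exact Finset.sum_congr rfl fun i _ => Finset.mul_sum _ _ _
    rw [av_congr h3, av_finset_sum]
    exact Finset.sum_congr rfl fun i _ => av_finset_sum _ _
  have h4 : ∀ i j, -(η * c * av (fun x => (∑ l, H x i l * C l j) ^ 2)
        + c * (1 + 1 / η) * ∑ a ∈ (lowSet o t y)ᶜ, coef e (fun x => ∑ l, H x i l * C l j) a ^ 2)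
      ≤ av (fun x => W (fun v => x (v, y v)) * (∑ l, H x i l * C l j) ^ 2) :=
    fun i j => form_lower h W c hc hWc t hW y (fun x => ∑ l, H x i l * C l j) η hη
  have h5 := Finset.sum_le_sum fun (i : ι) (_ : i ∈ Finset.univ) =>
    Finset.sum_le_sum fun (j : ι) (_ : j ∈ Finset.univ) => h4 i j
  rw [h1, h2]
  refine le_trans ?_ h5
  have h6 := C4_high (o := o) e t H C y
  have h7 : 0 ≤ c * (1 + 1 / η) := by positivity
  have h8 := mul_le_mul_of_nonneg_left h6 h7
  simp only [Finset.sum_neg_distrib, Finset.sum_add_distrib, ← Finset.mul_sum]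
  linarith

end Pool.Agent.Lib.SDF
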