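import Pool.Agent.Lib.SDF.Base

/-!
Row P1: the scalar inequality.
-/

set_option autoImplicit false

namespace Pool.Agent.Lib.SDF

open Finset

private theorem P1_point1 {c e2 F p w lam : ℝ} (hc : 0 < c) (he2 : 0 < e2)
    (hp : 0 ≤ p) (hw : 0 ≤ w) (hwF : w ≤ F) (hl2 : lam ≤ 2 * c) :
    p * w * (lam - (c + 3 * e2 / 4)) ≤
      c * F * (if c + 3 * e2 / 4 ≤ lam then p else 0) := by
  split_ifs with h
  · have h1 : lam - (c + 3 * e2 / 4) ≤ c := by linarith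
    have h2 : 0 ≤ lam - (c + 3 * e2 / 4) := by linarith
    calc p * w * (lam - (c + 3 * e2 / 4)) ≤ p * w * c :=
          mul_le_mul_of_nonneg_left h1 (mul_nonneg hp hw)
      _ ≤ p * F * c := by
          apply mul_le_mul_of_nonneg_right _ hc.le
          exact mul_le_mul_of_nonneg_left hwF hp
      _ = c * F * p := by ring
  · push Not at h
    have : p * w * (lam - (c + 3 * e2 / 4)) ≤ 0 :=
      mul_nonpos_of_nonneg_of_nonpos (mul_nonneg hp hw) (by linarith)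
    simpa using this

private theorem P1_point2 {c e2 p lam : ℝ} (hc : 0 < c) (he2 : 0 < e2)
    (hp : 0 ≤ p) (hl : 0 ≤ lam) (s : ℕ) :
    (c + 3 * e2 / 4) ^ (2 * s) * (e2 / 4) * (if c + 3 * e2 / 4 ≤ lam then p else 0)
      - (c + e2 / 2) ^ (2 * s) * (c + e2 / 2) * p
      ≤ p * lam ^ (2 * s + 1) - (c + e2 / 2) * (p * lam ^ (2 * s)) := by
  have hth : 0 < c + e2 / 2 := by positivity
  have hth' : 0 < c + 3 * e2 / 4 := by positivity
  have hrw : p * lam ^ (2 * s + 1) - (c + e2 / 2) * (p * lam ^ (2 * s))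
      = p * (lam ^ (2 * s) * (lam - (c + e2 / 2))) := by ring
  rw [hrw]
  split_ifs with h
  · have h1 : (c + 3 * e2 / 4) ^ (2 * s) ≤ lam ^ (2 * s) := pow_le_pow_left₀ hth'.le h _
    have h2 : e2 / 4 ≤ lam - (c + e2 / 2) := by linarith
    have h3 : (c + 3 * e2 / 4) ^ (2 * s) * (e2 / 4) ≤ lam ^ (2 * s) * (lam - (c + e2 / 2)) :=
      mul_le_mul h1 h2 (by positivity) (by positivity)
    have h4 : 0 ≤ (c + e2 / 2) ^ (2 * s) * (c + e2 / 2) * p := by positivity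
    have h5 := mul_le_mul_of_nonneg_left h3 hp
    nlinarith
  · push Not at h
    by_cases h0 : c + e2 / 2 ≤ lam
    · have h1 : 0 ≤ p * (lam ^ (2 * s) * (lam - (c + e2 / 2))) := by
        apply mul_nonneg hp
        apply mul_nonneg (by positivity)
        linarith
      have h4 : 0 ≤ (c + e2 / 2) ^ (2 * s) * (c + e2 / 2) * p := by positivity
      simp only [mul_zero, zero_sub]
      linarith
    · push Not at h0
      have h1 : lam ^ (2 * s) ≤ (c + e2 / 2) ^ (2 * s) := pow_le_pow_left₀ hl h0.le _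
      have h2 : (c + e2 / 2) - lam ≤ c + e2 / 2 := by linarith
      have h3 : lam ^ (2 * s) * ((c + e2 / 2) - lam)
          ≤ (c + e2 / 2) ^ (2 * s) * (c + e2 / 2) :=
        mul_le_mul h1 h2 (by linarith) (by positivity)
      have h5 := mul_le_mul_of_nonneg_left h3 hp
      simp only [mul_zero, zero_sub]
      nlinarith

/-- Row P1 (scalars).  Put `θ = c + e2 / 2`, `θ' = c + 3 * e2 / 4`.  From `hmean`:
`∑ p w (lam - θ') ≥ (e2 / 4) m0`, so `∑_{lam ≥ θ'} p w ≥ e2 m0 / (4 c)` and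
`∑_{lam ≥ θ'} p ≥ e2 m0 / (4 c F)`.  The terms with `lam ≥ θ'` contribute at least
`θ' ^ (2 s) (e2 / 4) e2 m0 / (4 c F)` to `∑ p lam ^ (2 s) (lam - θ)`, those with `lam < θ` at
least `- θ ^ (2 s) θ r`, and `θ' / θ ≥ 1 + e2 / (8 c)`. -/
theorem scalar_power {I : Type*} [Fintype I] (p w lam : I → ℝ) (c e2 F m0 r : ℝ)
    (hc : 0 < c) (he2 : 0 < e2) (he2c : e2 ≤ c) (hF : 0 < F) (hm0 : 0 < m0)
    (hp : ∀ i, 0 ≤ p i) (hw : ∀ i, 0 ≤ w i) (hwF : ∀ i, w i ≤ F)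
    (hl : ∀ i, 0 ≤ lam i) (hl2 : ∀ i, lam i ≤ 2 * c) (hr : ∑ i, p i ≤ r)
    (hm : m0 ≤ ∑ i, p i * w i)
    (hmean : (c + e2) * ∑ i, p i * w i ≤ ∑ i, p i * (w i * lam i)) (s : ℕ)
    (hs : 32 * c ^ 2 * F * r / (e2 ^ 2 * m0) < (1 + e2 / (8 * c)) ^ (2 * s)) :
    (c + e2 / 2) * ∑ i, p i * lam i ^ (2 * s) < ∑ i, p i * lam i ^ (2 * s + 1) := by
  set q : I → ℝ := fun i => if c + 3 * e2 / 4 ≤ lam i then p i else 0 with hq
  have hth : 0 < c + e2 / 2 := by positivity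
  have hth' : 0 < c + 3 * e2 / 4 := by positivity
  -- the mass above the threshold
  have hA : e2 / 4 * m0 ≤ c * F * ∑ i, q i := by
    have h1 : ∑ i, p i * w i * (lam i - (c + 3 * e2 / 4)) ≤ ∑ i, c * F * q i :=
      Finset.sum_le_sum (fun i _ => P1_point1 hc he2 (hp i) (hw i) (hwF i) (hl2 i))
    have h2 : ∑ i, p i * w i * (lam i - (c + 3 * e2 / 4))
        = ∑ i, p i * (w i * lam i) - (c + 3 * e2 / 4) * ∑ i, p i * w i := by
      rw [Finset.mul_sum, ← Finset.sum_sub_distrib]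
      exact Finset.sum_congr rfl (fun i _ => by ring)
    rw [← Finset.mul_sum] at h1
    nlinarith
  -- the lower bound
  have hB : (c + 3 * e2 / 4) ^ (2 * s) * (e2 / 4) * ∑ i, q i
      - (c + e2 / 2) ^ (2 * s) * (c + e2 / 2) * ∑ i, p i
      ≤ ∑ i, p i * lam i ^ (2 * s + 1) - (c + e2 / 2) * ∑ i, p i * lam i ^ (2 * s) := by
    rw [Finset.mul_sum, Finset.mul_sum, Finset.mul_sum, ← Finset.sum_sub_distrib,
      ← Finset.sum_sub_distrib]
    exact Finset.sum_le_sum (fun i _ => P1_point2 hc he2 (hp i) (hl i) s)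
  have hr0 : 0 ≤ r := le_trans (Finset.sum_nonneg (fun i _ => hp i)) hr
  -- comparison of the powers
  have hratio : (1 + e2 / (8 * c)) * (c + e2 / 2) ≤ c + 3 * e2 / 4 := by
    have h1 : e2 / (8 * c) * (c + e2 / 2) ≤ e2 / 4 := by
      rw [div_mul_eq_mul_div, div_le_iff₀ (by positivity)]
      nlinarith
    nlinarith
  have hpow : (1 + e2 / (8 * c)) ^ (2 * s) * (c + e2 / 2) ^ (2 * s)
      ≤ (c + 3 * e2 / 4) ^ (2 * s) := by
    rw [← mul_pow]
    exact pow_le_pow_left₀ (by positivity) hratio _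
  have hs' : 32 * c ^ 2 * F * r < (1 + e2 / (8 * c)) ^ (2 * s) * (e2 ^ 2 * m0) := by
    rwa [div_lt_iff₀ (by positivity)] at hs
  have hP : 0 < (c + e2 / 2) ^ (2 * s) := by positivity
  have h32 : 32 * c ^ 2 * F * r * (c + e2 / 2) ^ (2 * s)
      < (c + 3 * e2 / 4) ^ (2 * s) * (e2 ^ 2 * m0) := by
    calc 32 * c ^ 2 * F * r * (c + e2 / 2) ^ (2 * s)
        < (1 + e2 / (8 * c)) ^ (2 * s) * (e2 ^ 2 * m0) * (c + e2 / 2) ^ (2 * s) :=
          mul_lt_mul_of_pos_right hs' hP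
      _ = (1 + e2 / (8 * c)) ^ (2 * s) * (c + e2 / 2) ^ (2 * s) * (e2 ^ 2 * m0) := by ring
      _ ≤ (c + 3 * e2 / 4) ^ (2 * s) * (e2 ^ 2 * m0) :=
          mul_le_mul_of_nonneg_right hpow (by positivity)
  -- final comparison, multiplied by `16 c F`
  have hQ : (c + 3 * e2 / 4) ^ (2 * s) * (e2 ^ 2 * m0)
      ≤ 16 * c * F * ((c + 3 * e2 / 4) ^ (2 * s) * (e2 / 4) * ∑ i, q i) := by
    have h0 : 0 ≤ (c + 3 * e2 / 4) ^ (2 * s) * (4 * e2) := by positivity
    have := mul_le_mul_of_nonneg_left hA h0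
    nlinarith
  have hR : 16 * c * F * ((c + e2 / 2) ^ (2 * s) * (c + e2 / 2) * ∑ i, p i)
      ≤ 32 * c ^ 2 * F * r * (c + e2 / 2) ^ (2 * s) := by
    have h1 : (c + e2 / 2) * ∑ i, p i ≤ 2 * c * r := by
      apply mul_le_mul (by linarith) hr (Finset.sum_nonneg (fun i _ => hp i)) (by positivity)
    have h0 : 0 ≤ 16 * c * F * (c + e2 / 2) ^ (2 * s) := by positivity
    have := mul_le_mul_of_nonneg_left h1 h0
    nlinarith
  have hcF : 0 < 16 * c * F := by positivity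
  have hfin : (c + e2 / 2) ^ (2 * s) * (c + e2 / 2) * ∑ i, p i
      < (c + 3 * e2 / 4) ^ (2 * s) * (e2 / 4) * ∑ i, q i := by
    have := lt_of_le_of_lt hR (lt_of_lt_of_le h32 hQ)
    exact lt_of_mul_lt_mul_left this hcF.le
  linarith

end Pool.Agent.Lib.SDF
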