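import Pool.Agent.Lib.SDF.PowerA

/-!
Row P2: spectral data.
-/

set_option autoImplicit false

namespace Pool.Agent.Lib.SDF

open Finset

private theorem P2_spec {ι : Type*} [Fintype ι] [DecidableEq ι] (P : Matrix ι ι ℝ)
    (hP : P.IsHermitian) :
    ∃ (U : Matrix ι ι ℝ) (lam : ι → ℝ), U.conjTranspose * U = 1 ∧ U * U.conjTranspose = 1 ∧
      P = U * Matrix.diagonal lam * U.conjTranspose := by
  refine ⟨(hP.eigenvectorUnitary : Matrix ι ι ℝ), hP.eigenvalues, ?_, ?_, ?_⟩
  · exact Unitary.coe_star_mul_self hP.eigenvectorUnitary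
  · exact Unitary.coe_mul_star_self hP.eigenvectorUnitary
  · have h := hP.spectral_theorem
    rw [Unitary.conjStarAlgAut_apply] at h
    exact h

/-- Row P2 (spectral theorem for `P`): `lam` the eigenvalues of `P`, `w j = u j ⬝ᵥ τ u j` for an
orthonormal basis `u` of eigenvectors. -/
theorem spectral_data {ι : Type*} [Fintype ι] [DecidableEq ι] (P τ : Matrix ι ι ℝ) (c : ℝ)
    (hP : P.PosSemidef) (hP2 : ((2 * c) • (1 : Matrix ι ι ℝ) - P).PosSemidef)
    (hτ : τ.PosSemidef) :
    ∃ lam w : ι → ℝ, (∀ j, 0 ≤ lam j) ∧ (∀ j, lam j ≤ 2 * c) ∧ (∀ j, 0 ≤ w j) ∧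
      (∑ j, w j = τ.trace) ∧ (∑ j, w j * lam j = (τ * P).trace) ∧
      ∀ m : ℕ, (P ^ m).trace = ∑ j, lam j ^ m := by
  obtain ⟨U, lam, h1, h2, h3⟩ := P2_spec P hP.1
  have h4 : U.conjTranspose * P * U = Matrix.diagonal lam := by
    rw [h3]
    calc U.conjTranspose * (U * Matrix.diagonal lam * U.conjTranspose) * U
        = (U.conjTranspose * U) * Matrix.diagonal lam * (U.conjTranspose * U) := by
          simp only [Matrix.mul_assoc]
      _ = Matrix.diagonal lam := by rw [h1, Matrix.one_mul, Matrix.mul_one]
  refine ⟨lam, fun j => (U.conjTranspose * τ * U) j j, ?_, ?_, ?_, ?_, ?_, ?_⟩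
  · intro j
    have h5 := (hP.conjTranspose_mul_mul_same U).diag_nonneg (i := j)
    rw [h4, Matrix.diagonal_apply_eq] at h5
    exact h5
  · intro j
    have h5 := (hP2.conjTranspose_mul_mul_same U).diag_nonneg (i := j)
    rw [Matrix.mul_sub, Matrix.sub_mul, h4, Matrix.mul_smul, Matrix.smul_mul, Matrix.mul_one, h1,
      Matrix.sub_apply, Matrix.smul_apply, Matrix.one_apply_eq, Matrix.diagonal_apply_eq,
      smul_eq_mul, mul_one] at h5
    linarith
  · intro j
    exact (hτ.conjTranspose_mul_mul_same U).diag_nonneg (i := j)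
  · change (U.conjTranspose * τ * U).trace = τ.trace
    rw [Matrix.mul_assoc, Matrix.trace_mul_comm, Matrix.mul_assoc, h2, Matrix.mul_one]
  · have h5 : (τ * P).trace = ((U.conjTranspose * τ * U) * Matrix.diagonal lam).trace := by
      rw [h3]
      calc (τ * (U * Matrix.diagonal lam * U.conjTranspose)).trace
          = ((τ * U * Matrix.diagonal lam) * U.conjTranspose).trace := by
            simp only [Matrix.mul_assoc]
        _ = (U.conjTranspose * (τ * U * Matrix.diagonal lam)).trace := Matrix.trace_mul_comm _ _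
        _ = ((U.conjTranspose * τ * U) * Matrix.diagonal lam).trace := by
            simp only [Matrix.mul_assoc]
    rw [h5, Matrix.trace]
    refine Finset.sum_congr rfl fun j _ => ?_
    rw [Matrix.diag_apply, Matrix.mul_diagonal]
  · intro m
    have h5 : P ^ m = U * Matrix.diagonal (fun j => lam j ^ m) * U.conjTranspose := by
      induction m with
      | zero =>
        have : (Matrix.diagonal fun j => lam j ^ 0) = (1 : Matrix ι ι ℝ) := by
          simp
        rw [this, pow_zero, Matrix.mul_one, h2]
      | succ m ih =>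
        rw [pow_succ, ih]
        nth_rewrite 1 [h3]
        calc U * Matrix.diagonal (fun j => lam j ^ m) * U.conjTranspose
              * (U * Matrix.diagonal lam * U.conjTranspose)
            = U * (Matrix.diagonal (fun j => lam j ^ m) * (U.conjTranspose * U)
              * Matrix.diagonal lam) * U.conjTranspose := by
              simp only [Matrix.mul_assoc]
          _ = U * Matrix.diagonal (fun j => lam j ^ (m + 1)) * U.conjTranspose := by
              rw [h1, Matrix.mul_one, Matrix.diagonal_mul_diagonal]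
              simp only [pow_succ]
    rw [h5, Matrix.trace_mul_comm, ← Matrix.mul_assoc, h1, Matrix.one_mul, Matrix.trace_diagonal]

end Pool.Agent.Lib.SDF
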