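import Pool.Agent.Lib.SDF.Deg

/-!
Row T0: traces.
-/

set_option autoImplicit false

namespace Pool.Agent.Lib.SDF

open Finset

variable {κ α S ι : Type*} [Fintype κ] [DecidableEq κ] [Fintype α] [DecidableEq α] [Fintype S]
  [DecidableEq S] [Fintype ι] [DecidableEq ι]

open scoped MatrixOrder in
private theorem T0_sqrt {A : Matrix ι ι ℝ} (hA : A.PosSemidef) :
    ∃ C : Matrix ι ι ℝ, A = C.conjTranspose * C := by
  obtain ⟨C, hC⟩ := CStarAlgebra.nonneg_iff_eq_star_mul_self.mp hA.nonneg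
  exact ⟨C, by rw [hC, Matrix.star_eq_conjTranspose]⟩

/-- Row T0.  `A = Cᵀ * C`, `B = Dᵀ * D`: the trace is a sum of squares of the entries of
`D * Cᵀ`. -/
theorem trace_mul_nonneg {A B : Matrix ι ι ℝ} (hA : A.PosSemidef) (hB : B.PosSemidef) :
    0 ≤ (A * B).trace := by
  obtain ⟨C, rfl⟩ := T0_sqrt hA
  have h1 : (C.conjTranspose * C * B).trace = (C * B * C.conjTranspose).trace := by
    rw [Matrix.mul_assoc, Matrix.trace_mul_comm]
  rw [h1]
  exact (hB.mul_mul_conjTranspose_same C).trace_nonneg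

open Classical in
/-- Row T4.  Markov's inequality: the average of `tr (B y)` is `1`. -/
theorem av_good [Nonempty α] [Nonempty ι] (B : (κ → α) → Matrix ι ι ℝ)
    (hB : ∀ y, (B y).PosSemidef)
    (hBs : ∑ y, B y = ((Fintype.card (κ → α) : ℝ) / Fintype.card ι) • (1 : Matrix ι ι ℝ)) :
    3 / 4 ≤ av (fun y : κ → α => if (B y).trace ≤ 4 then (1 : ℝ) else 0) := by
  have hκ : (0 : ℝ) < Fintype.card (κ → α) := by exact_mod_cast Fintype.card_pos
  have hι : (0 : ℝ) < Fintype.card ι := by exact_mod_cast Fintype.card_pos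
  have h1 : av (fun y : κ → α => (B y).trace) = 1 := by
    unfold av
    rw [← Matrix.trace_sum, hBs, Matrix.trace_smul, Matrix.trace_one, smul_eq_mul]
    field_simp
  have h2 : ∀ y : κ → α, 1 - 1 / 4 * (B y).trace
      ≤ if (B y).trace ≤ 4 then (1 : ℝ) else 0 := by
    intro y
    have h3 := (hB y).trace_nonneg
    split_ifs with h4
    · linarith
    · push Not at h4
      linarith
  have h3 := av_mono h2
  rw [av_sub, av_mul_left, h1, av_const] at h3
  linarith

/-- Row T5.  `tr A = card ι * av_y tr (A * B y)`. -/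
theorem av_trace_mul [Nonempty α] [Nonempty ι] (B : (κ → α) → Matrix ι ι ℝ)
    (hBs : ∑ y, B y = ((Fintype.card (κ → α) : ℝ) / Fintype.card ι) • (1 : Matrix ι ι ℝ))
    (A : Matrix ι ι ℝ) :
    (Fintype.card ι : ℝ) * av (fun y : κ → α => (A * B y).trace) = A.trace := by
  have hκ : (0 : ℝ) < Fintype.card (κ → α) := by exact_mod_cast Fintype.card_pos
  have hι : (0 : ℝ) < Fintype.card ι := by exact_mod_cast Fintype.card_pos
  unfold av
  rw [← Matrix.trace_sum, ← Matrix.mul_sum, hBs, Matrix.mul_smul, Matrix.mul_one,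
    Matrix.trace_smul, smul_eq_mul]
  field_simp

end Pool.Agent.Lib.SDF
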